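import Mathlib

/-!
# Transvections and matrices of determinant one, all levels
-/

set_option autoImplicit false

namespace Pool.Agent.Q19.SU.Gen

variable {V : Type*} [AddCommGroup V]

/-- a basis of the elements killed by `n` -/
structure Bas (n : ℕ) (P Q : V) : Prop where
  hP : (n : ℤ) • P = 0
  hQ : (n : ℤ) • Q = 0
  span : ∀ R : V, (n : ℤ) • R = 0 → ∃ a b : ℤ, R = a • P + b • Q
  ind : ∀ a b : ℤ, a • P + b • Q = 0 → (n : ℤ) ∣ a ∧ (n : ℤ) ∣ b

theorem Bas.lift {p : ℕ} (k : ℕ) {P Q : V} (hP : ((p : ℤ) ^ (k + 1)) • P = 0)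
    (hQ : ((p : ℤ) ^ (k + 1)) • Q = 0) (h : Bas p (((p : ℤ) ^ k) • P) (((p : ℤ) ^ k) • Q)) :
    Bas (p ^ (k + 1)) P Q := by
  refine ⟨by push_cast; exact hP, by push_cast; exact hQ, ?_, ?_⟩
  · have key : ∀ j : ℕ, j ≤ k + 1 → ∀ R : V, ((p : ℤ) ^ j) • R = 0 → ∃ a b : ℤ, R = a • P + b • Q := by
      intro j
      induction j with
      | zero =>
        intro _ R hR
        refine ⟨0, 0, ?_⟩
        rw [pow_zero, one_smul] at hR
        rw [hR]; simp
      | succ j ih =>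
        intro hj R hR
        obtain ⟨a, b, hab⟩ := h.span (((p : ℤ) ^ j) • R) (by
          rw [smul_smul, ← pow_succ']
          exact hR)
        have hkj : (p : ℤ) ^ j * (p : ℤ) ^ (k - j) = (p : ℤ) ^ k := by
          rw [← pow_add]; congr 1; omega
        obtain ⟨a', b', hab'⟩ := ih (by omega)
          (R - (a * (p : ℤ) ^ (k - j)) • P - (b * (p : ℤ) ^ (k - j)) • Q) (by
            have e1 : ((p : ℤ) ^ j) • (R - (a * (p : ℤ) ^ (k - j)) • P -
                (b * (p : ℤ) ^ (k - j)) • Q) = ((p : ℤ) ^ j) • R -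
                (a * ((p : ℤ) ^ j * (p : ℤ) ^ (k - j))) • P -
                (b * ((p : ℤ) ^ j * (p : ℤ) ^ (k - j))) • Q := by module
            rw [e1, hkj, hab]
            module)
        refine ⟨a' + a * (p : ℤ) ^ (k - j), b' + b * (p : ℤ) ^ (k - j), ?_⟩
        have e2 : R = (R - (a * (p : ℤ) ^ (k - j)) • P - (b * (p : ℤ) ^ (k - j)) • Q) +
          ((a * (p : ℤ) ^ (k - j)) • P + (b * (p : ℤ) ^ (k - j)) • Q) := by module
        rw [e2, hab']
        module
    intro R hR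
    push_cast at hR
    exact key (k + 1) le_rfl R hR
  · intro a b hab
    have key : ∀ j : ℕ, j ≤ k + 1 → (p : ℤ) ^ j ∣ a ∧ (p : ℤ) ^ j ∣ b := by
      intro j
      induction j with
      | zero => intro _; simp
      | succ j ih =>
        intro hj
        obtain ⟨⟨a', ha'⟩, ⟨b', hb'⟩⟩ := ih (by omega)
        have hkj : (p : ℤ) ^ (k - j) * (p : ℤ) ^ j = (p : ℤ) ^ k := by
          rw [← pow_add]; congr 1; omega
        obtain ⟨h1, h2⟩ := h.ind a' b' (by
          have e1 : a' • (((p : ℤ) ^ k) • P) + b' • (((p : ℤ) ^ k) • Q) =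
              ((p : ℤ) ^ (k - j)) • (a • P + b • Q) := by
            rw [ha', hb', ← hkj]; module
          rw [e1, hab, smul_zero])
        obtain ⟨c, hc⟩ := h1
        obtain ⟨d, hd⟩ := h2
        refine ⟨⟨c, ?_⟩, ⟨d, ?_⟩⟩
        · rw [ha', hc]; ring
        · rw [hb', hd]; ring
    push_cast
    exact key (k + 1) le_rfl

theorem crt {m n : ℕ} (h : Nat.Coprime m n) (a b : ℤ) : ∃ x : ℤ, (m : ℤ) ∣ x - a ∧ (n : ℤ) ∣ x - b := by
  have hc : IsCoprime (m : ℤ) (n : ℤ) := Nat.isCoprime_iff_coprime.2 h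
  obtain ⟨u, v, huv⟩ := hc
  refine ⟨a * (v * n) + b * (u * m), ⟨u * (b - a), ?_⟩, ⟨v * (a - b), ?_⟩⟩
  · linear_combination a * huv
  · linear_combination b * huv

theorem smul_congr {n : ℕ} {P : V} (hP : (n : ℤ) • P = 0) {a b : ℤ} (h : (n : ℤ) ∣ a - b) :
    a • P = b • P := by
  obtain ⟨c, hc⟩ := h
  have : a = b + c * n := by linear_combination hc
  rw [this, add_smul, mul_smul, hP, smul_zero, add_zero]

theorem Bas.coprime {m n : ℕ} (hmn : Nat.Coprime m n) {P Q P' Q' : V} (h : Bas m P Q)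
    (h' : Bas n P' Q') : Bas (m * n) (P + P') (Q + Q') := by
  obtain ⟨u, v, huv⟩ := (Nat.isCoprime_iff_coprime.2 hmn : IsCoprime (m : ℤ) (n : ℤ))
  refine ⟨?_, ?_, ?_, ?_⟩
  · push_cast
    rw [smul_add, mul_comm, mul_smul, h.hP, smul_zero, zero_add, mul_comm, mul_smul, h'.hP,
      smul_zero]
  · push_cast
    rw [smul_add, mul_comm, mul_smul, h.hQ, smul_zero, zero_add, mul_comm, mul_smul, h'.hQ,
      smul_zero]
  · intro R hR
    push_cast at hR
    obtain ⟨a, b, h1⟩ := h.span ((v * n) • R) (by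
      have : (m : ℤ) • ((v * n) • R) = v • ((m * n : ℤ) • R) := by module
      rw [this, hR, smul_zero])
    obtain ⟨a', b', h2⟩ := h'.span ((u * m) • R) (by
      have : (n : ℤ) • ((u * m) • R) = u • ((m * n : ℤ) • R) := by module
      rw [this, hR, smul_zero])
    obtain ⟨x, hx1, hx2⟩ := crt hmn a a'
    obtain ⟨y, hy1, hy2⟩ := crt hmn b b'
    refine ⟨x, y, ?_⟩
    have e1 : R = (v * n) • R + (u * m) • R := by
      rw [← add_smul]
      have : v * n + u * m = 1 := by linear_combination huv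
      rw [this, one_smul]
    rw [e1, h1, h2, smul_add, smul_add, smul_congr h.hP hx1, smul_congr h'.hP hx2,
      smul_congr h.hQ hy1, smul_congr h'.hQ hy2]
    abel
  · intro a b hab
    have h1 : a • P + b • Q = 0 := by
      have e1 : a • P + b • Q = -(a • P' + b • Q') := by
        rw [smul_add, smul_add] at hab
        have : a • P + b • Q + (a • P' + b • Q') = 0 := by rw [← hab]; abel
        exact eq_neg_of_add_eq_zero_left this
      have e2 : (m : ℤ) • (a • P + b • Q) = 0 := by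
        have : (m : ℤ) • (a • P + b • Q) = a • ((m : ℤ) • P) + b • ((m : ℤ) • Q) := by module
        rw [this, h.hP, h.hQ, smul_zero, smul_zero, add_zero]
      have e3 : (n : ℤ) • (a • P + b • Q) = 0 := by
        rw [e1]
        have : (n : ℤ) • (-(a • P' + b • Q')) = -(a • ((n : ℤ) • P') + b • ((n : ℤ) • Q')) := by
          module
        rw [this, h'.hP, h'.hQ, smul_zero, smul_zero, add_zero, neg_zero]
      have e4 : a • P + b • Q = u • ((m : ℤ) • (a • P + b • Q)) + v • ((n : ℤ) • (a • P + b • Q)) := by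
        rw [smul_smul, smul_smul, ← add_smul, huv, one_smul]
      rw [e4, e2, e3, smul_zero, smul_zero, add_zero]
    have h2 : a • P' + b • Q' = 0 := by
      rw [smul_add, smul_add] at hab
      have : a • P + b • Q + (a • P' + b • Q') = 0 := by rw [← hab]; abel
      rwa [h1, zero_add] at this
    obtain ⟨k1, k2⟩ := h.ind a b h1
    obtain ⟨k3, k4⟩ := h'.ind a b h2
    have hc : IsCoprime (m : ℤ) (n : ℤ) := ⟨u, v, huv⟩
    push_cast
    exact ⟨hc.mul_dvd k1 k3, hc.mul_dvd k2 k4⟩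

section act
variable {G : Type*} [Group G] {ρ : G → V →+ V}

/-- the matrices which are realised by elements acting trivially on the elements killed by `m` -/
def Rl (ρ : G → V →+ V) (m : ℕ) (P Q : V) (a b c d : ℤ) : Prop :=
  ∃ σ : G, ρ σ P = a • P + c • Q ∧ ρ σ Q = b • P + d • Q ∧ ∀ R : V, (m : ℤ) • R = 0 → ρ σ R = R

theorem Rl.mul (hmul : ∀ σ τ v, ρ (σ * τ) v = ρ σ (ρ τ v)) {m : ℕ} {P Q : V}
    {a b c d a' b' c' d' : ℤ} (h : Rl ρ m P Q a b c d) (h' : Rl ρ m P Q a' b' c' d') :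
    Rl ρ m P Q (a * a' + b * c') (a * b' + b * d') (c * a' + d * c') (c * b' + d * d') := by
  obtain ⟨σ, h1, h2, h3⟩ := h
  obtain ⟨σ', h1', h2', h3'⟩ := h'
  refine ⟨σ * σ', ?_, ?_, ?_⟩
  · rw [hmul, h1', map_add, map_zsmul, map_zsmul, h1, h2]
    module
  · rw [hmul, h2', map_add, map_zsmul, map_zsmul, h1, h2]
    module
  · intro R hR
    rw [hmul, h3' R hR, h3 R hR]

theorem Rl.congr {m n : ℕ} {P Q : V} (hP : (n : ℤ) • P = 0) (hQ : (n : ℤ) • Q = 0)
    {a b c d a' b' c' d' : ℤ} (h : Rl ρ m P Q a b c d) (ha : (n : ℤ) ∣ a - a')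
    (hb : (n : ℤ) ∣ b - b') (hc : (n : ℤ) ∣ c - c') (hd : (n : ℤ) ∣ d - d') :
    Rl ρ m P Q a' b' c' d' := by
  obtain ⟨σ, h1, h2, h3⟩ := h
  refine ⟨σ, ?_, ?_, h3⟩
  · rw [h1, smul_congr hP ha, smul_congr hQ hc]
  · rw [h2, smul_congr hP hb, smul_congr hQ hd]

/-- all matrices of determinant one are realised -/
def All (ρ : G → V →+ V) (n m : ℕ) (P Q : V) : Prop :=
  ∀ a b c d : ℤ, (n : ℤ) ∣ a * d - b * c - 1 → Rl ρ m P Q a b c d

/-- all elementary matrices imply all matrices of determinant one, for prime powers -/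
theorem all_of (hmul : ∀ σ τ v, ρ (σ * τ) v = ρ σ (ρ τ v)) {p k m : ℕ} (hp : p.Prime)
    (hk : 1 ≤ k) {P Q : V} (hP : ((p ^ k : ℕ) : ℤ) • P = 0) (hQ : ((p ^ k : ℕ) : ℤ) • Q = 0)
    (h1 : ∀ x : ℤ, Rl ρ m P Q 1 x 0 1) (h2 : ∀ x : ℤ, Rl ρ m P Q 1 0 x 1) :
    All ρ (p ^ k) m P Q := by
  have hpp : Prime (p : ℤ) := Nat.prime_iff_prime_int.1 hp
  have hpk : (p : ℤ) ∣ ((p ^ k : ℕ) : ℤ) := by
    push_cast
    exact dvd_pow_self _ (by omega)
  -- the case of a unit `c`
  have unit : ∀ a b c d : ℤ, ((p ^ k : ℕ) : ℤ) ∣ a * d - b * c - 1 → ¬ (p : ℤ) ∣ c →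
      Rl ρ m P Q a b c d := by
    intro a b c d hdet hc
    have hcop : IsCoprime c ((p ^ k : ℕ) : ℤ) := by
      push_cast
      exact ((hpp.coprime_iff_not_dvd.2 hc).symm).pow_right
    obtain ⟨u, v, huv⟩ := hcop
    have e := (((h1 ((a - 1) * u)).mul hmul (h2 c)).mul hmul (h1 ((d - 1) * u)))
    have hu : ((p ^ k : ℕ) : ℤ) ∣ u * c - 1 := ⟨-v, by linear_combination huv⟩
    refine e.congr hP hQ ?_ ?_ ?_ ?_
    · have : (1 * 1 + (a - 1) * u * c) * 1 + (1 * 0 + (a - 1) * u * 1) * 0 - a =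
          (a - 1) * (u * c - 1) := by ring
      rw [this]; exact hu.mul_left _
    · have : (1 * 1 + (a - 1) * u * c) * ((d - 1) * u) + (1 * 0 + (a - 1) * u * 1) * 1 - b =
          u * (a * d - b * c - 1) + (u * c - 1) * (b + (a - 1) * (d - 1) * u) := by ring
      rw [this]; exact (hdet.mul_left _).add (hu.mul_right _)
    · have : (0 * 1 + 1 * c) * 1 + (0 * 0 + 1 * 1) * 0 - c = 0 := by ring
      rw [this]; exact dvd_zero _
    · have : (0 * 1 + 1 * c) * ((d - 1) * u) + (0 * 0 + 1 * 1) * 1 - d =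
          (d - 1) * (u * c - 1) := by ring
      rw [this]; exact hu.mul_left _
  intro a b c d hdet
  by_cases hc : (p : ℤ) ∣ c
  · have ha : ¬ (p : ℤ) ∣ c + a := by
      intro h
      have ha : (p : ℤ) ∣ a := (dvd_add_right hc).1 h
      have h3 : (p : ℤ) ∣ 1 := by
        have h4 := hpk.trans hdet
        have e1 : (1 : ℤ) = a * d - b * c - (a * d - b * c - 1) := by ring
        rw [e1]
        exact ((ha.mul_right d).sub (hc.mul_left b)).sub h4
      exact hpp.not_unit (isUnit_of_dvd_one h3)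
    have e1 := unit a b (c + a) (d + b) (by
      have : a * (d + b) - b * (c + a) - 1 = a * d - b * c - 1 := by ring
      rw [this]; exact hdet) ha
    have e2 := (h2 (-1)).mul hmul e1
    refine e2.congr hP hQ ?_ ?_ ?_ ?_
    · have : 1 * a + 0 * (c + a) - a = 0 := by ring
      rw [this]; exact dvd_zero _
    · have : 1 * b + 0 * (d + b) - b = 0 := by ring
      rw [this]; exact dvd_zero _
    · have : -1 * a + 1 * (c + a) - c = 0 := by ring
      rw [this]; exact dvd_zero _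
    · have : -1 * b + 1 * (d + b) - d = 0 := by ring
      rw [this]; exact dvd_zero _
  · exact unit a b c d hdet hc

theorem all_one (hone : ∀ v, ρ 1 v = v) (m : ℕ) : All ρ 1 m (0 : V) 0 := by
  intro a b c d _
  refine ⟨1, ?_, ?_, fun R _ => hone R⟩ <;> simp

theorem bas_one : Bas 1 (0 : V) 0 := by
  refine ⟨by simp, by simp, ?_, ?_⟩
  · intro R hR
    refine ⟨0, 0, ?_⟩
    rw [Nat.cast_one, one_smul] at hR
    rw [hR]; simp
  · intro a b _
    simp

theorem All.coprime (hmul : ∀ σ τ v, ρ (σ * τ) v = ρ σ (ρ τ v)) {n n' m : ℕ} {P Q P' Q' : V}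
    (hB : Bas n P Q) (hB' : Bas n' P' Q') (h : All ρ n (n' * m) P Q)
    (h' : All ρ n' (n * m) P' Q') : All ρ (n * n') m (P + P') (Q + Q') := by
  intro a b c d hdet
  push_cast at hdet
  obtain ⟨σ, h1, h2, h3⟩ := h a b c d ((Dvd.intro _ rfl).trans hdet)
  obtain ⟨σ', h1', h2', h3'⟩ := h' a b c d ((Dvd.intro_left _ rfl).trans hdet)
  have kn : ∀ R : V, (n : ℤ) • R = 0 → ρ σ' R = R := by
    intro R hR
    apply h3'
    push_cast
    rw [mul_comm, mul_smul, hR, smul_zero]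
  have kn' : ∀ R : V, (n' : ℤ) • R = 0 → ρ σ R = R := by
    intro R hR
    apply h3
    push_cast
    rw [mul_comm, mul_smul, hR, smul_zero]
  refine ⟨σ * σ', ?_, ?_, ?_⟩
  · rw [hmul, map_add, h1', kn P hB.hP, map_add, h1, map_add, map_zsmul, map_zsmul,
      kn' P' hB'.hP, kn' Q' hB'.hQ]
    module
  · rw [hmul, map_add, h2', kn Q hB.hQ, map_add, h2, map_add, map_zsmul, map_zsmul,
      kn' P' hB'.hP, kn' Q' hB'.hQ]
    module
  · intro R hR
    rw [hmul, h3' R (by push_cast; rw [mul_smul, hR, smul_zero]),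
      h3 R (by push_cast; rw [mul_smul, hR, smul_zero])]

end act

end Pool.Agent.Q19.SU.Gen
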