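import Pool.Agent.Q19.SU.Tau
import Pool.Agent.Y673.SL.Bs

/-!
# All levels at once, for almost all invariants of all heights
-/

set_option autoImplicit false

namespace Pool.Agent.Q19.SU

open WeierstrassCurve NumberField IsDedekindDomain Finset Pool.Agent.H691R3
open Pool.Agent.H901R3.MS Pool.Agent.W275.FM
open Pool.Agent.Y673.Loc Pool.Agent.Y673.SL
open Pool.Agent.TH876.Loc (Pr)
open Pool.Agent.Y733.LS (Sp sp jj dl Fs_sp Fs_log fv_Na fin_nat)
open Pool.Agent.W223.AK (ht)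
open Pool.Agent.Q19.JL

variable {K : Type} [Field K] [NumberField K]

omit [NumberField K] in
open scoped Classical in
theorem act_mul (A B : K) (σ τ : AlgebraicClosure K ≃ₐ[K] AlgebraicClosure K) (P : EP A B) :
    act A B (σ * τ) P = act A B σ (act A B τ P) := by
  unfold act
  rw [Affine.Point.map_map]
  rfl

omit [NumberField K] in
open scoped Classical in
theorem act_one (A B : K) (P : EP A B) :
    act A B (1 : AlgebraicClosure K ≃ₐ[K] AlgebraicClosure K) P = P := by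
  unfold act
  rcases P with _ | ⟨x, y, h⟩
  · rfl
  · rfl

open scoped Classical in
/-- the image contains all automorphisms of determinant one of the points killed by `n` -/
def HasSLn (A B : K) (n : ℕ) : Prop :=
  ∃ P Q : EP A B, Gen.Bas n P Q ∧ ∀ a b c d : ℤ, (n : ℤ) ∣ a * d - b * c - 1 →
    ∃ σ : AlgebraicClosure K ≃ₐ[K] AlgebraicClosure K,
      act A B σ P = a • P + c • Q ∧ act A B σ Q = b • P + d • Q

open scoped Classical in
theorem hasSLn_of {A B : K} (hD : 4 * A ^ 3 + 27 * B ^ 2 ≠ 0) {p : ℕ} (hp : p.Prime)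
    (h : HasSL A B p) : HasSLn A B p := by
  obtain ⟨P, Q, h1, h2, h3, h4, h5⟩ := h
  obtain ⟨h6, h7⟩ := basis hD hp h1 h2 h3 h4
  refine ⟨P, Q, ⟨?_, ?_, ?_, h7⟩, h5⟩
  · rw [natCast_zsmul]; exact h1
  · rw [natCast_zsmul]; exact h2
  · intro R hR
    rw [natCast_zsmul] at hR
    exact h6 R hR

open scoped Classical in
/-- no line is stable -/
theorem irr {j : K} (h0 : j ≠ 0) (h1 : j ≠ 1728) {η : ℝ} (hη : η ≤ 1 / 4)
    (hsp : (1 - η) * ht j ≤ sp j) (hht : CA (Module.finrank ℚ K) < 1 / 4 * ht j)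
    {A B : K} (hD : 4 * A ^ 3 + 27 * B ^ 2 ≠ 0) (hj : jv A B = j) {p : ℕ} (hp : p.Prime)
    {P : EP A B} (hP : (p : ℤ) • P = 0) (hP0 : P ≠ 0) :
    ∃ g : AlgebraicClosure K ≃ₐ[K] AlgebraicClosure K, act A B g P ∉ AddSubgroup.zmultiples P := by
  have hA0 : A ≠ 0 := by
    rintro rfl
    apply h0
    rw [← hj]
    unfold jv
    simp
  have hB0 : B ≠ 0 := by
    rintro rfl
    apply h1
    rw [← hj]
    unfold jv
    have hA3 : A ^ 3 ≠ 0 := pow_ne_zero 3 hA0
    rw [zero_pow two_ne_zero, mul_zero, add_zero, div_eq_iff (mul_ne_zero (by norm_num : (4 : K) ≠ 0) hA3)]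
    ring
  have e : jj A B = j := hj
  have hC5 : 0 ≤ C5 := by
    unfold C5
    have a1 : 0 ≤ Real.log 6912 := Real.log_nonneg (by norm_num)
    have a2 : 0 ≤ Real.log 250 := Real.log_nonneg (by norm_num)
    have a3 : 0 ≤ Real.log ((4 * 6912 * 46656 : ℕ) : ℝ) := Real.log_nonneg (by norm_num)
    positivity
  have hn : (0 : ℝ) ≤ Module.finrank ℚ K := Nat.cast_nonneg _
  have l2 : 0 ≤ Real.log 2 := Real.log_nonneg (by norm_num)
  have l8 : 0 ≤ Real.log (8 * Module.finrank ℚ K + 1) := Real.log_nonneg (by linarith)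
  have t1 : 0 ≤ Module.finrank ℚ K * C5 := mul_nonneg hn hC5
  have t2 : 0 ≤ Module.finrank ℚ K * (10 * Real.log 2) := mul_nonneg hn (by linarith)
  have t3 : 0 ≤ Module.finrank ℚ K * Real.log (8 * Module.finrank ℚ K + 1) := mul_nonneg hn l8
  unfold CA at hht
  have hpos : 0 < ht j := by linarith
  have hspq : 3 / 4 * ht j ≤ sp j := le_trans (by nlinarith) hsp
  have hspη : (1 - 1 / 4 : ℝ) * ht j ≤ sp j := by linarith
  by_contra hcon
  push Not at hcon
  obtain ⟨v, hv⟩ : ∃ v, v = eqv A B (AlgebraicClosure K) P := ⟨_, rfl⟩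
  have hvp : p • v = 0 := by
    rw [hv, ← map_nsmul, ← natCast_zsmul, hP, map_zero]
  have hv0 : v ≠ 0 := by
    rw [hv]
    intro h
    exact hP0 ((eqv A B (AlgebraicClosure K)).injective (by rw [h, map_zero]))
  have hst : ∀ τ : AlgebraicClosure K ≃ₐ[K] AlgebraicClosure K,
      mp A B (τ : AlgebraicClosure K →ₐ[K] AlgebraicClosure K) v ∈ AddSubgroup.zmultiples v := by
    intro τ
    obtain ⟨m, hm⟩ := AddSubgroup.mem_zmultiples_iff.1 (hcon τ)
    rw [hv, ← gal_eqv]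
    have h1 : Affine.Point.map (W' := CV A B) (R := K) (S := K)
        (τ : AlgebraicClosure K →ₐ[K] AlgebraicClosure K) P = m • P := hm.symm
    rw [h1, map_zsmul]
    exact AddSubgroup.zsmul_mem_zmultiples _ m
  rcases hp.eq_two_or_odd' with rfl | hodd
  · obtain ⟨x, hx⟩ := root_of hD hvp hv0 hst
    obtain ⟨t, ht0, htj⟩ := two_param hD hx
    rw [hj] at htj
    have := two_bound ht0 htj
    linarith
  · exact no_line_odd hD hp hodd hA0 hB0 (η := 1 / 4) (by norm_num) (by rw [e]; exact hspη)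
      (by rw [e]; linarith) hvp hv0 hst

open scoped Classical in
/-- divisibility of the torsion -/
theorem div_ep {A B : K} (hD : 4 * A ^ 3 + 27 * B ^ 2 ≠ 0) {p : ℕ} (hp : p.Prime) (k : ℕ)
    {P : EP A B} (hP : (p : ℤ) • P = 0) : ∃ Q : EP A B, ((p : ℤ) ^ k) • Q = P := by
  haveI : CharZero (AlgebraicClosure K) :=
    charZero_of_injective_algebraMap (algebraMap K (AlgebraicClosure K)).injective
  have hfin : ∀ n : ℕ, 1 ≤ n →
      {P : Pt (ca (AlgebraicClosure K) A) (ca (AlgebraicClosure K) B) | n • P = 0}.Finite ∧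
      n ^ 2 ≤ {P : Pt (ca (AlgebraicClosure K) A) (ca (AlgebraicClosure K) B) |
        n • P = 0}.ncard := fun n hn =>
    Mul.tor (AlgebraicClosure K) _ _ (Pool.Agent.Y673.FM.disc_ca hD) n hn
  have hup := Pool.Agent.Y673.FM.tor_upper (Pool.Agent.Y673.FM.disc_ca hD) hp (hfin p hp.one_le).1
  obtain ⟨Q, hQ⟩ := Pool.Agent.Y673.FM.div_grp hp.one_le hfin hup k
    (P' := eqv A B (AlgebraicClosure K) P) (by
      rw [← map_nsmul, ← natCast_zsmul, hP, map_zero])
  refine ⟨(eqv A B (AlgebraicClosure K)).symm Q, ?_⟩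
  apply (eqv A B (AlgebraicClosure K)).injective
  rw [map_zsmul, AddEquiv.apply_symm_apply, ← hQ]
  have : ((p : ℤ) ^ k) = ((p ^ k : ℕ) : ℤ) := by push_cast; rfl
  rw [this, natCast_zsmul]

open scoped Classical in
theorem hyp_all {j : K} (h0 : j ≠ 0) (h1 : j ≠ 1728) {η : ℝ} (hη : η ≤ 1 / 4)
    (hsp : (1 - η) * ht j ≤ sp j) (hht : CA (Module.finrank ℚ K) < 1 / 4 * ht j)
    {A B : K} (hD : 4 * A ^ 3 + 27 * B ^ 2 ≠ 0) (hj : jv A B = j) {p : ℕ} (hp : p.Prime) (k : ℕ) :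
    Gen.Hyp (fun σ : AlgebraicClosure K ≃ₐ[K] AlgebraicClosure K => act A B σ) p k := by
  refine ⟨fun σ τ v => act_mul A B σ τ v, fun v => act_one A B v, hp,
    fun P hP => div_ep hD hp k hP, ?_, fun P hP hP0 => irr h0 h1 hη hsp hht hD hj hp hP hP0⟩
  intro P Q hP hQ hP0 hPQ
  have hP' : p • P = 0 := by rw [← natCast_zsmul]; exact hP
  have hQ' : p • Q = 0 := by rw [← natCast_zsmul]; exact hQ
  obtain ⟨h6, h7⟩ := basis hD hp hP' hQ' hP0 hPQ
  refine ⟨hP, hQ, ?_, h7⟩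
  intro R hR
  rw [natCast_zsmul] at hR
  exact h6 R hR

open scoped Classical in
/-- **all levels prime to a simple pole** -/
theorem sl_level {j : K} (h0 : j ≠ 0) (h1 : j ≠ 1728) {η : ℝ} (hη : η ≤ 1 / 4)
    (hsp : (1 - η) * ht j ≤ sp j) (hht : CA (Module.finrank ℚ K) < 1 / 4 * ht j)
    {A B : K} (hD : 4 * A ^ 3 + 27 * B ^ 2 ≠ 0) (hj : jv A B = j) {n : ℕ} (hn : 1 ≤ n)
    (hv : ∃ v, Sp j v ∧ (adv K v).v (n : K) = 0) : HasSLn A B n := by
  obtain ⟨v, hv, hnv⟩ := hv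
  obtain ⟨k1, k2, k3⟩ := adv_sp h0 hv
  obtain ⟨P, Q, hB, hA⟩ := Gen.all_levels
    (ρ := fun σ : AlgebraicClosure K ≃ₐ[K] AlgebraicClosure K => act A B σ) hn
    (fun σ τ v => act_mul A B σ τ v) (fun v => act_one A B v)
    (fun p k hp => hyp_all h0 h1 hη hsp hht hD hj hp k)
    (fun p hp hpn => tau_of hD hn hp hpn v k1 k2 hnv (by rw [hj]; exact k3))
  refine ⟨P, Q, hB, fun a b c d hdet => ?_⟩
  obtain ⟨σ, h1, h2, -⟩ := hA a b c d hdet
  exact ⟨σ, h1, h2⟩

open Classical in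
/-- a simple pole which does not divide `n` -/
theorem exists_spn {j : K} {n : ℕ} (hn : 1 ≤ n)
    (h : Module.finrank ℚ K * Real.log n < sp j) : ∃ v, Sp j v ∧ (adv K v).v (n : K) = 0 := by
  by_contra hc
  push Not at hc
  have hpK : (n : K) ≠ 0 := Nat.cast_ne_zero.2 (by omega)
  have hle : sp j ≤ ∑ᶠ v : Pr K, -Real.log (fv v (n : K)) := by
    unfold Pool.Agent.Y733.LS.sp
    have s2 : (Function.support fun v : Pr K => -Real.log (fv v (n : K))).Finite := by
      have := Fs_log (K := K) hpK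
      refine this.subset fun v hv => ?_
      rw [Function.mem_support] at hv ⊢
      intro h0
      have h0' : Real.log (fv v (n : K)) = 0 := h0
      exact hv (by rw [h0', neg_zero])
    refine finsum_le_finsum' (Fs_sp j) s2 fun v => ?_
    show (if Sp j v then Real.log (Nv v) else 0) ≤ -Real.log (fv v (n : K))
    have h0 : Real.log (fv v (n : K)) ≤ 0 :=
      Real.log_nonpos (AbsoluteValue.nonneg _ _) ((fv_Na v).nat n)
    split_ifs with hS
    · have hne := hc v hS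
      have hN := Pool.Agent.W223.AK.Nv_one_lt v
      have hlN : 0 < Real.log (Nv v) := Real.log_pos hN
      have e := Pool.Agent.Y673.Cnt.fv_adv v hpK
      have h1 : Real.log (fv v (n : K)) = -((adv K v).v (n : K) : ℝ) * Real.log (Nv v) := by
        rw [e, Real.log_zpow]
        push_cast
        ring
      rw [h1] at h0 ⊢
      have h2 : 0 ≤ (adv K v).v (n : K) := by
        by_contra hneg
        push Not at hneg
        have : ((adv K v).v (n : K) : ℝ) < 0 := by exact_mod_cast hneg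
        nlinarith
      have h3 : 1 ≤ (adv K v).v (n : K) := by omega
      have h4 : (1 : ℝ) ≤ ((adv K v).v (n : K) : ℝ) := by exact_mod_cast h3
      nlinarith
    · linarith
  rw [finsum_neg_distrib, fin_nat (by omega), neg_neg] at hle
  linarith

/-- the levels -/
def Lev (t : ℝ) (j : K) (n : ℕ) : Prop :=
  n.Prime ∨ Module.finrank ℚ K * Real.log n ≤ (1 - t) * ht j ∨ ∃ v, Sp j v ∧ (adv K v).v (n : K) = 0

/-- for all curves of invariant `j` and all levels of the definition -/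
def AllSLn (t : ℝ) (j : K) : Prop := ∀ A B : K, 4 * A ^ 3 + 27 * B ^ 2 ≠ 0 → jv A B = j →
  ∀ n : ℕ, 1 ≤ n → Lev t j n → HasSLn A B n

theorem ht_pos_of {j : K} (hht : CA (Module.finrank ℚ K) < 1 / 4 * ht j) : 0 < ht j := by
  have hC5 : 0 ≤ C5 := by
    unfold C5
    have a1 : 0 ≤ Real.log 6912 := Real.log_nonneg (by norm_num)
    have a2 : 0 ≤ Real.log 250 := Real.log_nonneg (by norm_num)
    have a3 : 0 ≤ Real.log ((4 * 6912 * 46656 : ℕ) : ℝ) := Real.log_nonneg (by norm_num)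
    positivity
  have hn : (0 : ℝ) ≤ Module.finrank ℚ K := Nat.cast_nonneg _
  have l2 : 0 ≤ Real.log 2 := Real.log_nonneg (by norm_num)
  have l8 : 0 ≤ Real.log (8 * Module.finrank ℚ K + 1) := Real.log_nonneg (by linarith)
  have t1 : 0 ≤ Module.finrank ℚ K * C5 := mul_nonneg hn hC5
  have t2 : 0 ≤ Module.finrank ℚ K * (10 * Real.log 2) := mul_nonneg hn (by linarith)
  have t3 : 0 ≤ Module.finrank ℚ K * Real.log (8 * Module.finrank ℚ K + 1) := mul_nonneg hn l8
  unfold CA at hht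
  linarith

theorem all_n {j : K} (h0 : j ≠ 0) (h1 : j ≠ 1728) {η t : ℝ} (hη : η ≤ 1 / 4) (hηt : η < t)
    (hsp : (1 - η) * ht j ≤ sp j) (hht : CA (Module.finrank ℚ K) < 1 / 4 * ht j) :
    AllSLn t j := by
  intro A B hD hj n hn hlev
  rcases hlev with hp | hlog | hv
  · exact hasSLn_of hD hp (sl_all h0 h1 hη hsp hht A B hD hj n hp)
  · have hpos := ht_pos_of hht
    exact sl_level h0 h1 hη hsp hht hD hj hn (exists_spn hn (by nlinarith))
  · exact sl_level h0 h1 hη hsp hht hD hj hn hv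

/-- **all levels at once, for almost all invariants of all heights** -/
theorem n_prop (K : Type) [Field K] [NumberField K] (t C : ℝ) (ht0 : 0 < t) :
    ∃ ν X₀ : ℝ, 0 < ν ∧ 1 ≤ X₀ ∧ ∀ X : ℝ, X₀ ≤ X → ∀ S : Set K, S ⊆ Iv K X →
      (∀ j ∈ S, ¬ (AllSLn t j ∧ (1 - t) * ht j ≤ sp j ∧ C ≤ ht j)) →
      ((S.ncard : ℕ) : ℝ) ≤ X ^ (-ν) * (Iv K X).ncard := by
  obtain ⟨ν, X₀, hν, hX₀, h⟩ := ls_prop K (min (1 / 4) (t / 2))
    (max (4 * CA (Module.finrank ℚ K) + 1) C) (lt_min (by norm_num) (by linarith))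
    (lt_of_le_of_lt (min_le_left _ _) (by norm_num))
  refine ⟨ν, X₀, hν, hX₀, fun X hX S hS hb => h X hX S hS fun j hj hgood => hb j hj ?_⟩
  obtain ⟨-, -, hsp, hht⟩ := hgood
  have h1 := (le_max_left _ _).trans hht
  have h2 : min (1 / 4) (t / 2) < t := lt_of_le_of_lt (min_le_right _ _) (by linarith)
  have h3 : CA (Module.finrank ℚ K) < 1 / 4 * ht j := by linarith
  have hpos := ht_pos_of h3
  refine ⟨all_n (hS hj).1 (hS hj).2.1 (η := min (1 / 4) (t / 2)) (min_le_left _ _) h2 hsp h3,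
    ?_, (le_max_right _ _).trans hht⟩
  nlinarith

end Pool.Agent.Q19.SU
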