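import Pool.Agent.Q19.SU.AllN
import Pool.Agent.Q19.JL.Fin2

/-!
# Simple poles and heights in Mathlib's terms
-/

set_option autoImplicit false

namespace Pool.Agent.Q19.SU

open NumberField IsDedekindDomain Finset Pool.Agent.H691R3
open Pool.Agent.Y673.Loc
open Pool.Agent.TH876.Loc (Pr)
open Pool.Agent.Y733.LS (Sp sp fv_Na)
open Pool.Agent.W223.AK (ht)
open Pool.Agent.Q19.JL

variable {K : Type} [Field K] [NumberField K]

/-- simple poles in terms of the valuation -/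
theorem sp_iff {j : K} (h0 : j ≠ 0) (v : HeightOneSpectrum (𝓞 K)) :
    (v.valuation K 6 = 1 ∧ WithZero.log (v.valuation K j) = 1) ↔ Sp j v := by
  have h6 : (v.valuation K 6 = 1) ↔ (fv v 2 = 1 ∧ fv v 3 = 1) := by
    rw [← Pool.Agent.Y733.FF.fv_one_iff]
    have e : (6 : K) = 2 * 3 := by norm_num
    have a2 : fv v 2 ≤ 1 := by
      have := (fv_Na v).nat 2
      exact_mod_cast this
    have a3 : fv v 3 ≤ 1 := by
      have := (fv_Na v).nat 3
      exact_mod_cast this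
    have p2 : 0 < fv v 2 := (fv v).pos two_ne_zero
    have p3 : 0 < fv v 3 := (fv v).pos three_ne_zero
    rw [e, map_mul]
    constructor
    · intro h
      constructor
      · nlinarith
      · nlinarith
    · rintro ⟨h1, h2⟩
      rw [h1, h2, one_mul]
  constructor
  · rintro ⟨h1, h2⟩
    obtain ⟨k1, k2⟩ := h6.1 h1
    refine ⟨k1, k2, ?_⟩
    rw [Pool.Agent.Y673.Cnt.fv_adv v h0]
    have : (adv K v).v j = -1 := by
      show -WithZero.log (v.valuation K j) = -1
      rw [h2]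
    rw [this, neg_neg, zpow_one]
  · intro h
    obtain ⟨-, -, k3⟩ := adv_sp h0 h
    refine ⟨h6.2 ⟨h.1, h.2.1⟩, ?_⟩
    have : -WithZero.log (v.valuation K j) = -1 := k3
    omega

/-- prime to `n` -/
theorem val_iff (v : HeightOneSpectrum (𝓞 K)) {n : ℕ} (hn : n ≠ 0) :
    v.valuation K (n : K) = 1 ↔ (adv K v).v (n : K) = 0 := by
  rw [← Pool.Agent.Y733.FF.fv_one_iff]
  exact Pool.Agent.Y673.Cnt.fv_eq_one_iff v (Nat.cast_ne_zero.2 hn)

open Classical in
theorem sp_sum {j : K} (h0 : j ≠ 0) :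
    ∑ᶠ v ∈ {v : HeightOneSpectrum (𝓞 K) | v.valuation K 6 = 1 ∧
      WithZero.log (v.valuation K j) = 1}, Real.log (Ideal.absNorm v.asIdeal : ℝ) = sp j := by
  unfold Pool.Agent.Y733.LS.sp
  refine finsum_congr fun v => ?_
  by_cases h : Sp j v
  · rw [if_pos h, finsum_eq_if, if_pos]
    · rfl
    · exact (sp_iff h0 v).2 h
  · rw [if_neg h, finsum_eq_if, if_neg]
    exact fun h' => h ((sp_iff h0 v).1 h')

open scoped Classical in
/-- the definition with natural multiples -/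
theorem hasSLn_nat {A B : K} {n : ℕ} (h : HasSLn A B n) :
    ∃ P Q : EP A B, (n • P = 0 ∧ n • Q = 0 ∧
      (∀ R : EP A B, n • R = 0 → ∃ a b : ℤ, R = a • P + b • Q) ∧
      ∀ a b : ℤ, a • P + b • Q = 0 → (n : ℤ) ∣ a ∧ (n : ℤ) ∣ b) ∧
      ∀ a b c d : ℤ, (n : ℤ) ∣ a * d - b * c - 1 →
        ∃ σ : AlgebraicClosure K ≃ₐ[K] AlgebraicClosure K,
          act A B σ P = a • P + c • Q ∧ act A B σ Q = b • P + d • Q := by
  obtain ⟨P, Q, hB, h5⟩ := h
  refine ⟨P, Q, ⟨?_, ?_, ?_, hB.ind⟩, h5⟩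
  · rw [← natCast_zsmul]; exact hB.hP
  · rw [← natCast_zsmul]; exact hB.hQ
  · intro R hR
    rw [← natCast_zsmul] at hR
    exact hB.span R hR

theorem logH (j : K) : Height.logHeight₁ j = ht j := by
  rw [Pool.Agent.Y733.LS.logHeight_eq, Pool.Agent.Y733.LS.ht_eq_Sa]

/-- levels bounded by the height -/
theorem lev_of {t : ℝ} {j : K} {n : ℕ} (hn : 1 ≤ n)
    (h : ((n : ℝ) ^ Module.finrank ℚ K) ≤ Height.mulHeight₁ j ^ (1 - t)) :
    Module.finrank ℚ K * Real.log n ≤ (1 - t) * ht j := by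
  have hn' : (0 : ℝ) < n := by exact_mod_cast hn
  have hH : 0 < Height.mulHeight₁ j := Height.mulHeight₁_pos j
  have h1 := Real.log_le_log (by positivity) h
  rw [Real.log_pow, Real.log_rpow hH] at h1
  have h2 : Real.log (Height.mulHeight₁ j) = ht j := by
    rw [← logH]
    rfl
  rw [h2] at h1
  exact h1

end Pool.Agent.Q19.SU
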