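import Pool.Agent.Q19.SU.Gen

/-!
# From one transvection (up to sign) to all matrices of determinant one
-/

set_option autoImplicit false

namespace Pool.Agent.Q19.SU.Gen

variable {V : Type*} [AddCommGroup V] {G : Type*} [Group G] {ρ : G → V →+ V}

/-- the hypotheses on the elements of order `p` -/
structure Hyp (ρ : G → V →+ V) (p k : ℕ) : Prop where
  hmul : ∀ σ τ v, ρ (σ * τ) v = ρ σ (ρ τ v)
  hone : ∀ v, ρ 1 v = v
  hp : p.Prime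
  hdiv : ∀ P : V, (p : ℤ) • P = 0 → ∃ Q : V, ((p : ℤ) ^ k) • Q = P
  hbas : ∀ P Q : V, (p : ℤ) • P = 0 → (p : ℤ) • Q = 0 → P ≠ 0 → Q ∉ AddSubgroup.zmultiples P →
    Bas p P Q
  hirr : ∀ P : V, (p : ℤ) • P = 0 → P ≠ 0 → ∃ g, ρ g P ∉ AddSubgroup.zmultiples P

theorem Hyp.inv {p k : ℕ} (H : Hyp ρ p k) (g : G) (v : V) : ρ g (ρ g⁻¹ v) = v := by
  rw [← H.hmul, mul_inv_cancel, H.hone]

theorem Hyp.inv' {p k : ℕ} (H : Hyp ρ p k) (g : G) (v : V) : ρ g⁻¹ (ρ g v) = v := by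
  rw [← H.hmul, inv_mul_cancel, H.hone]

/-- two transvections (up to sign) with respect to the two elements of a basis -/
theorem core {p k m : ℕ} (H : Hyp ρ p k) {σ : G} {χ : ℤ} (hχ : χ * χ = 1)
    (hm : ∀ R : V, (m : ℤ) • R = 0 → ρ σ R = R)
    (hu : ∀ R : V, ((p : ℤ) ^ (k + 1)) • R = 0 → χ • ρ σ (χ • ρ σ R - R) = χ • ρ σ R - R)
    (hnt : ∃ P : V, (p : ℤ) • P = 0 ∧ χ • ρ σ P ≠ P) :
    ∃ P R : V, Bas (p ^ (k + 1)) P R ∧ ∃ β β' : ℤ, ¬ (p : ℤ) ∣ β ∧ ¬ (p : ℤ) ∣ β' ∧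
      Rl ρ m P R χ (χ * β) 0 χ ∧ Rl ρ m P R χ 0 (χ * β') χ := by
  obtain ⟨Q₁, hQ₁, hne⟩ := hnt
  obtain ⟨Q, hQ⟩ := H.hdiv Q₁ hQ₁
  have hQk : ((p : ℤ) ^ (k + 1)) • Q = 0 := by
    rw [pow_succ', mul_smul, hQ, hQ₁]
  obtain ⟨P, hPdef⟩ : ∃ P, P = χ • ρ σ Q - Q := ⟨_, rfl⟩
  have hfP : χ • ρ σ P = P := by rw [hPdef]; exact hu Q hQk
  have hσP : ρ σ P = χ • P := by
    have : χ • (χ • ρ σ P) = χ • P := by rw [hfP]
    rwa [smul_smul, hχ, one_smul] at this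
  have hσQ : ρ σ Q = χ • Q + χ • P := by
    have : χ • (χ • ρ σ Q) = χ • (P + Q) := by rw [hPdef]; congr 1; abel
    rw [smul_smul, hχ, one_smul] at this
    rw [this]; module
  have hPk : ((p : ℤ) ^ (k + 1)) • P = 0 := by
    have e1 : ((p : ℤ) ^ (k + 1)) • P = χ • ρ σ (((p : ℤ) ^ (k + 1)) • Q) -
        ((p : ℤ) ^ (k + 1)) • Q := by
      rw [hPdef, map_zsmul]; module
    rw [e1, hQk, map_zero, smul_zero, sub_zero]
  obtain ⟨P₁, hP₁⟩ : ∃ P₁, P₁ = ((p : ℤ) ^ k) • P := ⟨_, rfl⟩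
  have hP₁e : P₁ = χ • ρ σ Q₁ - Q₁ := by
    rw [hP₁, hPdef, ← hQ, map_zsmul]; module
  have hP₁0 : P₁ ≠ 0 := by
    rw [hP₁e]
    exact sub_ne_zero.2 hne
  have hP₁p : (p : ℤ) • P₁ = 0 := by
    rw [hP₁, smul_smul, ← pow_succ']
    exact hPk
  have hfP₁ : χ • ρ σ P₁ = P₁ := by
    rw [hP₁, map_zsmul, smul_comm, hfP]
  have hQ₁P₁ : Q₁ ∉ AddSubgroup.zmultiples P₁ := by
    intro h
    obtain ⟨t, ht⟩ := AddSubgroup.mem_zmultiples_iff.1 h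
    apply hne
    rw [← ht, map_zsmul, smul_comm, hfP₁]
  have hB1 : Bas (p ^ (k + 1)) P Q := by
    refine Bas.lift k hPk hQk ?_
    rw [← hP₁, hQ]
    exact H.hbas P₁ Q₁ hP₁p hQ₁ hP₁0 hQ₁P₁
  obtain ⟨g, hg⟩ := H.hirr P₁ hP₁p hP₁0
  have hgP₁p : (p : ℤ) • ρ g P₁ = 0 := by rw [← map_zsmul, hP₁p, map_zero]
  have hgk : ((p : ℤ) ^ (k + 1)) • ρ g P = 0 := by rw [← map_zsmul, hPk, map_zero]
  have hgP1 : ((p : ℤ) ^ k) • ρ g P = ρ g P₁ := by rw [hP₁, map_zsmul]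
  have hB2 : Bas (p ^ (k + 1)) P (ρ g P) := by
    refine Bas.lift k hPk hgk ?_
    rw [← hP₁, hgP1]
    exact H.hbas P₁ _ hP₁p hgP₁p hP₁0 hg
  have hcast : ((p ^ (k + 1) : ℕ) : ℤ) = (p : ℤ) ^ (k + 1) := by push_cast; rfl
  -- the first coefficient
  obtain ⟨α, β, hαβ⟩ := hB1.span (ρ g P) (by rw [hcast]; exact hgk)
  -- the second coefficient
  obtain ⟨α', β', hαβ'⟩ := hB1.span (ρ g⁻¹ P) (by
    rw [hcast, ← map_zsmul, hPk, map_zero])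
  refine ⟨P, ρ g P, hB2, β, β', ?_, ?_, ⟨σ, ?_, ?_, hm⟩, ⟨g * σ * g⁻¹, ?_, ?_, ?_⟩⟩
  · rintro ⟨t, ht⟩
    apply hg
    have : ρ g P₁ = α • P₁ := by
      rw [← hgP1, hαβ, ht, hP₁]
      have e1 : ((p : ℤ) ^ k) • (α • P + ((p : ℤ) * t) • Q) =
          α • (((p : ℤ) ^ k) • P) + t • (((p : ℤ) ^ (k + 1)) • Q) := by
        rw [pow_succ]; module
      rw [e1, hQk, smul_zero, add_zero]
    rw [this]
    exact AddSubgroup.zsmul_mem_zmultiples P₁ α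
  · rintro ⟨t, ht⟩
    -- `g⁻¹ P₁` is a multiple of `P₁`, so `g P₁` is
    have h1 : ρ g⁻¹ P₁ = α' • P₁ := by
      rw [hP₁, map_zsmul, hαβ', ht]
      have e1 : ((p : ℤ) ^ k) • (α' • P + ((p : ℤ) * t) • Q) =
          α' • (((p : ℤ) ^ k) • P) + t • (((p : ℤ) ^ (k + 1)) • Q) := by
        rw [pow_succ]; module
      rw [e1, hQk, smul_zero, add_zero]
    have h2 : P₁ = α' • ρ g P₁ := by
      rw [← map_zsmul, ← h1, H.inv]
    have hα' : ¬ (p : ℤ) ∣ α' := by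
      rintro ⟨r, hr⟩
      apply hP₁0
      rw [h2, hr, mul_comm, mul_smul, hgP₁p, smul_zero]
    have hcop : IsCoprime α' (p : ℤ) :=
      ((Nat.prime_iff_prime_int.1 H.hp).coprime_iff_not_dvd.2 hα').symm
    obtain ⟨u, v, huv⟩ := hcop
    apply hg
    have h3 : ρ g P₁ = u • P₁ := by
      have e1 : ρ g P₁ = (u * α' + v * p) • ρ g P₁ := by rw [huv, one_smul]
      have e2 : (u * α' + v * p) • ρ g P₁ = u • (α' • ρ g P₁) + v • ((p : ℤ) • ρ g P₁) := by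
        module
      rw [e1, e2, ← h2, hgP₁p, smul_zero, add_zero]
    rw [h3]
    exact AddSubgroup.zsmul_mem_zmultiples P₁ u
  · rw [hσP, zero_smul, add_zero]
  · rw [hαβ, map_add, map_zsmul, map_zsmul, hσP, hσQ]
    module
  · rw [H.hmul, H.hmul, hαβ', map_add, map_zsmul, map_zsmul, hσP, hσQ]
    have h1 : ρ g (α' • χ • P + β' • (χ • Q + χ • P)) =
        χ • ρ g (α' • P + β' • Q) + (χ * β') • ρ g P := by
      rw [← map_zsmul, ← map_zsmul, ← map_add]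
      congr 1
      module
    rw [h1, ← hαβ', H.inv]
  · rw [H.hmul, H.hmul, H.inv', hσP, map_zsmul, zero_smul, zero_add]
  · intro R hR
    have h1 : (m : ℤ) • ρ g⁻¹ R = 0 := by rw [← map_zsmul, hR, map_zero]
    rw [H.hmul, H.hmul, hm _ h1, H.inv]

/-- powers of an upper elementary matrix -/
theorem Rl.powU {m : ℕ} (hmul : ∀ σ τ v, ρ (σ * τ) v = ρ σ (ρ τ v)) (hone : ∀ v, ρ 1 v = v)
    {P Q : V} {b : ℤ} (h : Rl ρ m P Q 1 b 0 1) (j : ℕ) : Rl ρ m P Q 1 (j * b) 0 1 := by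
  induction j with
  | zero =>
    refine ⟨1, ?_, ?_, fun R _ => hone R⟩
    · rw [hone]; simp
    · rw [hone]; simp
  | succ j ih =>
    have := ih.mul hmul h
    have e1 : (1 : ℤ) * 1 + j * b * 0 = 1 := by ring
    have e2 : (1 : ℤ) * b + j * b * 1 = ((j + 1 : ℕ) : ℤ) * b := by push_cast; ring
    have e3 : (0 : ℤ) * 1 + 1 * 0 = 0 := by ring
    have e4 : (0 : ℤ) * b + 1 * 1 = 1 := by ring
    rwa [e1, e2, e3, e4] at this

/-- powers of a lower elementary matrix -/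
theorem Rl.powL {m : ℕ} (hmul : ∀ σ τ v, ρ (σ * τ) v = ρ σ (ρ τ v)) (hone : ∀ v, ρ 1 v = v)
    {P Q : V} {c : ℤ} (h : Rl ρ m P Q 1 0 c 1) (j : ℕ) : Rl ρ m P Q 1 0 (j * c) 1 := by
  induction j with
  | zero =>
    refine ⟨1, ?_, ?_, fun R _ => hone R⟩
    · rw [hone]; simp
    · rw [hone]; simp
  | succ j ih =>
    have := ih.mul hmul h
    have e1 : (1 : ℤ) * 1 + 0 * c = 1 := by ring
    have e2 : (1 : ℤ) * 0 + 0 * 1 = 0 := by ring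
    have e3 : (j : ℤ) * c * 1 + 1 * c = ((j + 1 : ℕ) : ℤ) * c := by push_cast; ring
    have e4 : (j : ℤ) * c * 0 + 1 * 1 = 1 := by ring
    rwa [e1, e2, e3, e4] at this

/-- every residue is a multiple of a unit -/
theorem exists_mul {p : ℕ} (hp : p.Prime) (k : ℕ) {β : ℤ} (hβ : ¬ (p : ℤ) ∣ β) (x : ℤ) :
    ∃ j : ℕ, ((p ^ k : ℕ) : ℤ) ∣ j * β - x := by
  have hcop : IsCoprime β ((p ^ k : ℕ) : ℤ) := by
    push_cast
    exact (((Nat.prime_iff_prime_int.1 hp).coprime_iff_not_dvd.2 hβ).symm).pow_right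
  obtain ⟨u, v, huv⟩ := hcop
  have hpos : (0 : ℤ) < ((p ^ k : ℕ) : ℤ) := by exact_mod_cast pow_pos hp.pos k
  refine ⟨((x * u) % ((p ^ k : ℕ) : ℤ)).toNat, ?_⟩
  rw [Int.toNat_of_nonneg (Int.emod_nonneg _ hpos.ne')]
  have h1 : (x * u) % ((p ^ k : ℕ) : ℤ) = x * u - ((p ^ k : ℕ) : ℤ) * (x * u / ((p ^ k : ℕ) : ℤ)) := by
    have := Int.emod_add_mul_ediv (x * u) ((p ^ k : ℕ) : ℤ)
    linarith
  rw [h1]
  refine ⟨-(x * v) - (x * u / ((p ^ k : ℕ) : ℤ)) * β, ?_⟩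
  linear_combination x * huv

/-- **one transvection suffices** -/
theorem all_prime {p k m : ℕ} (H : Hyp ρ p k) {σ : G}
    (hm : ∀ R : V, (m : ℤ) • R = 0 → ρ σ R = R)
    (hu : ∀ R : V, ((p : ℤ) ^ (k + 1)) • R = 0 → ρ σ (ρ σ R - R) = ρ σ R - R)
    (hnt : ∃ P : V, (p : ℤ) • P = 0 ∧ ρ σ P ≠ P) :
    ∃ P R : V, Bas (p ^ (k + 1)) P R ∧ All ρ (p ^ (k + 1)) m P R := by
  obtain ⟨P, R, hB, β, β', hβ, hβ', h1, h2⟩ := core (χ := 1) H (by norm_num) hm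
    (by simpa only [one_smul] using hu) (by simpa only [one_smul] using hnt)
  rw [one_mul] at h1 h2
  refine ⟨P, R, hB, all_of H.hmul H.hp (by omega) hB.hP hB.hQ ?_ ?_⟩
  · intro x
    obtain ⟨j, hj⟩ := exists_mul H.hp (k + 1) hβ x
    exact (h1.powU H.hmul H.hone j).congr hB.hP hB.hQ (by simp) hj (by simp) (by simp)
  · intro x
    obtain ⟨j, hj⟩ := exists_mul H.hp (k + 1) hβ' x
    exact (h2.powL H.hmul H.hone j).congr hB.hP hB.hQ (by simp) (by simp) hj (by simp)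

/-- the inverse of a realised matrix with determinant `1` -/
theorem Rl.negpow {m : ℕ} (hmul : ∀ σ τ v, ρ (σ * τ) v = ρ σ (ρ τ v))
    {P Q : V} {b : ℤ} (h : Rl ρ m P Q (-1) (-b) 0 (-1)) (j : ℕ) :
    Rl ρ m P Q (-1) (-((2 * j + 1 : ℕ) * b)) 0 (-1) := by
  induction j with
  | zero => simpa using h
  | succ j ih =>
    have := (ih.mul hmul h).mul hmul h
    refine Rl.congr (n := 0) (by simp) (by simp) this ?_ ?_ ?_ ?_
    · push_cast; ring_nf; exact dvd_zero _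
    · push_cast; ring_nf; exact dvd_zero _
    · push_cast; ring_nf; exact dvd_zero _
    · push_cast; ring_nf; exact dvd_zero _

theorem Rl.negpow' {m : ℕ} (hmul : ∀ σ τ v, ρ (σ * τ) v = ρ σ (ρ τ v))
    {P Q : V} {c : ℤ} (h : Rl ρ m P Q (-1) 0 (-c) (-1)) (j : ℕ) :
    Rl ρ m P Q (-1) 0 (-((2 * j + 1 : ℕ) * c)) (-1) := by
  induction j with
  | zero => simpa using h
  | succ j ih =>
    have := (ih.mul hmul h).mul hmul h
    refine Rl.congr (n := 0) (by simp) (by simp) this ?_ ?_ ?_ ?_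
    · push_cast; ring_nf; exact dvd_zero _
    · push_cast; ring_nf; exact dvd_zero _
    · push_cast; ring_nf; exact dvd_zero _
    · push_cast; ring_nf; exact dvd_zero _

/-- every odd residue modulo a power of two is an odd multiple of an odd number -/
theorem exists_odd (k : ℕ) {β : ℤ} (hβ : ¬ (2 : ℤ) ∣ β) {x : ℤ} (hx : ¬ (2 : ℤ) ∣ x) :
    ∃ j : ℕ, ((2 ^ (k + 1) : ℕ) : ℤ) ∣ ((2 * j + 1 : ℕ) : ℤ) * β - x := by
  obtain ⟨j, hj⟩ := exists_mul Nat.prime_two (k + 1) (β := β) (by exact_mod_cast hβ) x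
  have h2 : (2 : ℤ) ∣ ((2 ^ (k + 1) : ℕ) : ℤ) := by
    push_cast
    exact dvd_pow_self _ (by omega)
  have hodd : Odd j := by
    by_contra h
    rw [Nat.not_odd_iff_even] at h
    obtain ⟨t, ht⟩ := h
    apply hx
    have h3 := h2.trans hj
    have e1 : x = (j : ℤ) * β - ((j : ℤ) * β - x) := by ring
    rw [e1]
    refine Int.dvd_sub ?_ h3
    rw [ht]
    push_cast
    exact ⟨t * β, by ring⟩
  obtain ⟨t, ht⟩ := hodd
  exact ⟨t, by rw [← ht]; exact hj⟩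

/-- **one transvection up to sign suffices**, the prime two -/
theorem all_two {k m : ℕ} (H : Hyp ρ 2 k) {σ : G}
    (hm : ∀ R : V, (m : ℤ) • R = 0 → ρ σ R = R)
    (hu : ∀ R : V, ((2 : ℤ) ^ (k + 1)) • R = 0 →
      (-1 : ℤ) • ρ σ ((-1 : ℤ) • ρ σ R - R) = (-1 : ℤ) • ρ σ R - R)
    (hnt : ∃ P : V, (2 : ℤ) • P = 0 ∧ (-1 : ℤ) • ρ σ P ≠ P) :
    ∃ P R : V, Bas (2 ^ (k + 1)) P R ∧ All ρ (2 ^ (k + 1)) m P R := by
  obtain ⟨P, R, hB, β, β', hβ, hβ', h1, h2⟩ := core (χ := -1) (p := 2) H (by norm_num) hm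
    (by exact_mod_cast hu) (by exact_mod_cast hnt)
  rw [neg_one_mul] at h1 h2
  have h2d : (2 : ℤ) ∣ ((2 ^ (k + 1) : ℕ) : ℤ) := by
    push_cast
    exact dvd_pow_self _ (by omega)
  have U : ∀ x : ℤ, ¬ (2 : ℤ) ∣ x → Rl ρ m P R (-1) (-x) 0 (-1) := by
    intro x hx
    obtain ⟨j, hj⟩ := exists_odd k (by exact_mod_cast hβ) hx
    refine (h1.negpow H.hmul j).congr hB.hP hB.hQ (by simp) ?_ (by simp) (by simp)
    have e1 : -(((2 * j + 1 : ℕ) : ℤ) * β) - -x = -(((2 * j + 1 : ℕ) : ℤ) * β - x) := by ring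
    rw [e1]
    exact (dvd_neg).2 hj
  have Lo : ∀ x : ℤ, ¬ (2 : ℤ) ∣ x → Rl ρ m P R (-1) 0 (-x) (-1) := by
    intro x hx
    obtain ⟨j, hj⟩ := exists_odd k (by exact_mod_cast hβ') hx
    refine (h2.negpow' H.hmul j).congr hB.hP hB.hQ (by simp) (by simp) ?_ (by simp)
    have e1 : -(((2 * j + 1 : ℕ) : ℤ) * β') - -x = -(((2 * j + 1 : ℕ) : ℤ) * β' - x) := by ring
    rw [e1]
    exact (dvd_neg).2 hj
  -- minus one
  have n1 : Rl ρ m P R (-1) 0 0 (-1) := by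
    have w1 := ((U 1 (by norm_num)).mul H.hmul (Lo (-1) (by norm_num))).mul H.hmul
      (U 1 (by norm_num))
    have w2 := w1.mul H.hmul w1
    refine Rl.congr (n := 0) (by simp) (by simp) w2 ?_ ?_ ?_ ?_ <;> norm_num
  have U' : ∀ x : ℤ, ¬ (2 : ℤ) ∣ x → Rl ρ m P R 1 x 0 1 := by
    intro x hx
    have := n1.mul H.hmul (U x hx)
    refine Rl.congr (n := 0) (by simp) (by simp) this ?_ ?_ ?_ ?_ <;> (ring_nf; exact dvd_zero _)
  have L' : ∀ x : ℤ, ¬ (2 : ℤ) ∣ x → Rl ρ m P R 1 0 x 1 := by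
    intro x hx
    have := n1.mul H.hmul (Lo x hx)
    refine Rl.congr (n := 0) (by simp) (by simp) this ?_ ?_ ?_ ?_ <;> (ring_nf; exact dvd_zero _)
  refine ⟨P, R, hB, all_of H.hmul H.hp (by omega) hB.hP hB.hQ ?_ ?_⟩
  · intro x
    by_cases hx : (2 : ℤ) ∣ x
    · have := (U' (x - 1) (by omega)).mul H.hmul (U' 1 (by norm_num))
      refine Rl.congr (n := 0) (by simp) (by simp) this ?_ ?_ ?_ ?_ <;>
        (ring_nf; exact dvd_zero _)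
    · exact U' x hx
  · intro x
    by_cases hx : (2 : ℤ) ∣ x
    · have := (L' (x - 1) (by omega)).mul H.hmul (L' 1 (by norm_num))
      refine Rl.congr (n := 0) (by simp) (by simp) this ?_ ?_ ?_ ?_ <;>
        (ring_nf; exact dvd_zero _)
    · exact L' x hx

end Pool.Agent.Q19.SU.Gen
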