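import Pool.Agent.Q19.SU.Gen2

/-!
# All levels
-/

set_option autoImplicit false

namespace Pool.Agent.Q19.SU.Gen

variable {V : Type*} [AddCommGroup V] {G : Type*} [Group G] {ρ : G → V →+ V}

/-- an element which is unipotent up to sign on the elements killed by `N`, of `p`-power order, and
which does not act trivially on the elements of order `p` -/
def Tau (ρ : G → V →+ V) (N p : ℕ) : Prop :=
  ∃ (τ : G) (χ : ℤ), (χ = 1 ∨ (χ = -1 ∧ p = 2)) ∧
    (∀ R : V, (N : ℤ) • R = 0 → χ • ρ τ (χ • ρ τ R - R) = χ • ρ τ R - R) ∧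
    (∃ s : ℕ, ∀ R : V, (N : ℤ) • R = 0 → ρ (τ ^ (p ^ s)) R = R) ∧
    ∃ P : V, (p : ℤ) • P = 0 ∧ ρ τ P ≠ P

theorem iter (hmul : ∀ σ τ v, ρ (σ * τ) v = ρ σ (ρ τ v)) (hone : ∀ v, ρ 1 v = v) {τ : G} {χ : ℤ}
    {R : V} (h : χ • ρ τ (χ • ρ τ R - R) = χ • ρ τ R - R) (j : ℕ) :
    (χ ^ j) • ρ (τ ^ j) R = R + (j : ℤ) • (χ • ρ τ R - R) := by
  induction j with
  | zero => rw [pow_zero, pow_zero, hone]; simp
  | succ j ih =>
    have h1 : (χ ^ (j + 1)) • ρ (τ ^ (j + 1)) R = χ • ρ τ ((χ ^ j) • ρ (τ ^ j) R) := by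
      rw [pow_succ' τ, hmul, map_zsmul, smul_smul, pow_succ']
    rw [h1, ih, map_add, map_zsmul, smul_add, smul_comm χ (j : ℤ), h]
    push_cast
    module

/-- the action on the elements of order prime to `p` -/
theorem triv_m (hmul : ∀ σ τ v, ρ (σ * τ) v = ρ σ (ρ τ v)) (hone : ∀ v, ρ 1 v = v) {N p m : ℕ}
    (hp : p.Prime) (hmN : m ∣ N) (hpN : p ∣ N) (hcop : Nat.Coprime p m) {τ : G} {χ : ℤ}
    (hχ : χ = 1 ∨ (χ = -1 ∧ p = 2))
    (hu : ∀ R : V, (N : ℤ) • R = 0 → χ • ρ τ (χ • ρ τ R - R) = χ • ρ τ R - R)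
    (ho : ∃ s : ℕ, ∀ R : V, (N : ℤ) • R = 0 → ρ (τ ^ (p ^ s)) R = R)
    (hnt : ∃ P : V, (p : ℤ) • P = 0 ∧ ρ τ P ≠ P) {R : V} (hR : (m : ℤ) • R = 0) :
    χ • ρ τ R = R := by
  obtain ⟨s, hs⟩ := ho
  obtain ⟨t, ht⟩ := hmN
  have hRN : (N : ℤ) • R = 0 := by
    rw [ht]; push_cast
    rw [mul_comm, mul_smul, hR, smul_zero]
  have hχs : χ ^ (p ^ s) = 1 := by
    rcases hχ with rfl | ⟨rfl, rfl⟩
    · rw [one_pow]
    · have hs0 : s ≠ 0 := by
        rintro rfl
        obtain ⟨P, hP, hP'⟩ := hnt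
        apply hP'
        have := hs P (by
          obtain ⟨c, hc⟩ := hpN
          rw [hc]; push_cast
          rw [mul_comm, mul_smul]
          have : (2 : ℤ) • P = 0 := by exact_mod_cast hP
          rw [this, smul_zero])
        rwa [pow_zero, pow_one] at this
      exact Even.neg_one_pow ((Nat.even_pow' hs0).2 even_two)
  have h1 := iter hmul hone (hu R hRN) (p ^ s)
  rw [hχs, one_smul, hs R hRN] at h1
  obtain ⟨D, hD⟩ : ∃ D, D = χ • ρ τ R - R := ⟨_, rfl⟩
  rw [← hD] at h1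
  have h2 : ((p ^ s : ℕ) : ℤ) • D = 0 := by
    have : R + ((p ^ s : ℕ) : ℤ) • D = R + 0 := by rw [← h1, add_zero]
    exact add_left_cancel this
  have h3 : (m : ℤ) • D = 0 := by
    have e1 : (m : ℤ) • D = χ • ρ τ ((m : ℤ) • R) - (m : ℤ) • R := by
      rw [hD, map_zsmul]; module
    rw [e1, hR, map_zero, smul_zero, sub_zero]
  obtain ⟨u, v, huv⟩ := (Nat.isCoprime_iff_coprime.2 (Nat.Coprime.pow_left s hcop) :
    IsCoprime ((p ^ s : ℕ) : ℤ) (m : ℤ))
  have h4 : D = 0 := by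
    have e1 : D = u • (((p ^ s : ℕ) : ℤ) • D) + v • ((m : ℤ) • D) := by
      rw [smul_smul, smul_smul, ← add_smul, huv, one_smul]
    rw [e1, h2, h3, smul_zero, smul_zero, add_zero]
  rw [hD] at h4
  exact sub_eq_zero.1 h4

theorem kill {N n : ℕ} (h : n ∣ N) {R : V} (hR : (n : ℤ) • R = 0) : (N : ℤ) • R = 0 := by
  obtain ⟨c, hc⟩ := h
  rw [hc]; push_cast
  rw [mul_comm, mul_smul, hR, smul_zero]

/-- **all levels at once** -/
theorem all_levels {N : ℕ} (hN : 1 ≤ N) (hmul : ∀ σ τ v, ρ (σ * τ) v = ρ σ (ρ τ v))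
    (hone : ∀ v, ρ 1 v = v) (hH : ∀ p k : ℕ, p.Prime → Hyp ρ p k)
    (hT : ∀ p : ℕ, p.Prime → p ∣ N → Tau ρ N p) : ∃ P Q : V, Bas N P Q ∧ All ρ N 1 P Q := by
  -- odd divisors
  have odd : ∀ n : ℕ, ∀ m : ℕ, Nat.Coprime n m → n * m = N → Odd n →
      ∃ P Q : V, Bas n P Q ∧ All ρ n m P Q := by
    intro n
    induction n using Nat.recOnPosPrimePosCoprime with
    | prime_pow p k hp hk =>
      intro m hcop hN' hodd
      obtain ⟨k, rfl⟩ : ∃ k', k = k' + 1 := ⟨k - 1, by omega⟩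
      have hpN : p ∣ N := (dvd_pow_self p (by omega)).trans (Dvd.intro _ hN')
      obtain ⟨τ, χ, hχ, hu, ho, hnt⟩ := hT p hp hpN
      have hp2 : p ≠ 2 := by
        rintro rfl
        rw [Nat.odd_pow_iff (by omega)] at hodd
        exact absurd hodd (by decide)
      have hχ1 : χ = 1 := by
        rcases hχ with h | ⟨-, h⟩
        · exact h
        · exact absurd h hp2
      have hcp : Nat.Coprime p m := Nat.Coprime.coprime_dvd_left (dvd_pow_self p (by omega)) hcop
      have hm : ∀ R : V, (m : ℤ) • R = 0 → ρ τ R = R := by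
        intro R hR
        have := triv_m hmul hone hp (Dvd.intro_left _ hN') hpN hcp hχ hu ho hnt hR
        rwa [hχ1, one_smul] at this
      refine all_prime (hH p k hp) hm ?_ hnt
      intro R hR
      have := hu R (kill (n := p ^ (k + 1)) (Dvd.intro _ hN') (by push_cast; exact hR))
      rwa [hχ1, one_smul, one_smul] at this
    | zero =>
      intro m _ _ hodd
      exact absurd hodd (by decide)
    | one =>
      intro m _ _ _
      exact ⟨0, 0, bas_one, all_one hone m⟩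
    | coprime a b ha hb hab iha ihb =>
      intro m hcop hN' hodd
      rw [Nat.odd_mul] at hodd
      have h1 : Nat.Coprime a m := Nat.Coprime.coprime_dvd_left (Dvd.intro _ rfl) hcop
      have h2 : Nat.Coprime b m := Nat.Coprime.coprime_dvd_left (Dvd.intro_left _ rfl) hcop
      obtain ⟨P, Q, hB, hA⟩ := iha (b * m) (Nat.Coprime.mul_right hab h1)
        (by rw [← hN']; ring) hodd.1
      obtain ⟨P', Q', hB', hA'⟩ := ihb (a * m) (Nat.Coprime.mul_right hab.symm h2)
        (by rw [← hN']; ring) hodd.2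
      exact ⟨P + P', Q + Q', hB.coprime hab hB', hA.coprime hmul hB hB' hA'⟩
  -- the power of two
  obtain ⟨k, m, hm2, hNkm⟩ := Nat.exists_eq_pow_mul_and_not_dvd (n := N) (by omega) 2 (by norm_num)
  have hmodd : Odd m := by
    rw [← Nat.not_even_iff_odd, even_iff_two_dvd]; exact hm2
  have hcop2 : Nat.Coprime 2 m := by
    rw [Nat.coprime_two_left]; exact hmodd
  obtain ⟨P', Q', hB', hA'⟩ := odd m (2 ^ k) (Nat.Coprime.pow_left k hcop2).symm
    (by rw [hNkm]; ring) hmodd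
  rcases Nat.eq_zero_or_pos k with rfl | hk
  · rw [pow_zero, one_mul] at hNkm
    rw [pow_zero] at hA'
    subst hNkm
    exact ⟨P', Q', hB', hA'⟩
  · obtain ⟨k, rfl⟩ : ∃ k', k = k' + 1 := ⟨k - 1, by omega⟩
    have h2N : 2 ∣ N := by rw [hNkm]; exact (dvd_pow_self 2 (by omega)).mul_right m
    have hmN : m ∣ N := by rw [hNkm]; exact Dvd.intro_left _ rfl
    have h2kN : 2 ^ (k + 1) ∣ N := by rw [hNkm]; exact Dvd.intro _ rfl
    obtain ⟨τ, χ, hχ, hu, ho, hnt⟩ := hT 2 Nat.prime_two h2N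
    have htm : ∀ R : V, (m : ℤ) • R = 0 → χ • ρ τ R = R := fun R hR =>
      triv_m hmul hone Nat.prime_two hmN h2N hcop2 hχ hu ho hnt hR
    have key : ∃ P Q : V, Bas (2 ^ (k + 1)) P Q ∧ All ρ (2 ^ (k + 1)) m P Q := by
      rcases hχ with rfl | ⟨rfl, -⟩
      · refine all_prime (hH 2 k Nat.prime_two) (fun R hR => by
          have := htm R hR
          rwa [one_smul] at this) ?_ hnt
        intro R hR
        have := hu R (kill h2kN (by push_cast at hR ⊢; exact hR))
        rwa [one_smul, one_smul] at this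
      · -- correct the sign
        obtain ⟨δ, d1, d2, d3⟩ := hA' (-1) 0 0 (-1) (by norm_num)
        have hδm : ∀ R : V, (m : ℤ) • R = 0 → ρ δ R = -R := by
          intro R hR
          obtain ⟨a, b, hab⟩ := hB'.span R hR
          rw [hab, map_add, map_zsmul, map_zsmul, d1, d2]
          module
        have hδ2 : ∀ R : V, ((2 : ℤ) ^ (k + 1)) • R = 0 → ρ δ R = R := by
          intro R hR
          exact d3 R (by push_cast; exact hR)
        have hτ2 : ∀ R : V, ((2 : ℤ) ^ (k + 1)) • R = 0 → ((2 : ℤ) ^ (k + 1)) • ρ τ R = 0 := by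
          intro R hR
          rw [← map_zsmul, hR, map_zero]
        refine all_two (hH 2 k Nat.prime_two) (σ := τ * δ) ?_ ?_ ?_
        · intro R hR
          rw [hmul, hδm R hR, map_neg]
          have := htm R hR
          rwa [neg_one_smul] at this
        · intro R hR
          have h1 : ρ (τ * δ) R = ρ τ R := by rw [hmul, hδ2 R hR]
          have h2 : ρ (τ * δ) ((-1 : ℤ) • ρ τ R - R) = ρ τ ((-1 : ℤ) • ρ τ R - R) := by
            rw [hmul, hδ2]
            rw [smul_sub, smul_comm, hτ2 R hR, hR, smul_zero, sub_zero]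
          rw [h1, h2]
          exact hu R (kill h2kN (by push_cast at hR ⊢; exact hR))
        · obtain ⟨P, hP, hP'⟩ := hnt
          have hP2 : (2 : ℤ) • P = 0 := by exact_mod_cast hP
          have hneg : ∀ x : V, (2 : ℤ) • x = 0 → -x = x := by
            intro x hx
            rw [two_smul] at hx
            exact (eq_neg_of_add_eq_zero_left hx).symm
          refine ⟨P, hP2, ?_⟩
          rw [hmul, hδ2 P (by rw [pow_succ, mul_smul, hP2, smul_zero]), neg_one_smul,
            hneg (ρ τ P) (by rw [← map_zsmul, hP2, map_zero])]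
          exact hP'
    obtain ⟨P, Q, hB, hA⟩ := key
    refine ⟨P + P', Q + Q', ?_, ?_⟩
    · rw [hNkm]
      exact hB.coprime (Nat.Coprime.pow_left _ hcop2) hB'
    · rw [hNkm]
      refine All.coprime hmul hB hB' ?_ ?_
      · rw [mul_one]; exact hA
      · rw [mul_one]; exact hA'

end Pool.Agent.Q19.SU.Gen
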