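import Mathlib

/-!
# Stable finite subgroups of powers

`V` is an abelian group on which a group (a set `G` of endomorphisms) acts; for the primes `p` which divide
the order of a finite stable subgroup `Γ` of `V ^ g` the `p`-torsion of `V` has a basis in which all
matrices of determinant one occur. Then `Γ` is the kernel of an integral matrix.
-/

set_option autoImplicit false

namespace Pool.Agent.Q19.SU.Iso

open Matrix

variable {V : Type*} [AddCommGroup V] {G : Type*}

/-- the action of integral matrices on vectors of elements of `V` -/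
def mulV {g : ℕ} (N : Matrix (Fin g) (Fin g) ℤ) : (Fin g → V) →+ (Fin g → V) where
  toFun x := fun i => ∑ j, N i j • x j
  map_zero' := by
    funext i
    simp
  map_add' x y := by
    funext i
    simp [smul_add, Finset.sum_add_distrib]

theorem mulV_apply {g : ℕ} (N : Matrix (Fin g) (Fin g) ℤ) (x : Fin g → V) (i : Fin g) :
    mulV N x i = ∑ j, N i j • x j := rfl

theorem mulV_mul {g : ℕ} (M N : Matrix (Fin g) (Fin g) ℤ) (x : Fin g → V) :
    mulV (M * N) x = mulV M (mulV N x) := by
  funext i
  simp only [mulV_apply, Matrix.mul_apply, Finset.sum_smul, Finset.smul_sum, mul_smul]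
  rw [Finset.sum_comm]

theorem mulV_one {g : ℕ} (x : Fin g → V) : mulV (1 : Matrix (Fin g) (Fin g) ℤ) x = x := by
  funext i
  rw [mulV_apply, Finset.sum_eq_single i]
  · rw [Matrix.one_apply_eq, one_smul]
  · intro j _ hj
    rw [Matrix.one_apply_ne' hj, zero_smul]
  · intro h
    exact absurd (Finset.mem_univ i) h

/-- all matrices of determinant one occur on the `p`-torsion -/
def Full (act : G → V →+ V) (p : ℕ) : Prop :=
  ∃ P Q : V, p • P = 0 ∧ p • Q = 0 ∧
    (∀ R : V, p • R = 0 → ∃ m n : ℤ, R = m • P + n • Q) ∧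
    (∀ a b c d : ℤ, (p : ℤ) ∣ a * d - b * c - 1 →
      ∃ σ : G, act σ P = a • P + c • Q ∧ act σ Q = b • P + d • Q)

theorem zsmul_zero_of_dvd {p : ℕ} {t : V} (ht : p • t = 0) {a : ℤ} (ha : (p : ℤ) ∣ a) :
    a • t = 0 := by
  obtain ⟨k, rfl⟩ := ha
  rw [mul_comm, mul_smul, natCast_zsmul, ht, smul_zero]

variable {act : G → V →+ V}

theorem act_vec {g : ℕ} (σ : G) (u : Fin g → ℤ) (t : V) :
    (fun i => act σ (u i • t)) = fun i => u i • act σ t := by
  funext i
  rw [map_zsmul]

/-- a stable subgroup with an element of order `p` contains `V[p] ⊗ w` -/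
theorem line {g : ℕ} {p : ℕ} (hp : p.Prime) (hF : Full act p) {Γ : AddSubgroup (Fin g → V)}
    (hst : ∀ σ : G, ∀ x ∈ Γ, (fun i => act σ (x i)) ∈ Γ) {x : Fin g → V} (hx : x ∈ Γ)
    (hpx : p • x = 0) (hx0 : x ≠ 0) :
    ∃ w : Fin g → ℤ, ∃ k : Fin g, w k = 1 ∧ ∀ t : V, p • t = 0 → (fun i => w i • t) ∈ Γ := by
  obtain ⟨P, Q, hP, hQ, hspan, hsl⟩ := hF
  have hxi : ∀ i, ∃ m n : ℤ, x i = m • P + n • Q := fun i => hspan (x i) (congrFun hpx i)
  choose a b hab using hxi
  obtain ⟨σ, s1, s2⟩ := hsl 1 1 0 1 (by norm_num)
  obtain ⟨τ, t1, t2⟩ := hsl 0 (-1) 1 0 (by norm_num)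
  rw [one_smul, zero_smul, add_zero] at s1
  rw [one_smul, one_smul] at s2
  rw [zero_smul, one_smul, zero_add] at t1
  -- from `u P` to `u t`
  have key : ∀ u : Fin g → ℤ, (fun i => u i • P) ∈ Γ → ∀ t : V, p • t = 0 →
      (fun i => u i • t) ∈ Γ := by
    intro u hu t ht
    have h1 : (fun i => u i • Q) ∈ Γ := by
      have h2 := hst τ _ hu
      rw [act_vec, t1] at h2
      exact h2
    obtain ⟨m, n, rfl⟩ := hspan t ht
    have h3 : (fun i => u i • (m • P + n • Q)) =
        m • (fun i => u i • P) + n • (fun i => u i • Q) := by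
      funext i
      simp only [Pi.add_apply, Pi.smul_apply, smul_add]
      rw [smul_comm (u i) m P, smul_comm (u i) n Q]
    rw [h3]
    exact Γ.add_mem (Γ.zsmul_mem hu m) (Γ.zsmul_mem h1 n)
  -- the vector `u`
  obtain ⟨u, hu, k, hk⟩ : ∃ u : Fin g → ℤ, (fun i => u i • P) ∈ Γ ∧ ∃ k, ¬ (p : ℤ) ∣ u k := by
    by_cases hb : ∃ k, ¬ (p : ℤ) ∣ b k
    · refine ⟨b, ?_, hb⟩
      have h1 := Γ.sub_mem (hst σ x hx) hx
      have h2 : (fun i => act σ (x i)) - x = fun i => b i • P := by
        funext i
        simp only [Pi.sub_apply]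
        rw [hab i, map_add, map_zsmul, map_zsmul, s1, s2, smul_add]
        abel
      rw [h2] at h1
      exact h1
    · push Not at hb
      refine ⟨a, ?_, ?_⟩
      · have h2 : x = fun i => a i • P := by
          funext i
          rw [hab i, zsmul_zero_of_dvd hQ (hb i), add_zero]
        rw [← h2]
        exact hx
      · by_contra hcon
        push Not at hcon
        apply hx0
        funext i
        rw [hab i, zsmul_zero_of_dvd hQ (hb i), zsmul_zero_of_dvd hP (hcon i), add_zero]
        rfl
  -- normalise
  have hcop : IsCoprime (u k) (p : ℤ) := by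
    have h1 : IsCoprime (p : ℤ) (u k) := by
      rcases (Prime.coprime_iff_not_dvd (Nat.prime_iff_prime_int.1 hp)).2 hk with h
      exact h
    exact h1.symm
  obtain ⟨r, s, hrs⟩ := hcop
  refine ⟨Function.update (fun i => r * u i) k 1, k, Function.update_self _ _ _, ?_⟩
  intro t ht
  have h1 := Γ.zsmul_mem (key u hu t ht) r
  have h2 : (fun i => Function.update (fun i => r * u i) k 1 i • t) =
      r • (fun i => u i • t) := by
    funext i
    simp only [Pi.smul_apply]
    by_cases hi : i = k
    · subst hi
      rw [Function.update_self, ← mul_smul]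
      have h3 : r * u i = 1 - s * p := by linear_combination hrs
      rw [h3, sub_smul, one_smul, mul_smul, natCast_zsmul, ht, smul_zero, sub_zero]
    · rw [Function.update_of_ne hi, mul_smul]
  rw [h2]
  exact h1

/-- the elementary matrix -/
def El {g : ℕ} (c : Fin g → ℤ) (k : Fin g) : Matrix (Fin g) (Fin g) ℤ :=
  fun i j => (1 : Matrix (Fin g) (Fin g) ℤ) i j + c i * (Pi.single k (1 : ℤ) : Fin g → ℤ) j

theorem det_El {g : ℕ} (c : Fin g → ℤ) (k : Fin g) : (El c k).det = 1 + c k := by
  have h := det_one_add_replicateCol_mul_replicateRow (ι := Unit) c (Pi.single k (1 : ℤ) : Fin g → ℤ)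
  refine (congrArg det ?_).trans (h.trans ?_)
  · ext i j
    simp [El, Matrix.mul_apply]
  · simp

theorem mulV_El {g : ℕ} (c : Fin g → ℤ) (k : Fin g) (x : Fin g → V) (i : Fin g) :
    mulV (El c k) x i = x i + c i • x k := by
  have h : ∀ j, El c k i j = (1 : Matrix (Fin g) (Fin g) ℤ) i j +
      c i * (Pi.single k (1 : ℤ) : Fin g → ℤ) j := by
    intro j
    rfl
  rw [mulV_apply]
  simp only [h, add_smul, Finset.sum_add_distrib]
  congr 1
  · exact congrFun (mulV_one x) i
  · rw [Finset.sum_eq_single k]
    · rw [Pi.single_eq_same, mul_one]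
    · intro j _ hj
      rw [Pi.single_eq_of_ne hj, mul_zero, zero_smul]
    · intro h
      exact absurd (Finset.mem_univ k) h

/-- **stable finite subgroups of `V ^ g` are kernels of integral matrices** -/
theorem exists_matrix {g : ℕ} : ∀ (n : ℕ) (Γ : AddSubgroup (Fin g → V)), Finite Γ →
    Nat.card Γ = n → (∀ σ : G, ∀ x ∈ Γ, (fun i => act σ (x i)) ∈ Γ) →
    (∀ p : ℕ, p.Prime → p ∣ n → Full act p) →
    ∃ N : Matrix (Fin g) (Fin g) ℤ, N.det ≠ 0 ∧ ∀ x, x ∈ Γ ↔ mulV N x = 0 := by
  intro n
  induction n using Nat.strong_induction_on with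
  | _ n ih =>
    intro Γ hfin hcard hst hfull
    by_cases h1 : n = 1
    · refine ⟨1, by simp, fun x => ?_⟩
      rw [mulV_one]
      rw [h1, AddSubgroup.card_eq_one] at hcard
      rw [hcard, AddSubgroup.mem_bot]
    · obtain ⟨p, hp, hpn⟩ := Nat.exists_prime_and_dvd h1
      have := Fact.mk hp
      have := hfin
      obtain ⟨x, hx⟩ := exists_prime_addOrderOf_dvd_card' (G := Γ) p (by rw [hcard]; exact hpn)
      have hx1 : p • (x : Fin g → V) = 0 := by
        have h2 : p • x = 0 := by rw [← hx]; exact addOrderOf_nsmul_eq_zero x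
        have h3 := congrArg (Subtype.val) h2
        simpa using h3
      have hx0 : (x : Fin g → V) ≠ 0 := by
        intro h2
        have h3 : x = 0 := Subtype.ext h2
        rw [h3, addOrderOf_zero] at hx
        exact hp.one_lt.ne hx
      obtain ⟨w, k, hwk, hw⟩ := line hp (hfull p hp hpn) hst x.2 hx1 hx0
      set c : Fin g → ℤ := Function.update (fun i => - w i) k (p - 1) with hc
      have hNk : ∀ y : Fin g → V, mulV (El c k) y k = p • y k := by
        intro y
        rw [mulV_El, hc, Function.update_self, sub_smul, one_smul, natCast_zsmul]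
        abel
      have hNi : ∀ (y : Fin g → V) (i : Fin g), i ≠ k → mulV (El c k) y i = y i - w i • y k := by
        intro y i hi
        rw [mulV_El, hc, Function.update_of_ne hi, neg_smul, sub_eq_add_neg]
      have hker : ∀ y : Fin g → V, mulV (El c k) y = 0 → y ∈ Γ := by
        intro y hy
        have e1 : p • y k = 0 := by rw [← hNk, hy]; rfl
        have e2 : y = fun i => w i • y k := by
          funext i
          by_cases hi : i = k
          · rw [hi, hwk, one_smul]
          · have h3 := hNi y i hi
            rw [hy] at h3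
            have h4 : (0 : V) = y i - w i • y k := h3
            rw [eq_comm, sub_eq_zero] at h4
            exact h4
        rw [e2]
        exact hw _ e1
      have hPex : ∃ y : Fin g → V, y ≠ 0 ∧ mulV (El c k) y = 0 := by
        obtain ⟨P, Q, hP, hQ, hspan, hsl⟩ := hfull p hp hpn
        -- an element of order p
        obtain ⟨i, hi⟩ : ∃ i, (x : Fin g → V) i ≠ 0 := by
          by_contra hcon
          push Not at hcon
          exact hx0 (funext hcon)
        refine ⟨fun j => w j • (x : Fin g → V) i, ?_, ?_⟩
        · intro h3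
          apply hi
          have h4 := congrFun h3 k
          simp only [hwk, one_smul] at h4
          exact h4
        · funext j
          by_cases hj : j = k
          · rw [hj, hNk]
            simp only [hwk, one_smul]
            exact congrFun hx1 i
          · rw [hNi _ _ hj]
            simp only [hwk, one_smul, sub_self]
            rfl
      set Γ' : AddSubgroup (Fin g → V) := Γ.map (mulV (El c k)) with hΓ'
      have hfin' : Finite Γ' := by
        have : (Γ' : Set (Fin g → V)).Finite := by
          rw [hΓ', AddSubgroup.coe_map]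
          exact (Set.toFinite (Γ : Set (Fin g → V))).image _
        exact this.to_subtype
      have hdvd : Nat.card Γ' ∣ n := by
        rw [← hcard]
        exact AddSubgroup.card_map_dvd Γ (mulV (El c k))
      have hlt : Nat.card Γ' < n := by
        rcases lt_or_eq_of_le (Nat.le_of_dvd (by rw [← hcard]; exact Nat.card_pos) hdvd) with h | h
        · exact h
        · exfalso
          obtain ⟨y, hy0, hy⟩ := hPex
          -- the restriction is injective
          have hsurj : Function.Surjective (fun z : Γ => (⟨mulV (El c k) z.1,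
              AddSubgroup.mem_map_of_mem _ z.2⟩ : Γ')) := by
            rintro ⟨z, hz⟩
            obtain ⟨t, ht, rfl⟩ := AddSubgroup.mem_map.1 hz
            exact ⟨⟨t, ht⟩, rfl⟩
          have hinj := (Nat.bijective_iff_surjective_and_card _).2 ⟨hsurj, by rw [hcard, h]⟩
          have hyΓ := hker y hy
          have h4 : (⟨y, hyΓ⟩ : Γ) = 0 := by
            apply hinj.1
            apply Subtype.ext
            show mulV (El c k) y = mulV (El c k) 0
            rw [hy, map_zero]
          exact hy0 (congrArg Subtype.val h4)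
      have hst' : ∀ σ : G, ∀ y ∈ Γ', (fun i => act σ (y i)) ∈ Γ' := by
        intro σ y hy
        obtain ⟨z, hz, rfl⟩ := AddSubgroup.mem_map.1 hy
        refine AddSubgroup.mem_map.2 ⟨fun i => act σ (z i), hst σ z hz, ?_⟩
        funext i
        rw [mulV_El, mulV_El, map_add, map_zsmul]
      obtain ⟨N', hN'0, hN'⟩ := ih (Nat.card Γ') hlt Γ' hfin' rfl hst'
        (fun q hq hqd => hfull q hq (hqd.trans hdvd))
      refine ⟨N' * El c k, ?_, fun y => ?_⟩
      · rw [det_mul, det_El]
        refine mul_ne_zero hN'0 ?_
        rw [hc, Function.update_self]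
        have := hp.pos
        omega
      · rw [mulV_mul, ← hN']
        constructor
        · intro hy
          exact AddSubgroup.mem_map_of_mem _ hy
        · intro hy
          obtain ⟨z, hz, hzy⟩ := AddSubgroup.mem_map.1 hy
          have h5 : y - z ∈ Γ := hker _ (by rw [map_sub, hzy, sub_self])
          have h6 := Γ.add_mem h5 hz
          rwa [sub_add_cancel] at h6

end Pool.Agent.Q19.SU.Iso
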