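import Pool.Agent.Y673.FM.Fix
import Pool.Agent.Y673.FM.Desc

/-!
# A stable line consists of points of level zero at the places above a simple pole
-/

set_option autoImplicit false

namespace Pool.Agent.Q19.SU

open WeierstrassCurve Pool.Agent.H901R3.MS Pool.Agent.Y673.Loc Pool.Agent.Y673.Loc.ZV
open Pool.Agent.W275.FM Pool.Agent.W275.FMK Pool.Agent.Y673.FM NumberField IsDedekindDomain

section
variable {L : Type} [Field L] [DecidableEq L] [CharZero L] {w : ZV L} {c H : ℤ} {e η : L}

theorem lv0_add (D : Dt w c H e η) {P Q : Pt (cA e η) (cB e η)} (hP : LV w c H e η P 0)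
    (hQ : LV w c H e η Q 0) : LV w c H e η (P + Q) 0 := by
  obtain ⟨r, hr⟩ := LV.total D (P + Q)
  have hr0 := hr.nonneg D
  rcases eq_or_lt_of_le hr0 with h | h
  · rw [← h] at hr; exact hr
  · exfalso
    obtain ⟨c', d', g1, g2, g3⟩ := LV.pair D hr h (hP.neg D)
    have e1 : -P + (P + Q) = Q := by abel
    rw [e1] at g1
    have h1 := LV.unique D g1 hQ
    have hrH := hr.le D
    have h2 : min (r + 0) (2 * H - r - 0) = r := by
      rw [add_zero, sub_zero, min_eq_left (by omega)]
    have h3 : |r - 0| = r := by rw [sub_zero, abs_of_pos h]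
    rw [h2, h3] at g3
    omega

/-- the points of level `0` -/
def T0 (D : Dt w c H e η) : AddSubgroup (Pt (cA e η) (cB e η)) where
  carrier := {P | LV w c H e η P 0}
  zero_mem' := rfl
  add_mem' h h' := lv0_add D h h'
  neg_mem' h := h.neg D

theorem mem_T0 (D : Dt w c H e η) {P : Pt (cA e η) (cB e η)} :
    P ∈ T0 D ↔ LV w c H e η P 0 := Iff.rfl

/-- the level of the image of a point -/
theorem lv_ac' {σ : L →+* L} (hσ : In w σ) (ha : σ (cA e η) = cA e η)
    (hb : σ (cB e η) = cB e η) (he : σ e = e) {P : Pt (cA e η) (cB e η)} {α : ℤ}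
    (hP : LV w c H e η P α) : LV w c H e η (ac two_ne_zero σ ha hb P) α := by
  rcases P with _ | ⟨x, y, hn⟩
  · rw [show ac two_ne_zero σ ha hb Affine.Point.zero = 0 from map_zero _]
    exact hP
  · rw [ac_some]
    have e1 : (σ x - e) / (3 * e) = σ ((x - e) / (3 * e)) := by
      rw [map_div₀, map_sub, map_mul, he, map_ofNat]
    change NN w c H ((σ x - e) / (3 * e)) α
    rw [e1]
    rcases hP with ⟨h, h'⟩ | ⟨h1, h2, h'⟩ | ⟨h, h'⟩
    · exact Or.inl ⟨h, hσ.G h'⟩
    · exact Or.inr (Or.inl ⟨h1, h2, hσ.E h'⟩)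
    · exact Or.inr (Or.inr ⟨h, fun h0 => h' (hσ.G' h0)⟩)

/-- an element of the inertia group of odd order which stabilises the line of a point of positive
level fixes the point -/
theorem fix_of_stable (D : Dt w c H e η) {p : ℕ} (hp : p.Prime) (hp2 : Odd p)
    {P : Pt (cA e η) (cB e η)} (hP : p • P = 0) (hP0 : P ≠ 0) {α : ℤ} (hα : 0 < α)
    (hl : LV w c H e η P α) {σ : L →+* L} (hσ : In w σ) (ha : σ (cA e η) = cA e η)
    (hb : σ (cB e η) = cB e η) (he : σ e = e) {k : ℕ} (hk : ∀ z, (fun z => σ z)^[p ^ k] z = z)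
    (hst : ∃ m : ℤ, ac two_ne_zero σ ha hb P = m • P) : ac two_ne_zero σ ha hb P = P := by
  obtain ⟨m, hm⟩ := hst
  have hPT : P ∉ T0 D := fun h => by
    have := LV.unique D h hl
    omega
  have hpos : p • P = 0 := hP
  have key : ∀ n : ℤ, n • P ∈ T0 D → n • P = 0 := by
    intro n hn
    have hdvd : (p : ℤ) ∣ n := by
      by_contra hnd
      have hcop : IsCoprime (p : ℤ) n := by
        rw [Int.isCoprime_iff_gcd_eq_one]
        exact (Nat.Prime.coprime_iff_not_dvd hp (n := n.natAbs)).2 fun h =>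
          hnd (Int.natCast_dvd.2 h)
      obtain ⟨u, v, huv⟩ := hcop
      apply hPT
      have e1 : P = v • (n • P) := by
        have h1 : (u * p + v * n) • P = P := by rw [huv, one_smul]
        rw [add_smul, mul_smul, mul_smul, natCast_zsmul, hpos, smul_zero, zero_add] at h1
        exact h1.symm
      rw [e1]
      exact (T0 D).zsmul_mem hn v
    obtain ⟨t, rfl⟩ := hdvd
    rw [mul_comm, mul_smul, natCast_zsmul, hpos, smul_zero]
  obtain ⟨c', d', g1, g2, g3⟩ := LV.pair D hl hα (lv_ac' hσ ha hb he hl)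
  have hab : |α - α| = 0 := by simp
  rw [hab] at g3
  rcases g3 with ⟨g3, -⟩ | ⟨g3, -⟩
  · rw [g3] at g1
    have h1 : ac two_ne_zero σ ha hb P + P = (m + 1) • P := by rw [hm, add_smul, one_smul]
    have h2 : ac two_ne_zero σ ha hb P + P = 0 := by
      rw [h1]
      exact key _ (by rw [← h1]; exact g1)
    have h3 : ac two_ne_zero σ ha hb P = -P := eq_neg_of_add_eq_zero_left h2
    exfalso
    have h4 : Function.IsPeriodicPt (fun P => ac two_ne_zero σ ha hb P) 2 P := by
      show ac two_ne_zero σ ha hb (ac two_ne_zero σ ha hb P) = P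
      rw [h3, map_neg, h3, neg_neg]
    have h5 : Function.IsPeriodicPt (fun P => ac two_ne_zero σ ha hb P) (p ^ k) P :=
      ac_iter σ ha hb hk P
    have h6 := h4.gcd h5
    have h7 : Nat.gcd 2 (p ^ k) = 1 := by
      have : Nat.Coprime 2 p := by
        rw [Nat.coprime_two_left]
        exact hp2
      exact this.pow_right k
    rw [h7] at h6
    have h8 : ac two_ne_zero σ ha hb P = P := h6
    rw [h3] at h8
    have h9 : (2 : ℤ) • P = 0 := by
      rw [two_smul]
      nth_rewrite 1 [← h8]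
      exact neg_add_cancel P
    -- `p` is odd
    obtain ⟨t, ht⟩ := hp2
    apply hP0
    have h10 : (p : ℤ) • P = 0 := by rw [natCast_zsmul]; exact hpos
    rw [ht] at h10
    push_cast at h10
    rw [add_smul, one_smul, mul_comm, mul_smul, h9, smul_zero, zero_add] at h10
    exact h10
  · rw [g3] at g2
    have h1 : ac two_ne_zero σ ha hb P - P = (m - 1) • P := by rw [hm, sub_smul, one_smul]
    have h2 : ac two_ne_zero σ ha hb P - P = 0 := by
      rw [h1]
      exact key _ (by rw [← h1]; exact g2)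
    exact sub_eq_zero.1 h2

end

section
variable {K : Type} [Field K] [NumberField K] {L : Type} [Field L] [NumberField L] [Algebra K L]
  [DecidableEq L]

theorem iter_pow' (τ : L ≃ₐ[K] L) (n : ℕ) : ∀ z : L, (fun z => rh τ z)^[n] z = (τ ^ n) z := by
  induction n with
  | zero => intro z; rfl
  | succ n ih =>
    intro z
    rw [Function.iterate_succ_apply, ih, pow_succ]; rfl

/-- **the points of a stable line have level zero** -/
theorem line_level [IsGalois K L] (w : HeightOneSpectrum (𝓞 L)) {H : ℤ} {e η : L}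
    (D : Dt (adv L w) 0 H e η) {A B : K} (hA : algebraMap K L A = cA e η)
    (hB : algebraMap K L B = cB e η)
    (hH : 2 * H = Nat.card (w.asIdeal.inertia (L ≃ₐ[K] L))) {p : ℕ} (hp : p.Prime) (h5 : 5 ≤ p)
    {P : Pt (cA e η) (cB e η)} (hP : p • P = 0) (hP0 : P ≠ 0)
    (hst : ∀ (σ : L ≃ₐ[K] L) (ha : rh σ (cA e η) = cA e η) (hb : rh σ (cB e η) = cB e η),
      ∃ m : ℤ, ac two_ne_zero (rh σ) ha hb P = m • P) :
    LV (adv L w) 0 H e η P 0 := by
  obtain ⟨α, hα⟩ := LV.total D P
  have hα0 := hα.nonneg D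
  rcases eq_or_lt_of_le hα0 with h | h
  · rwa [← h] at hα
  exfalso
  have hodd : Odd p := hp.odd_of_ne_two (by omega)
  have htor := LV.tors D hα h hP
  have hαH := hα.le D
  have hH1 := D.dat.hH
  have hαlt : α < H := by
    rcases hαH.lt_or_eq with h1 | h1
    · exact h1
    · exfalso
      subst h1
      obtain ⟨t, ht⟩ := htor
      have h2 : (p : ℤ) = 2 * t := by
        have h3 : α * ((p : ℤ) - 2 * t) = 0 := by linear_combination ht
        rcases mul_eq_zero.1 h3 with h4 | h4
        · omega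
        · omega
      obtain ⟨s, hs⟩ := hodd
      omega
  rcases P with _ | ⟨x, y, hn⟩
  · exact hP0 rfl
  have hval : (adv L w).E α ((x - e) / (3 * e)) :=
    (NN.E (w := adv L w) (c := 0) (H := H) hα h hαlt).cast (by ring)
  obtain ⟨I, hI⟩ : ∃ I, I = w.asIdeal.inertia (L ≃ₐ[K] L) := ⟨_, rfl⟩
  rw [← hI] at hH
  haveI : Finite (L ≃ₐ[K] L) := inferInstance
  obtain ⟨s, m, hm, hIm⟩ := Nat.exists_eq_pow_mul_and_not_dvd (Nat.card_pos (α := I)).ne' p
    hp.ne_one
  haveI : Fact p.Prime := ⟨hp⟩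
  obtain ⟨S, hS⟩ := Sylow.exists_subgroup_card_pow_prime (G := I) p (n := s)
    (by rw [hIm]; exact Dvd.intro _ rfl)
  obtain ⟨J, hJ⟩ : ∃ J : Subgroup (L ≃ₐ[K] L), J = S.map I.subtype := ⟨_, rfl⟩
  have hJI : J ≤ I := by
    rw [hJ]
    exact Subgroup.map_subtype_le S
  have hJc : Nat.card J = p ^ s := by
    rw [hJ, ← hS]
    exact (Nat.card_congr (S.equivMapOfInjective I.subtype I.subtype_injective).toEquiv).symm
  have hJk : ∀ σ ∈ J, ∀ z, (fun z => rh σ z)^[p ^ s] z = z := by
    intro σ hσ z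
    rw [iter_pow']
    have h1 : (⟨σ, hσ⟩ : J) ^ (p ^ s) = 1 := by rw [← hJc]; exact pow_card_eq_one'
    have h2 : σ ^ (p ^ s) = 1 := by
      have := congrArg (fun x : J => (x : L ≃ₐ[K] L)) h1
      simpa using this
    rw [h2]; rfl
  -- the root
  set g : Polynomial K := Polynomial.X ^ 3 + Polynomial.C A * Polynomial.X + Polynomial.C B with hg
  have gdeg : g.natDegree = 3 := by rw [hg]; compute_degree!
  have g0 : g ≠ 0 := by intro h; rw [h, Polynomial.natDegree_zero] at gdeg; omega
  have groot : Polynomial.aeval (-2 * e) g = 0 := by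
    rw [hg]
    simp only [map_add, map_mul, map_pow, Polynomial.aeval_X, Polynomial.aeval_C]
    rw [hA, hB]
    unfold cA cB
    ring
  have hzfix : ∀ σ ∈ J, σ ((x - e) / (3 * e)) = (x - e) / (3 * e) := by
    intro σ hσ
    have h1 := fixroot hp g g0 (by omega) σ (hJk σ hσ) groot
    have he : rh σ e = e := by
      rw [map_mul, map_neg, map_ofNat] at h1
      have h2 : (2 : L) * (rh σ e - e) = 0 := by linear_combination -h1
      rcases mul_eq_zero.1 h2 with h3 | h3
      · exact absurd h3 two_ne_zero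
      · exact sub_eq_zero.1 h3
    have ha : rh σ (cA e η) = cA e η := by rw [← hA]; exact σ.commutes A
    have hb : rh σ (cB e η) = cB e η := by rw [← hB]; exact σ.commutes B
    have hin : In (adv L w) (rh σ) := inertia_In K L w (by rw [← hI]; exact hJI hσ)
    have h3 := fix_of_stable D hp hodd hP hP0 h hα hin ha hb he (hJk σ hσ) (hst σ ha hb)
    rw [ac_some, Affine.Point.some.injEq] at h3
    have h4 : σ x = x := h3.1
    have h5 : σ e = e := he
    rw [map_div₀, map_sub, map_mul, map_ofNat, h4, h5]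
  have hdvd := fix_dvd K L w J (by rw [← hI]; exact hJI) _ hzfix
  rw [hJc, hval.2] at hdvd
  have hIm' : (2 * H : ℤ) = (p : ℤ) ^ s * m := by
    rw [hH, hIm]
    push_cast
    ring
  have hmα : (m : ℤ) ∣ α := by
    have h1 : (m : ℤ) ∣ p * α := (Dvd.intro_left _ hIm'.symm).trans htor
    have hcop : IsCoprime (m : ℤ) (p : ℤ) := by
      rw [Int.isCoprime_iff_gcd_eq_one]
      exact ((Nat.Prime.coprime_iff_not_dvd hp).2 hm).symm
    exact hcop.dvd_of_dvd_mul_left h1
  have hcop2 : IsCoprime ((p : ℤ) ^ s) (m : ℤ) := by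
    apply IsCoprime.pow_left
    rw [Int.isCoprime_iff_gcd_eq_one]
    exact (Nat.Prime.coprime_iff_not_dvd hp).2 hm
  have hall : (p : ℤ) ^ s * m ∣ α := hcop2.mul_dvd (by exact_mod_cast hdvd) hmα
  rw [← hIm'] at hall
  have := Int.le_of_dvd h hall
  omega

end

end Pool.Agent.Q19.SU
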