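import Pool.Agent.Q19.SU.Line

/-!
# Elements of the inertia group and the isolated root; points of level zero, all odd primes
-/

set_option autoImplicit false

namespace Pool.Agent.Q19.SU

open WeierstrassCurve Pool.Agent.H901R3.MS Pool.Agent.Y673.Loc Pool.Agent.Y673.Loc.ZV
open Pool.Agent.W275.FM Pool.Agent.W275.FMK Pool.Agent.Y673.FM NumberField IsDedekindDomain

section
variable {L : Type} [Field L] [CharZero L] {w : ZV L} {H : ℤ} {e η : L}

theorem z_val [DecidableEq L] (D : Dt w 0 H e η) : w.E H (η / (3 * e)) := by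
  have h1 := D.dat.del
  have hne : η / (3 * e) ≠ 0 := by
    intro h
    rw [h, zero_pow two_ne_zero] at h1
    exact h1.1 rfl
  refine ⟨hne, ?_⟩
  have h2 := (E_of_ne (w := w) hne).sq.eq h1
  omega

/-- a homomorphism which preserves the valuation and the equation fixes the isolated root -/
theorem he_of [DecidableEq L] (D : Dt w 0 H e η) {σ : L →+* L} (hσ : In w σ)
    (ha : σ (cA e η) = cA e η) (hb : σ (cB e η) = cB e η) :
    σ e = e ∧ (σ η = η ∨ σ η = -η) := by
  have hz := z_val D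
  have hH := D.dat.hH
  have h3e := D.h3e
  have h2 := D.dat.two
  have h2' : (2 : L) ≠ 0 := h2.1
  obtain ⟨E, hE⟩ : ∃ E, E = σ e := ⟨_, rfl⟩
  obtain ⟨N, hN⟩ : ∃ N, N = σ η := ⟨_, rfl⟩
  have hA : -3 * E ^ 2 - N ^ 2 = -3 * e ^ 2 - η ^ 2 := by
    unfold cA at ha
    rw [map_sub, map_mul, map_neg, map_ofNat, map_pow, map_pow, ← hE, ← hN] at ha
    exact ha
  have hB : 2 * E ^ 3 - 2 * E * N ^ 2 = 2 * e ^ 3 - 2 * e * η ^ 2 := by
    unfold cB at hb
    rw [map_sub, map_mul, map_mul, map_mul, map_ofNat, map_pow, map_pow, ← hE, ← hN] at hb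
    exact hb
  have hprod : (E - e) * ((2 * E + e + η) * (2 * E + e - η)) = 0 := by
    linear_combination (1 / 2) * hB - E * hA
  have hη : η = η / (3 * e) * (3 * e) := (div_mul_cancel₀ _ h3e).symm
  have hηv : w.E (H + w.v (3 * e)) η := by
    rw [hη]
    exact hz.mul (E_of_ne h3e)
  have hNv : w.E (H + w.v (3 * e)) N := by
    rw [hN]
    exact ⟨(map_ne_zero σ).2 hηv.1, by rw [hσ.v]; exact hηv.2⟩
  have case2 : ∀ ε : L, (ε = 1 ∨ ε = -1) → 2 * E + e + ε * η = 0 → False := by
    intro ε hε h0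
    have hεη : w.G (1 + w.v (3 * e)) (ε * η) := by
      rcases hε with rfl | rfl
      · rw [one_mul]
        exact hηv.mono (by omega)
      · rw [neg_one_mul]
        exact hηv.neg.mono (by omega)
    have hε2 : ε ^ 2 = 1 := by rcases hε with rfl | rfl <;> norm_num
    have h4 : (2 * N - (3 * e - ε * η)) * (2 * N + (3 * e - ε * η)) = 0 := by
      linear_combination (-4) * hA - (6 * E - 3 * e - 3 * ε * η) * h0 - 4 * η ^ 2 * hε2
    have h5 : w.E (w.v (3 * e)) (3 * e - ε * η) :=
      (E_of_ne h3e).subG hεη (by omega)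
    have h6 : w.E (0 + (H + w.v (3 * e))) (2 * N) := h2.mul hNv
    rcases mul_eq_zero.1 h4 with h | h
    · rw [sub_eq_zero] at h
      rw [h] at h6
      have := h6.eq h5
      omega
    · rw [eq_neg_of_add_eq_zero_left h] at h6
      have := h6.eq h5.neg
      omega
  rcases mul_eq_zero.1 hprod with h | h
  · have hEe : E = e := sub_eq_zero.1 h
    refine ⟨by rw [← hE, hEe], ?_⟩
    rw [hEe] at hA
    have h7 : (N - η) * (N + η) = 0 := by linear_combination -hA
    rw [← hN]
    rcases mul_eq_zero.1 h7 with h | h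
    · exact Or.inl (sub_eq_zero.1 h)
    · exact Or.inr (eq_neg_of_add_eq_zero_left h)
  · exfalso
    rcases mul_eq_zero.1 h with h | h
    · exact case2 1 (Or.inl rfl) (by linear_combination h)
    · exact case2 (-1) (Or.inr rfl) (by linear_combination h)

end

section
variable {K : Type} [Field K] [NumberField K] {L : Type} [Field L] [NumberField L] [Algebra K L]
  [DecidableEq L]

/-- **if the elements of `p`-power order of the inertia group fix a point of order `p`, its level is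
zero** -/
theorem level_fix [IsGalois K L] (w : HeightOneSpectrum (𝓞 L)) {H : ℤ} {e η : L}
    (D : Dt (adv L w) 0 H e η) {A B : K} (hA : algebraMap K L A = cA e η)
    (hB : algebraMap K L B = cB e η)
    (hH : 2 * H = Nat.card (w.asIdeal.inertia (L ≃ₐ[K] L))) {p : ℕ} (hp : p.Prime) (hodd : Odd p)
    {P : Pt (cA e η) (cB e η)} (hP : p • P = 0) (hP0 : P ≠ 0)
    (hfix : ∀ (σ : L ≃ₐ[K] L) (ha : rh σ (cA e η) = cA e η) (hb : rh σ (cB e η) = cB e η),
      In (adv L w) (rh σ) → ∀ s : ℕ, σ ^ (p ^ s) = 1 → rh σ e = e →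
      ac two_ne_zero (rh σ) ha hb P = P) :
    LV (adv L w) 0 H e η P 0 := by
  obtain ⟨α, hα⟩ := LV.total D P
  have hα0 := hα.nonneg D
  rcases eq_or_lt_of_le hα0 with h | h
  · rwa [← h] at hα
  exfalso
  have htor := LV.tors D hα h hP
  have hαH := hα.le D
  have hH1 := D.dat.hH
  have hαlt : α < H := by
    rcases hαH.lt_or_eq with h1 | h1
    · exact h1
    · exfalso
      subst h1
      obtain ⟨t, ht⟩ := htor
      have h2 : (p : ℤ) = 2 * t := by
        have h3 : α * ((p : ℤ) - 2 * t) = 0 := by linear_combination ht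
        rcases mul_eq_zero.1 h3 with h4 | h4
        · omega
        · omega
      obtain ⟨s, hs⟩ := hodd
      omega
  rcases P with _ | ⟨x, y, hn⟩
  · exact hP0 rfl
  have hval : (adv L w).E α ((x - e) / (3 * e)) :=
    (NN.E (w := adv L w) (c := 0) (H := H) hα h hαlt).cast (by ring)
  obtain ⟨I, hI⟩ : ∃ I, I = w.asIdeal.inertia (L ≃ₐ[K] L) := ⟨_, rfl⟩
  rw [← hI] at hH
  have : Finite (L ≃ₐ[K] L) := inferInstance
  obtain ⟨s, m, hm, hIm⟩ := Nat.exists_eq_pow_mul_and_not_dvd (Nat.card_pos (α := I)).ne' p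
    hp.ne_one
  have : Fact p.Prime := ⟨hp⟩
  obtain ⟨S, hS⟩ := Sylow.exists_subgroup_card_pow_prime (G := I) p (n := s)
    (by rw [hIm]; exact Dvd.intro _ rfl)
  obtain ⟨J, hJ⟩ : ∃ J : Subgroup (L ≃ₐ[K] L), J = S.map I.subtype := ⟨_, rfl⟩
  have hJI : J ≤ I := by
    rw [hJ]
    exact Subgroup.map_subtype_le S
  have hJc : Nat.card J = p ^ s := by
    rw [hJ, ← hS]
    exact (Nat.card_congr (S.equivMapOfInjective I.subtype I.subtype_injective).toEquiv).symm
  have hJk : ∀ σ ∈ J, σ ^ (p ^ s) = 1 := by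
    intro σ hσ
    have h1 : (⟨σ, hσ⟩ : J) ^ (p ^ s) = 1 := by rw [← hJc]; exact pow_card_eq_one'
    have := congrArg (fun x : J => (x : L ≃ₐ[K] L)) h1
    simpa using this
  have hzfix : ∀ σ ∈ J, σ ((x - e) / (3 * e)) = (x - e) / (3 * e) := by
    intro σ hσ
    have ha : rh σ (cA e η) = cA e η := by rw [← hA]; exact σ.commutes A
    have hb : rh σ (cB e η) = cB e η := by rw [← hB]; exact σ.commutes B
    have hin : In (adv L w) (rh σ) := inertia_In K L w (by rw [← hI]; exact hJI hσ)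
    have he : rh σ e = e := (he_of D hin ha hb).1
    have h3 := hfix σ ha hb hin s (hJk σ hσ) he
    rw [ac_some, Affine.Point.some.injEq] at h3
    have h4 : σ x = x := h3.1
    have h5 : σ e = e := he
    rw [map_div₀, map_sub, map_mul, map_ofNat, h4, h5]
  have hdvd := fix_dvd K L w J (by rw [← hI]; exact hJI) _ hzfix
  rw [hJc, hval.2] at hdvd
  have hIm' : (2 * H : ℤ) = (p : ℤ) ^ s * m := by
    rw [hH, hIm]
    push_cast
    ring
  have hmα : (m : ℤ) ∣ α := by
    have h1 : (m : ℤ) ∣ p * α := (Dvd.intro_left _ hIm'.symm).trans htor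
    have hcop : IsCoprime (m : ℤ) (p : ℤ) := by
      rw [Int.isCoprime_iff_gcd_eq_one]
      exact ((Nat.Prime.coprime_iff_not_dvd hp).2 hm).symm
    exact hcop.dvd_of_dvd_mul_left h1
  have hcop2 : IsCoprime ((p : ℤ) ^ s) (m : ℤ) := by
    apply IsCoprime.pow_left
    rw [Int.isCoprime_iff_gcd_eq_one]
    exact (Nat.Prime.coprime_iff_not_dvd hp).2 hm
  have hall : (p : ℤ) ^ s * m ∣ α := hcop2.mul_dvd (by exact_mod_cast hdvd) hmα
  rw [← hIm'] at hall
  have := Int.le_of_dvd h hall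
  omega

/-- **the points of a stable line have level zero**, all odd primes -/
theorem line_level_odd [IsGalois K L] (w : HeightOneSpectrum (𝓞 L)) {H : ℤ} {e η : L}
    (D : Dt (adv L w) 0 H e η) {A B : K} (hA : algebraMap K L A = cA e η)
    (hB : algebraMap K L B = cB e η)
    (hH : 2 * H = Nat.card (w.asIdeal.inertia (L ≃ₐ[K] L))) {p : ℕ} (hp : p.Prime) (hodd : Odd p)
    {P : Pt (cA e η) (cB e η)} (hP : p • P = 0) (hP0 : P ≠ 0)
    (hst : ∀ (σ : L ≃ₐ[K] L) (ha : rh σ (cA e η) = cA e η) (hb : rh σ (cB e η) = cB e η),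
      ∃ m : ℤ, ac two_ne_zero (rh σ) ha hb P = m • P) :
    LV (adv L w) 0 H e η P 0 := by
  obtain ⟨α, hα⟩ := LV.total D P
  have hα0 := hα.nonneg D
  rcases eq_or_lt_of_le hα0 with h | h
  · rwa [← h] at hα
  · refine level_fix w D hA hB hH hp hodd hP hP0 ?_
    intro σ ha hb hin s hs he
    refine fix_of_stable D hp hodd hP hP0 h hα hin ha hb he (k := s) ?_ (hst σ ha hb)
    intro z
    rw [iter_pow', hs]
    rfl

end

end Pool.Agent.Q19.SU
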