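import Pool.Agent.Y733.LS.Tele

/-!
# The heights of the multiples `2 ^ k P` of a point which is nonsingular at given places
-/

set_option autoImplicit false
set_option linter.unusedSectionVars false

namespace Pool.Agent.Q19.SU

open NumberField IsDedekindDomain Finset Pool.Agent.H691R3 Pool.Agent.W223.AK
open Pool.Agent.Y733.LS

variable {K : Type} [Field K] [NumberField K]

/-- the conditions at the given places: multiplicative reduction of a twist -/
structure Gw (a b : K) (v : Pr K) : Prop where
  two : fv v 2 = 1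
  three : fv v 3 = 1
  ab : fv v a ^ 3 = fv v b ^ 2
  lt : fv v (dl a b) < fv v b ^ 2

theorem Gw.one_lt {a b : K} {v : Pr K} (h : Gw a b v) (ha : a ≠ 0) (hb : b ≠ 0)
    (hD : dl a b ≠ 0) : 1 < fv v (jj a b) := by
  have h6912 : fv v (6912 : K) = 1 := by
    have : (6912 : K) = 2 ^ 8 * 3 ^ 3 := by norm_num
    rw [this, map_mul, map_pow, map_pow, h.two, h.three]
    norm_num
  rw [w_jj, h6912, one_mul, one_lt_div ((fv v).pos hD), h.ab]
  exact h.lt

open Classical in
/-- the loss at the finite places -/
noncomputable def lossW (W : Finset (Pr K)) (a b : K) (v : Pr K) : ℝ :=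
  if v ∈ W then 0 else Real.log (sz (fv v) a b ^ 6 / fv v (4 * dl a b))

theorem Fs_lossW (W : Finset (Pr K)) {a b : K} (ha : a ≠ 0) (hb : b ≠ 0) (hD : dl a b ≠ 0) :
    (Function.support (lossW W a b)).Finite := by
  have h4 : (4 : K) * dl a b ≠ 0 := mul_ne_zero (by norm_num) hD
  refine ((ne_sets ha hb 0).union (fv_support_finite h4)).subset ?_
  intro v hv
  rw [Function.mem_support] at hv
  by_contra hcon
  simp only [Set.mem_union, Set.mem_ofPred_eq, not_or, not_not, not_lt] at hcon
  obtain ⟨⟨h1, h2, _⟩, h3⟩ := hcon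
  apply hv
  unfold lossW
  split_ifs
  · rfl
  · rw [sz_one h1 h2, h3]
    norm_num

theorem Fs_W (W : Finset (Pr K)) (j : K) [DecidablePred (· ∈ W)] :
    (Function.support fun v : Pr K => if v ∈ W then Real.log (fv v j) else 0).Finite := by
  refine W.finite_toSet.subset fun v hv => ?_
  rw [Function.mem_support] at hv
  by_contra hcon
  exact hv (if_neg hcon)

theorem Sm_W (W : Finset (Pr K)) (j : K) [DecidablePred (· ∈ W)] :
    Sm (fun _ : InfinitePlace K => (0 : ℝ)) (fun v : Pr K =>
      if v ∈ W then Real.log (fv v j) else 0) = ∑ v ∈ W, Real.log (fv v j) := by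
  unfold Sm
  simp only [mul_zero, Finset.sum_const_zero, zero_add]
  rw [finsum_eq_sum_of_support_subset (s := W)]
  · exact Finset.sum_congr rfl fun v hv => if_pos hv
  · intro v hv
    rw [Function.mem_support] at hv
    by_contra hcon
    exact hv (if_neg hcon)

theorem dup_stepW {a b x : K} (ha : a ≠ 0) (hb : b ≠ 0) (hD : dl a b ≠ 0) (hG : pG a b x ≠ 0)
    {W : Finset (Pr K)} (hW : ∀ v ∈ W, Gw a b v) (hgood : ∀ v ∈ W, Good (fv v) a b x) :
    4 * Sa (Lam a b x) - Sm (lossi a b) (lossW W a b) ≤ Sa (Lam a b (pF a b x / pG a b x)) := by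
  have e1 : Sa (Lam a b (pF a b x / pG a b x)) =
      Sa (Lam a b (pF a b x / pG a b x)) + Sa (fun w => Real.log (w (pG a b x))) := by
    rw [Sa_log hG, add_zero]
  have hs1 : (Function.support fun v : Pr K => Lam a b (pF a b x / pG a b x) (fv v)).Finite :=
    Fs_Lam ha hb (pF a b x / pG a b x)
  have hs2 : (Function.support fun v : Pr K => Real.log (fv v (pG a b x))).Finite := Fs_log hG
  have hs3 : (Function.support fun v : Pr K => Lam a b x (fv v)).Finite := Fs_Lam ha hb x
  have hs4 := Fs_lossW W ha hb hD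
  have h4D : (4 : K) * dl a b ≠ 0 := mul_ne_zero (by norm_num) hD
  have e2 : Sa (Lam a b (pF a b x / pG a b x)) + Sa (fun w => Real.log (w (pG a b x))) =
      Sm (fun w => Lam a b (pF a b x / pG a b x) w.1 + Real.log (w.1 (pG a b x)))
        (fun v => Lam a b (pF a b x / pG a b x) (fv v) + Real.log (fv v (pG a b x))) := by
    rw [Sm_add hs1 hs2]
    rfl
  have e3 : 4 * Sa (Lam a b x) - Sm (lossi a b) (lossW W a b) =
      Sm (fun w => 4 * Lam a b x w.1 - lossi a b w)
        (fun v => 4 * Lam a b x (fv v) - lossW W a b v) := by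
    rw [Sm_sub (supp_mul 4 hs3) hs4, Sm_mul]
    rfl
  rw [e1, e2, e3]
  have hM : ∀ w : AbsoluteValue K ℝ, 0 < max (w x) (sz w a b) := fun w =>
    lt_max_of_lt_right (sz_pos ha)
  have hR : ∀ w : AbsoluteValue K ℝ, 0 < max (w (pF a b x)) (sz w a b * w (pG a b x)) := fun w =>
    lt_max_of_lt_right (mul_pos (sz_pos ha) (w.pos hG))
  apply Sm_mono (supp_sub (supp_mul 4 hs3) hs4) (supp_add hs1 hs2)
  · intro w
    show 4 * Real.log (max (w.1 x) (sz w.1 a b)) - lossi a b w ≤
      Real.log (max (w.1 (pF a b x / pG a b x)) (sz w.1 a b)) + Real.log (w.1 (pG a b x))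
    rw [ptw ha hG]
    have h1 := res_arch (w := w.1) (fun n => (inf_nat w n).le) (x := x) (sz_pos (b := b) ha)
      (le_sz_sq w.1 a b) (le_sz_cube w.1 a b)
    have h2 : 0 < w.1 (4 * dl a b) := w.1.pos h4D
    have h3 : 0 < sz w.1 a b := sz_pos ha
    have h4 := Real.log_le_log (by have := hM w.1; positivity) h1
    rw [Real.log_mul h2.ne' (pow_pos (hM w.1) 4).ne', Real.log_pow,
      Real.log_mul (by positivity) (hR w.1).ne'] at h4
    unfold lossi
    rw [Real.log_div (by positivity) h2.ne']
    push_cast at h4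
    linarith
  · intro v
    show 4 * Real.log (max (fv v x) (sz (fv v) a b)) - lossW W a b v ≤
      Real.log (max (fv v (pF a b x / pG a b x)) (sz (fv v) a b)) + Real.log (fv v (pG a b x))
    rw [ptw ha hG]
    have h2 : 0 < fv v (4 * dl a b) := (fv v).pos h4D
    have h3 : 0 < sz (fv v) a b := sz_pos ha
    unfold lossW
    split_ifs with hsp
    · have hw := hW v hsp
      have h1 := (good_step (fv_Na v) hw.two ha hb hw.ab hw.lt (hgood v hsp)).1
      have h4 := Real.log_le_log (by have := hM (fv v); positivity) h1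
      rw [Real.log_pow] at h4
      push_cast at h4
      linarith
    · have h1 := res_na (w := fv v) (fv_Na v) (x := x) (sz_pos (b := b) ha)
        (le_sz_sq (fv v) a b) (le_sz_cube (fv v) a b)
      have h4 := Real.log_le_log (by have := hM (fv v); positivity) h1
      rw [Real.log_mul h2.ne' (pow_pos (hM (fv v)) 4).ne', Real.log_pow,
        Real.log_mul (by positivity) (hR (fv v)).ne'] at h4
      rw [Real.log_div (by positivity) h2.ne']
      push_cast at h4
      linarith

/-- the total loss -/
theorem loss_sumW {a b : K} (ha : a ≠ 0) (hb : b ≠ 0) (hD : dl a b ≠ 0) {W : Finset (Pr K)}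
    (hW : ∀ v ∈ W, Gw a b v) :
    Sm (lossi a b) (lossW W a b) ≤ ht (jj a b) - ∑ v ∈ W, Real.log (fv v (jj a b)) +
      Module.finrank ℚ K * (Real.log 250 + Real.log ((4 * 6912 * 46656 : ℕ) : ℝ)) := by
  classical
  have hs1 := Fs_lossW W ha hb hD
  have hs2 := Fs_ht (jj a b)
  have hs3 := Fs_W W (jj a b)
  set N1 : ℕ := 4 * 6912 * 46656 with hN1
  have hN1' : N1 ≠ 0 := by norm_num [hN1]
  have hs4 : (Function.support fun v : Pr K => Real.log (fv v (N1 : K))).Finite :=
    Fs_log (K := K) (z := (N1 : K)) (Nat.cast_ne_zero.2 hN1')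
  have e1 : ht (jj a b) - ∑ v ∈ W, Real.log (fv v (jj a b)) +
      Module.finrank ℚ K * (Real.log 250 + Real.log (N1 : ℝ)) =
      Sm (fun w => (Real.log (max (w.1 (jj a b)) 1) - 0) + (Real.log 250 + 0))
        (fun v => (Real.log (max (fv v (jj a b)) 1) -
          (if v ∈ W then Real.log (fv v (jj a b)) else 0)) + (0 + -1 * Real.log (fv v (N1 : K)))) := by
    rw [Sm_add (supp_sub hs2 hs3) (supp_add (by simp) (supp_mul (-1) hs4)), Sm_sub hs2 hs3,
      Sm_add (by simp) (supp_mul (-1) hs4)]
    have e2 : Sm (fun _ : InfinitePlace K => (0 : ℝ)) (fun v : Pr K =>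
        if v ∈ W then Real.log (fv v (jj a b)) else 0) = ∑ v ∈ W, Real.log (fv v (jj a b)) := by
      exact Sm_W W (jj a b)
    have e3 : Sm (fun _ : InfinitePlace K => Real.log 250) (fun _ : Pr K => (0 : ℝ)) =
        Module.finrank ℚ K * Real.log 250 := Sm_const _
    have e4 : Sm (fun _ : InfinitePlace K => (0 : ℝ)) (fun v : Pr K =>
        -1 * Real.log (fv v (N1 : K))) = Module.finrank ℚ K * Real.log (N1 : ℝ) := by
      unfold Sm
      simp only [mul_zero, Finset.sum_const_zero, zero_add]
      have h5 := fin_nat (K := K) hN1'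
      have h6 : ∑ᶠ v : Pr K, -1 * Real.log (fv v (N1 : K)) =
          -1 * ∑ᶠ v : Pr K, Real.log (fv v (N1 : K)) := by
        rw [← smul_eq_mul, smul_finsum]
        rfl
      rw [h6, h5]
      ring
    rw [e2, e3, e4, ht_eq_Sa]
    unfold Sa
    ring
  rw [e1]
  have hd : ∀ w : AbsoluteValue K ℝ, 0 < w (dl a b) := fun w => w.pos hD
  apply Sm_mono hs1 (supp_add (supp_sub hs2 hs3) (supp_add (by simp) (supp_mul (-1) hs4)))
  · intro w
    unfold lossi
    have h6912 : w.1 (6912 : K) = 6912 := by
      have := inf_nat w 6912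
      exact_mod_cast this
    have h46656 : w.1 (46656 : K) = 46656 := by
      have := inf_nat w 46656
      exact_mod_cast this
    have h1728 : w.1 (1728 : K) = 1728 := by
      have := inf_nat w 1728
      exact_mod_cast this
    have h4 : w.1 (4 : K) = 4 := by
      have := inf_nat w 4
      exact_mod_cast this
    have hmx : 0 < max (w.1 (jj a b)) 1 := lt_max_of_lt_right one_pos
    rw [sub_zero, add_zero, ← Real.log_mul hmx.ne' (by norm_num)]
    have hsz := sz_pos (w := w.1) (b := b) ha
    apply Real.log_le_log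
    · have : 0 < w.1 (4 * dl a b) := w.1.pos (mul_ne_zero (by norm_num) hD)
      positivity
    · rw [map_mul, h4, div_le_iff₀ (by have := hd w.1; positivity), sz_six]
      have i1 := w_jj w.1 a b
      have i2 := w_jj_sub w.1 a b hD
      rw [h6912] at i1
      rw [h46656] at i2
      have j1 : w.1 a ^ 3 = w.1 (jj a b) * w.1 (dl a b) / 6912 := by
        rw [i1]
        have := (hd w.1).ne'
        field_simp
      have j2 : w.1 b ^ 2 = w.1 (jj a b - 1728) * w.1 (dl a b) / 46656 := by
        rw [i2]
        have := (hd w.1).ne'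
        field_simp
      have j3 : w.1 (jj a b - 1728) ≤ w.1 (jj a b) + 1728 := by
        have := w.1.sub_le (jj a b) 0 1728
        simp only [sub_zero, zero_sub, map_neg_eq_map] at this
        linarith
      have j4 := le_max_left (w.1 (jj a b)) 1
      have j5 := le_max_right (w.1 (jj a b)) 1
      have j6 := hd w.1
      have k1 : w.1 a ^ 3 ≤ max (w.1 (jj a b)) 1 * w.1 (dl a b) := by
        rw [j1]
        have : w.1 (jj a b) * w.1 (dl a b) ≤ max (w.1 (jj a b)) 1 * w.1 (dl a b) := by gcongr
        have : 0 ≤ w.1 (jj a b) * w.1 (dl a b) := by positivity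
        linarith
      have k2 : w.1 b ^ 2 ≤ max (w.1 (jj a b)) 1 * w.1 (dl a b) := by
        rw [j2]
        have k3 : w.1 (jj a b - 1728) ≤ 1729 * max (w.1 (jj a b)) 1 := by linarith
        have k4 : w.1 (jj a b - 1728) * w.1 (dl a b) ≤
            1729 * max (w.1 (jj a b)) 1 * w.1 (dl a b) := by gcongr
        have : 0 ≤ max (w.1 (jj a b)) 1 * w.1 (dl a b) := by positivity
        linarith
      have k5 := max_le k1 k2
      linarith
  · intro v
    have hn := fv_Na v
    have hnat : fv v (N1 : K) ≤ 1 := hn.nat N1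
    have hNpos : 0 < fv v (N1 : K) := (fv v).pos (Nat.cast_ne_zero.2 hN1')
    have hmx : 0 < max (fv v (jj a b)) 1 := lt_max_of_lt_right one_pos
    have hlogN : Real.log (fv v (N1 : K)) ≤ 0 := Real.log_nonpos hNpos.le hnat
    unfold lossW
    split_ifs with hsp
    · have h1 : max (fv v (jj a b)) 1 = fv v (jj a b) :=
        max_eq_left ((hW v hsp).one_lt ha hb hD).le
      show 0 ≤ Real.log (max (fv v (jj a b)) 1) - Real.log (fv v (jj a b)) +
        (0 + -1 * Real.log (fv v (N1 : K)))
      rw [h1]
      linarith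
    · have hsz := sz_pos (w := fv v) (b := b) ha
      have h4D : 0 < fv v (4 * dl a b) := (fv v).pos (mul_ne_zero (by norm_num) hD)
      have goal : Real.log (sz (fv v) a b ^ 6 / fv v (4 * dl a b)) ≤
          Real.log (max (fv v (jj a b)) 1 / fv v (N1 : K)) := by
        apply Real.log_le_log (by positivity)
        have n4 : fv v (4 : K) ≤ 1 := hn.ofNat 4
        have n6912 : fv v (6912 : K) ≤ 1 := hn.ofNat 6912
        have n46656 : fv v (46656 : K) ≤ 1 := hn.ofNat 46656
        have p4 : 0 < fv v (4 : K) := (fv v).pos (by norm_num)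
        have p6912 : 0 < fv v (6912 : K) := (fv v).pos (by norm_num)
        have p46656 : 0 < fv v (46656 : K) := (fv v).pos (by norm_num)
        have eN : fv v (N1 : K) = fv v 4 * fv v 6912 * fv v 46656 := by
          rw [← map_mul, ← map_mul]
          congr 1
          norm_num [hN1]
        rw [map_mul, div_le_div_iff₀ (by have := hd (fv v); positivity) hNpos, eN, sz_six]
        have j6 := hd (fv v)
        have i1 := w_jj (fv v) a b
        have i2 := w_jj_sub (fv v) a b hD
        have j1 : fv v 6912 * fv v a ^ 3 = fv v (jj a b) * fv v (dl a b) := by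
          rw [i1]
          have := j6.ne'
          field_simp
        have j2 : fv v 46656 * fv v b ^ 2 = fv v (jj a b - 1728) * fv v (dl a b) := by
          rw [i2]
          have := j6.ne'
          field_simp
        have j3 : fv v (jj a b - 1728) ≤ max (fv v (jj a b)) 1 := by
          refine (hn.sub _ _).trans (max_le_max le_rfl ?_)
          exact hn.ofNat 1728
        have j4 := le_max_left (fv v (jj a b)) 1
        set m := max (fv v (jj a b)) 1 with hm
        have k1 : fv v a ^ 3 * (fv v 4 * fv v 6912 * fv v 46656) ≤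
            m * (fv v 4 * fv v (dl a b)) := by
          calc fv v a ^ 3 * (fv v 4 * fv v 6912 * fv v 46656)
              = (fv v 6912 * fv v a ^ 3) * (fv v 4 * fv v 46656) := by ring
            _ = fv v (jj a b) * fv v (dl a b) * (fv v 4 * fv v 46656) := by rw [j1]
            _ ≤ m * fv v (dl a b) * (fv v 4 * 1) := by gcongr
            _ = _ := by ring
        have k2 : fv v b ^ 2 * (fv v 4 * fv v 6912 * fv v 46656) ≤
            m * (fv v 4 * fv v (dl a b)) := by
          calc fv v b ^ 2 * (fv v 4 * fv v 6912 * fv v 46656)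
              = (fv v 46656 * fv v b ^ 2) * (fv v 4 * fv v 6912) := by ring
            _ = fv v (jj a b - 1728) * fv v (dl a b) * (fv v 4 * fv v 6912) := by rw [j2]
            _ ≤ m * fv v (dl a b) * (fv v 4 * 1) := by gcongr
            _ = _ := by ring
        rcases max_choice (fv v a ^ 3) (fv v b ^ 2) with h | h
        · rw [h]; exact k1
        · rw [h]; exact k2
      rw [Real.log_div hmx.ne' hNpos.ne'] at goal
      linarith


/-- the constant -/
noncomputable def C5 : ℝ :=
  1 / 2 * Real.log 6912 + (Real.log 250 + Real.log ((4 * 6912 * 46656 : ℕ) : ℝ))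

/-- **a periodic sequence of duplications** -/
theorem periodic {a b : K} (ha : a ≠ 0) (hb : b ≠ 0) (hD : dl a b ≠ 0) {W : Finset (Pr K)}
    (hW : ∀ v ∈ W, Gw a b v) {x : ℕ → K} (hG : ∀ k, pG a b (x k) ≠ 0)
    (hx : ∀ k, x (k + 1) = pF a b (x k) / pG a b (x k)) {m : ℕ} (hm : 0 < m)
    (hper : ∀ k, x (k + m) = x k) (hgood : ∀ v ∈ W, Good (fv v) a b (x 0)) :
    ∑ v ∈ W, Real.log (fv v (jj a b)) ≤ 1 / 2 * ht (jj a b) + Module.finrank ℚ K * C5 := by
  classical
  have hg : ∀ k, ∀ v ∈ W, Good (fv v) a b (x k) := by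
    intro k
    induction k with
    | zero => exact hgood
    | succ k ih =>
      intro v hv
      rw [hx k]
      exact (good_step (fv_Na v) (hW v hv).two ha hb (hW v hv).ab (hW v hv).lt (ih v hv)).2 (hG k)
  obtain ⟨k, hk, hmax⟩ := Finset.exists_max_image (Finset.range m) (fun k => Sa (Lam a b (x k)))
    ⟨0, Finset.mem_range.2 hm⟩
  have hall : ∀ n, Sa (Lam a b (x n)) ≤ Sa (Lam a b (x k)) := by
    intro n
    have e : x n = x (n % m) := by
      have h1 : ∀ t r : ℕ, x (r + m * t) = x r := by
        intro t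
        induction t with
        | zero => intro r; rfl
        | succ t ih =>
          intro r
          rw [Nat.mul_succ, ← add_assoc, hper, ih]
      conv_lhs => rw [← Nat.mod_add_div n m]
      exact h1 _ _
    rw [e]
    exact hmax _ (Finset.mem_range.2 (Nat.mod_lt _ hm))
  have h1 := dup_stepW ha hb hD (hG k) hW (hg k)
  rw [← hx k] at h1
  have h2 := hall (k + 1)
  have h3 := loss_sumW ha hb hD hW
  have h4 := sz_sum ha hb hD
  have h5 : Sa (fun w => Real.log (sz w a b)) ≤ Sa (Lam a b (x k)) := by
    unfold Sa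
    exact Sm_mono (Fs_sz ha hb) (Fs_Lam ha hb (x k))
      (fun w => Real.log_le_log (sz_pos ha) (le_max_right _ _))
      (fun v => Real.log_le_log (sz_pos ha) (le_max_right _ _))
  unfold C5
  generalize Real.log ((4 * 6912 * 46656 : ℕ) : ℝ) = l1 at h3 ⊢
  generalize Real.log 6912 = l2 at h4 ⊢
  generalize Real.log 250 = l3 at h3 ⊢
  generalize (Module.finrank ℚ K : ℝ) = n at h3 h4 ⊢
  nlinarith

end Pool.Agent.Q19.SU
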