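import Pool.Agent.W223.AK.Point

/-!
# The places above given places
-/

set_option autoImplicit false

namespace Pool.Agent.Q19.SU

open NumberField IsDedekindDomain Pool.Agent.H691R3 Pool.Agent.W223.AK
open scoped Classical

section

variable {k L : Type} [Field k] [NumberField k] [Field L] [NumberField L] [Algebra k L]

/-- the local degree -/
noncomputable def ldeg (v : Pr k) (w : Pr L) : ℕ :=
  v.asIdeal.ramificationIdx' w.asIdeal * v.asIdeal.inertiaDeg' w.asIdeal

lemma toNNReal_pow {e e' : NNReal} (he : e ≠ 0) (he' : e' ≠ 0) (f : ℕ) (h : e' = e ^ f)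
    (x : WithZero (Multiplicative ℤ)) :
    WithZeroMulInt.toNNReal he' x = WithZeroMulInt.toNNReal he x ^ (f : ℤ) ∨ x = 0 := by
  by_cases hx : x = 0
  · exact Or.inr hx
  · left
    rw [WithZeroMulInt.toNNReal_neg_apply he' hx, WithZeroMulInt.toNNReal_neg_apply he hx, h,
      ← zpow_natCast, ← zpow_mul, ← zpow_mul, mul_comm]

lemma ldeg_pos (v : Pr k) (w : Pr L) (hw : w.asIdeal.LiesOver v.asIdeal) : 0 < ldeg v w := by
  have hmax : v.asIdeal.IsMaximal := v.isMaximal
  refine Nat.mul_pos (Nat.pos_of_ne_zero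
    (Ideal.IsDedekindDomain.ramificationIdx'_ne_zero_of_liesOver w.asIdeal v.ne_bot)) ?_
  have hN := Ideal.absNorm_eq_pow_inertiaDeg'_of_liesOver w.asIdeal v.asIdeal v.isPrime v.ne_bot
  rcases Nat.eq_zero_or_pos (v.asIdeal.inertiaDeg' w.asIdeal) with h | h
  · exfalso
    rw [h, pow_zero] at hN
    have := HeightOneSpectrum.one_lt_absNorm w
    omega
  · exact h

/-- the absolute value of an element of `k` at a prime of `L` -/
lemma fv_ext (v : Pr k) (w : Pr L) (hw : w.asIdeal.LiesOver v.asIdeal) (z : k) :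
    fv w (algebraMap k L z) = fv v z ^ (ldeg v w) := by
  by_cases hz : z = 0
  · subst hz
    rw [map_zero, map_zero, map_zero, zero_pow (ldeg_pos v w hw).ne']
  have hz' : v.valuation k z ≠ 0 := (Valuation.ne_zero_iff _).2 hz
  have hN : (Ideal.absNorm w.asIdeal : NNReal) = (Ideal.absNorm v.asIdeal : NNReal) ^
      (v.asIdeal.inertiaDeg' w.asIdeal) := by
    have := Ideal.absNorm_eq_pow_inertiaDeg'_of_liesOver w.asIdeal v.asIdeal v.isPrime v.ne_bot
    rw [this]
    push_cast
    rfl
  have e1 : fv w (algebraMap k L z) = (WithZeroMulInt.toNNReal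
      (NumberField.HeightOneSpectrum.absNorm_ne_zero w) (w.valuation L (algebraMap k L z)) : ℝ) :=
    FinitePlace.norm_embedding' (v := w) (x := algebraMap k L z)
  have e2 : fv v z = (WithZeroMulInt.toNNReal
      (NumberField.HeightOneSpectrum.absNorm_ne_zero v) (v.valuation k z) : ℝ) :=
    FinitePlace.norm_embedding' (v := v) (x := z)
  rw [e1, e2, ← HeightOneSpectrum.valuation_liesOver L v w, map_pow]
  rcases toNNReal_pow (NumberField.HeightOneSpectrum.absNorm_ne_zero v)
    (NumberField.HeightOneSpectrum.absNorm_ne_zero w) _ hN (v.valuation k z) with h3 | h3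
  · rw [h3]
    unfold ldeg
    push_cast
    rw [zpow_natCast, ← pow_mul, mul_comm]
  · exact absurd h3 hz'

variable (L) in
lemma exists_above (v : Pr k) : ∃ W : Finset (Pr L), (∀ w ∈ W, w.asIdeal.LiesOver v.asIdeal) ∧
    ∑ w ∈ W, ldeg v w = Module.finrank k L := by
  have hmax : v.asIdeal.IsMaximal := v.isMaximal
  have h1 := Ideal.sum_ramification_inertia (𝓞 L) k L (p := v.asIdeal) v.ne_bot
  have hm : ∀ P ∈ IsDedekindDomain.primesOverFinset v.asIdeal (𝓞 L), P.IsPrime ∧ P.LiesOver v.asIdeal := fun P hP =>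
    (IsDedekindDomain.mem_primesOverFinset_iff v.ne_bot _).1 hP
  set f : {P // P ∈ IsDedekindDomain.primesOverFinset v.asIdeal (𝓞 L)} → Pr L := fun P =>
    ⟨P.1, (hm P.1 P.2).1, by
      have h2 := (hm P.1 P.2).2
      exact Ideal.ne_bot_of_liesOver_of_ne_bot v.ne_bot P.1⟩ with hf
  refine ⟨(IsDedekindDomain.primesOverFinset v.asIdeal (𝓞 L)).attach.image f, ?_, ?_⟩
  · intro w hw
    obtain ⟨P, -, rfl⟩ := Finset.mem_image.1 hw
    exact (hm P.1 P.2).2
  · rw [Finset.sum_image]
    · rw [← h1, ← Finset.sum_attach (IsDedekindDomain.primesOverFinset v.asIdeal (𝓞 L))]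
      rfl
    · intro P _ Q _ h
      exact Subtype.ext (congrArg HeightOneSpectrum.asIdeal h)

variable (L) in
/-- the places above a finite set of places -/
theorem above_sum (V : Finset (Pr k)) : ∃ W : Finset (Pr L),
    (∀ w ∈ W, ∃ v ∈ V, w.asIdeal.LiesOver v.asIdeal) ∧
    ∀ z : k, ∑ w ∈ W, Real.log (fv w (algebraMap k L z)) =
      Module.finrank k L * ∑ v ∈ V, Real.log (fv v z) := by
  choose F hF1 hF2 using fun v : Pr k => exists_above L v
  refine ⟨V.biUnion F, ?_, fun z => ?_⟩
  · intro w hw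
    obtain ⟨v, hv, hwv⟩ := Finset.mem_biUnion.1 hw
    exact ⟨v, hv, hF1 v w hwv⟩
  · rw [Finset.sum_biUnion]
    · rw [Finset.mul_sum]
      refine Finset.sum_congr rfl fun v _ => ?_
      rw [← hF2 v]
      push_cast
      rw [Finset.sum_mul]
      refine Finset.sum_congr rfl fun w hw => ?_
      rw [fv_ext v w (hF1 v w hw), Real.log_pow]
    · intro v _ v' _ hne
      rw [Function.onFun, Finset.disjoint_left]
      intro w hw hw'
      apply hne
      have h1 := (hF1 v w hw).over
      have h2 := (hF1 v' w hw').over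
      exact HeightOneSpectrum.ext (h1.trans h2.symm)

end

end Pool.Agent.Q19.SU
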