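import Pool.Agent.Q19.SU.Line3
import Pool.Agent.Q19.SU.NoL
import Pool.Agent.Q19.SU.Tel
import Pool.Agent.Q19.SU.Up
import Pool.Agent.Y733.LS.Pts
import Pool.Agent.Y733.LS.Cnt
import Pool.Agent.Y673.FM.Main
import Pool.Agent.Y673.Cnt.Basic
import Pool.Agent.Y673.DK.Comp

/-!
# No stable line in the `p`-torsion when the height of `j` comes from simple poles, all odd primes
-/

set_option autoImplicit false

namespace Pool.Agent.Q19.SU

open WeierstrassCurve NumberField IsDedekindDomain Pool.Agent.H901R3.MS Pool.Agent.Y673.Loc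
open Pool.Agent.Y673.Loc.ZV Pool.Agent.W275.FM Pool.Agent.W275.FMK Pool.Agent.Y673.FM
open Pool.Agent.H691R3 Pool.Agent.W223.AK Pool.Agent.Y733.LS Pool.Agent.TH942

section good
variable {L : Type} [Field L] [NumberField L] [DecidableEq L]

theorem line_level2_odd {K : Type} [Field K] [NumberField K] [Algebra K L] [IsGalois K L] (w : Pr L)
    {H : ℤ} {e η : L} (D : Dt (adv L w) 0 H e η) {A B : K} {a b : L} (hA : algebraMap K L A = a)
    (hB : algebraMap K L B = b) (ha : a = cA e η) (hb : b = cB e η)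
    (hH : 2 * H = Nat.card (w.asIdeal.inertia (L ≃ₐ[K] L))) {p : ℕ} (hp : p.Prime) (hodd : Odd p)
    {x y : L} {hn : (CV a b).toAffine.Nonsingular x y}
    (hP : p • (Affine.Point.some x y hn : Pt a b) = 0)
    (hst : ∀ (σ : L ≃ₐ[K] L) (ha : rh σ a = a) (hb : rh σ b = b),
      ∃ m : ℤ, ac two_ne_zero (rh σ) ha hb (Affine.Point.some x y hn : Pt a b) =
        m • (Affine.Point.some x y hn : Pt a b))
    (h2 : fv w 2 = 1) (h3 : fv w 3 = 1) : Good (fv w) a b x := by
  subst ha hb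
  have h := line_level_odd w D hA hB hH hp hodd hP (Affine.Point.some_ne_zero hn) hst
  exact good_of_NN D h2 h3 h

end good

section main
variable {K : Type} [Field K] [NumberField K]

open scoped Classical in
/-- **no stable line** -/
theorem no_line_odd {A B : K} (hD : 4 * A ^ 3 + 27 * B ^ 2 ≠ 0) {p : ℕ} (hp : p.Prime) (hodd : Odd p)
    (hA0 : A ≠ 0) (hB0 : B ≠ 0) {η : ℝ} (hη : η < 1 / 2)
    (hsp : (1 - η) * ht (jj A B) ≤ sp (jj A B))
    (hht : Module.finrank ℚ K * C5 < (1 / 2 - η) * ht (jj A B))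
    {v₀ : Pt (ca (AlgebraicClosure K) A) (ca (AlgebraicClosure K) B)} (hv : p • v₀ = 0)
    (hv0 : v₀ ≠ 0)
    (hst : ∀ τ : AlgebraicClosure K ≃ₐ[K] AlgebraicClosure K,
      mp A B (τ : AlgebraicClosure K →ₐ[K] AlgebraicClosure K) v₀ ∈ AddSubgroup.zmultiples v₀) :
    False := by
  set Kb := AlgebraicClosure K with hKb
  haveI : CharZero Kb := charZero_of_injective_algebraMap (algebraMap K Kb).injective
  have hp3 : 3 ≤ p := by
    have h2 := hp.two_le
    obtain ⟨t, ht⟩ := hodd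
    omega
  have disc_of : Disc (ca Kb A) (ca Kb B) := by
    unfold Disc ca
    refine mul_ne_zero two_ne_zero ?_
    have e : (4 : Kb) * (algebraMap K Kb A) ^ 3 + 27 * (algebraMap K Kb B) ^ 2 =
        algebraMap K Kb (4 * A ^ 3 + 27 * B ^ 2) := by
      simp only [map_mul, map_add, map_pow, map_ofNat]
    rw [e]
    exact (map_ne_zero _).2 hD
  obtain ⟨fin1, -⟩ := Mul.tor Kb (ca Kb A) (ca Kb B) disc_of p (by omega)
  set g₃ : Polynomial K := Polynomial.X ^ 3 + Polynomial.C A * Polynomial.X +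
    Polynomial.C B with hg₃
  have d₃ : g₃.natDegree = 3 := by rw [hg₃]; compute_degree!
  have n₃ : g₃ ≠ 0 := by intro h; rw [h, Polynomial.natDegree_zero] at d₃; omega
  have finz : {z : Kb | Polynomial.aeval z g₃ = 0}.Finite := by
    have hg' : g₃.map (algebraMap K Kb) ≠ 0 :=
      (Polynomial.map_ne_zero_iff (algebraMap K Kb).injective).2 n₃
    refine Set.Finite.subset (g₃.map (algebraMap K Kb)).roots.toFinset.finite_toSet ?_
    intro z hz
    rw [Finset.mem_coe, Multiset.mem_toFinset, Polynomial.mem_roots hg', Polynomial.IsRoot.def,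
      Polynomial.eval_map_algebraMap]
    exact hz
  have stab : ∀ (σ : Kb ≃ₐ[K] Kb) (z : Kb), Polynomial.aeval z g₃ = 0 →
      Polynomial.aeval (σ z) g₃ = 0 := by
    intro σ z hz
    have e : Polynomial.aeval (σ z) g₃ = σ (Polynomial.aeval z g₃) :=
      Polynomial.aeval_algHom_apply (σ : Kb →ₐ[K] Kb) z g₃
    rw [e, hz, map_zero]
  obtain ⟨L, iF, iN, iA, iG, ι, hι, hτσ⟩ := Pool.Agent.W150.FMK.Fld.main K
    ((crd A B p : Set Kb) ∪ {z : Kb | Polynomial.aeval z g₃ = 0})
    ((crd_finite A B p fin1).union finz) (by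
      rintro σ z (hz | hz)
      · exact Or.inl (crd_map A B p (σ : Kb →ₐ[K] Kb) hz)
      · exact Or.inr (stab σ z hz))
  have ev₃ : ∀ z : Kb, Polynomial.aeval z g₃ = z ^ 3 + ca Kb A * z + ca Kb B := by
    intro z; rw [hg₃]; simp [ca]
  obtain ⟨e₁, e₂, e₃, hsumL, l12, l23, l13, hAL, hBL⟩ := cubic_data A B hD ι (by
    intro z hz
    exact hι z (Or.inr (by
      show Polynomial.aeval z g₃ = 0
      rw [ev₃]; exact hz)))
  -- the point over `L`
  rcases v₀ with _ | ⟨X, Y, hXY⟩
  · exact hv0 rfl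
  obtain ⟨x', rfl⟩ := hι X (Or.inl ⟨X, Y, hXY, hv, Or.inl rfl⟩)
  obtain ⟨y', rfl⟩ := hι Y (Or.inl ⟨_, Y, hXY, hv, Or.inr rfl⟩)
  have hn : (CV (ca L A) (ca L B)).toAffine.Nonsingular x' y' := ns_desc A B ι hXY
  have hpP : p • (Affine.Point.some x' y' hn : Pt (ca L A) (ca L B)) = 0 :=
    (tors_map A B ι p hn hXY).1 hv
  have hstL : ∀ (σ : L ≃ₐ[K] L) (ha : rh σ (ca L A) = ca L A) (hb : rh σ (ca L B) = ca L B),
      ∃ m : ℤ, ac two_ne_zero (rh σ) ha hb (Affine.Point.some x' y' hn : Pt (ca L A) (ca L B)) =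
        m • (Affine.Point.some x' y' hn : Pt (ca L A) (ca L B)) := by
    intro σ ha hb
    obtain ⟨τ, hτ, -⟩ := hτσ σ
    obtain ⟨m, hm⟩ := AddSubgroup.mem_zmultiples_iff.1 (hst τ)
    refine ⟨m, ?_⟩
    apply mp_injective A B ι
    rw [map_zsmul, mp_some A B ι hn, ac_some, mp_some A B ι]
    refine Eq.trans ?_ hm.symm
    rw [mp_some, Affine.Point.some.injEq]
    exact ⟨hτ x', hτ y'⟩
  -- the places
  have hj0 : jj A B ≠ 0 := by
    unfold jj
    exact div_ne_zero (mul_ne_zero (by norm_num) (pow_ne_zero 3 hA0)) hD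
  have hjL : jr e₁ e₂ e₃ = algebraMap K L (jj A B) := by
    unfold jr jj
    have hDL : algebraMap K L (4 * A ^ 3 + 27 * B ^ 2) =
        -((e₁ - e₂) * (e₂ - e₃) * (e₃ - e₁)) ^ 2 := by
      simp only [map_mul, map_add, map_pow, map_ofNat]
      rw [hAL, hBL]
      have : e₃ = -e₁ - e₂ := by linear_combination hsumL
      rw [this]; ring
    have hdL : ((e₁ - e₂) * (e₂ - e₃) * (e₃ - e₁)) ≠ 0 :=
      mul_ne_zero (mul_ne_zero (sub_ne_zero.2 l12) (sub_ne_zero.2 l23)) (sub_ne_zero.2 l13.symm)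
    rw [map_div₀, hDL]
    simp only [map_mul, map_pow, map_ofNat]
    rw [hAL]
    have : e₃ = -e₁ - e₂ := by linear_combination hsumL
    subst this
    rw [div_eq_div_iff (pow_ne_zero 2 hdL) (neg_ne_zero.2 (pow_ne_zero 2 hdL))]
    ring
  obtain ⟨V, hV⟩ : ∃ V : Finset (Pr K), ∀ v, v ∈ V ↔ Sp (jj A B) v := by
    have hfin : {v : Pr K | Sp (jj A B) v}.Finite := by
      refine (Fs_sp (jj A B)).subset fun v hv => ?_
      rw [Function.mem_support, if_pos (show Sp (jj A B) v from hv)]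
      exact (Pool.Agent.H691R3.log_Nv_pos v).ne'
    exact ⟨hfin.toFinset, fun v => by rw [Set.Finite.mem_toFinset]; rfl⟩
  obtain ⟨W, hW1, hW2⟩ := above_sum L V
  have hlocal : ∀ w ∈ W, Gw (ca L A) (ca L B) w ∧ Good (fv w) (ca L A) (ca L B) x' := by
    intro w hw
    obtain ⟨v, hvV, hwv⟩ := hW1 w hw
    have hS := (hV v).1 hvV
    obtain ⟨f1, f2⟩ := sp_facts (a := A) (b := B) hD hS
    have hdeg := ldeg_pos v w hwv
    have ext := fv_ext v w hwv
    have g2 : fv w (2 : L) = 1 := by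
      have := ext 2
      rwa [map_ofNat, hS.1, one_pow] at this
    have g3 : fv w (3 : L) = 1 := by
      have := ext 3
      rwa [map_ofNat, hS.2.1, one_pow] at this
    have gA : fv w (ca L A) = fv v A ^ ldeg v w := ext A
    have gB : fv w (ca L B) = fv v B ^ ldeg v w := ext B
    have gD : fv w (dl (ca L A) (ca L B)) = fv v (dl A B) ^ ldeg v w := by
      have e : dl (ca L A) (ca L B) = algebraMap K L (dl A B) := by
        unfold dl ca
        simp only [map_mul, map_add, map_pow, map_ofNat]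
      rw [e]
      exact ext _
    refine ⟨⟨g2, g3, ?_, ?_⟩, ?_⟩
    · rw [gA, gB, ← pow_mul, ← pow_mul, mul_comm _ 3, mul_comm _ 2, pow_mul, pow_mul, f1]
    · rw [gD, gB, ← pow_mul, mul_comm _ 2, pow_mul]
      have hN := Nv_one_lt v
      have hBp : 0 < fv v B ^ 2 := pow_pos ((fv v).pos hB0) 2
      have hlt : fv v (dl A B) < fv v B ^ 2 := by
        rw [f2]
        have h6 : (Nv v)⁻¹ < 1 := inv_lt_one_of_one_lt₀ hN
        nlinarith
      exact pow_lt_pow_left₀ hlt (apply_nonneg _ _) hdeg.ne'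
    · obtain ⟨v', hv', hadv⟩ := adv_w K L w
      have hvv : v' = v := by
        apply HeightOneSpectrum.ext
        rw [hv']
        exact hwv.over.symm
      subst hvv
      obtain ⟨a2, a3, aj⟩ : (adv K v').v 2 = 0 ∧ (adv K v').v 3 = 0 ∧
          (adv K v').v (jj A B) = -1 := by
        obtain ⟨h2, h3, hj⟩ := hS
        refine ⟨(Pool.Agent.Y673.Cnt.fv_eq_one_iff v' two_ne_zero).1 h2,
          (Pool.Agent.Y673.Cnt.fv_eq_one_iff v' three_ne_zero).1 h3, ?_⟩
        rw [Pool.Agent.Y673.Cnt.fv_adv v' hj0] at hj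
        have hN := Nv_one_lt v'
        have h1 : (Nv v') ^ (-(adv K v').v (jj A B)) = (Nv v') ^ (1 : ℤ) := by rw [hj, zpow_one]
        have h2 := zpow_right_injective₀ (by linarith) hN.ne' h1
        omega
      set c : ℤ := (Nat.card (w.asIdeal.inertia (L ≃ₐ[K] L)) : ℤ) with hc
      have hc1 : 1 ≤ c := by
        rw [hc]
        haveI : Finite (L ≃ₐ[K] L) := inferInstance
        exact_mod_cast Nat.card_pos (α := w.asIdeal.inertia (L ≃ₐ[K] L))
      have h2L : (adv L w).E 0 (2 : L) := by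
        refine ⟨two_ne_zero, ?_⟩
        have := hadv 2
        rwa [map_ofNat, a2, mul_zero] at this
      have hEj : (adv L w).E (-c) (jr e₁ e₂ e₃) := by
        rw [hjL]
        refine ⟨(map_ne_zero _).2 hj0, ?_⟩
        rw [hadv, aj]
        ring
      obtain ⟨e, t, H, D, hH, hcA, hcB⟩ := root_data le_rfl h2L (by norm_num) hsumL l12 l23 l13
        (by omega) hEj
      refine line_level2_odd w D (A := A) (B := B) rfl rfl (hAL.trans hcA) (hBL.trans hcB)
        (by rw [hH, neg_neg]) hp hodd hpP hstL g2 g3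
  -- the multiples
  have hDL0 : dl (ca L A) (ca L B) ≠ 0 := by
    have e : dl (ca L A) (ca L B) = algebraMap K L (dl A B) := by
      unfold dl ca
      simp only [map_mul, map_add, map_pow, map_ofNat]
    rw [e]
    exact (map_ne_zero _).2 hD
  have hAL0 : ca L A ≠ 0 := (map_ne_zero (algebraMap K L)).2 hA0
  have hBL0 : ca L B ≠ 0 := (map_ne_zero (algebraMap K L)).2 hB0
  obtain ⟨P, hP⟩ : ∃ P : SPt (ca L A) (ca L B), P = Affine.Point.some x' y' hn := ⟨_, rfl⟩
  have hpP' : p • P = 0 := by rw [hP]; exact hpP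
  have hP0 : P ≠ 0 := by rw [hP]; exact Affine.Point.some_ne_zero hn
  have hcop : ∀ k : ℕ, (2 ^ k : ℕ) • P ≠ 0 := by
    intro k h
    apply hP0
    have hc : Nat.Coprime (2 ^ k) p := by
      apply Nat.Coprime.pow_left
      rw [Nat.coprime_two_left]
      exact hodd
    have h1 : IsOfFinAddOrder P := isOfFinAddOrder_iff_nsmul_eq_zero.2 ⟨p, hp.pos, hpP'⟩
    have h2 : addOrderOf P ∣ p := addOrderOf_dvd_of_nsmul_eq_zero hpP'
    have h3 : addOrderOf P ∣ 2 ^ k := addOrderOf_dvd_of_nsmul_eq_zero h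
    have h4 : addOrderOf P ∣ 1 := by
      rw [← hc]
      exact Nat.dvd_gcd h3 h2
    exact AddMonoid.addOrderOf_eq_one_iff.1 (Nat.dvd_one.1 h4)
  have hex : ∀ k : ℕ, ∃ (x y : L) (h : (sw (ca L A) (ca L B)).toAffine.Nonsingular x y),
      (2 ^ k : ℕ) • P = Affine.Point.some x y h := fun k => exists_coord _ (hcop k)
  choose x y h hxy using hex
  have hy : ∀ k, y k ≠ 0 := by
    intro k h0
    apply hcop (k + 1)
    rw [pow_succ, mul_comm, mul_smul, hxy k]
    exact dup_zero (h k) h0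
  have hG : ∀ k, pG (ca L A) (ca L B) (x k) ≠ 0 := fun k => (dup_some (h k) (hy k)).1
  have hx : ∀ k, x (k + 1) = pF (ca L A) (ca L B) (x k) / pG (ca L A) (ca L B) (x k) := by
    intro k
    obtain ⟨_, y', h', e⟩ := dup_some (h k) (hy k)
    have e1 : (2 ^ (k + 1) : ℕ) • P = Affine.Point.some _ y' h' := by
      rw [pow_succ, mul_comm, mul_smul, hxy k, e]
    rw [hxy (k + 1)] at e1
    injection e1
  have hx0 : x 0 = x' := by
    have h1 := hxy 0
    rw [pow_zero, one_smul, hP] at h1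
    injection h1 with h2 h3
    exact h2.symm
  have hper : ∀ k, x (k + (p - 1)) = x k := by
    intro k
    have h1 : (2 ^ (k + (p - 1)) : ℕ) • P = (2 ^ k : ℕ) • P := by
      have h2 : 2 ^ (p - 1) ≡ 1 [MOD p] := by
        have h3 : Nat.Coprime 2 p := by rw [Nat.coprime_two_left]; exact hodd
        have h4 := Nat.ModEq.pow_totient h3
        rwa [Nat.totient_prime hp] at h4
      have h3 : 2 ^ (k + (p - 1)) ≡ 2 ^ k [MOD p] := by
        rw [pow_add]
        simpa using h2.mul_left (2 ^ k)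
      have h4 : addOrderOf P ∣ p := addOrderOf_dvd_of_nsmul_eq_zero hpP'
      exact (nsmul_eq_nsmul_iff_modEq).2 (h3.of_dvd h4)
    rw [hxy, hxy] at h1
    injection h1
  have hfinal := periodic hAL0 hBL0 hDL0 (fun w hw => (hlocal w hw).1) hG hx
    (m := p - 1) (by omega) hper (fun w hw => by rw [hx0]; exact (hlocal w hw).2)
  have hjj : jj (ca L A) (ca L B) = algebraMap K L (jj A B) := by
    unfold jj ca
    simp only [map_div₀, map_mul, map_add, map_pow, map_ofNat]
  rw [hjj, hW2] at hfinal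
  have hhtL : ht (algebraMap K L (jj A B)) = Module.finrank K L * ht (jj A B) := by
    have h1 := Pool.Agent.Y673.DK.ht_ext K L (jj A B)
    rw [logHeight_eq, ← ht_eq_Sa, logHeight_eq, ← ht_eq_Sa] at h1
    exact h1
  have hspV : ∑ v ∈ V, Real.log (fv v (jj A B)) = sp (jj A B) := by
    rw [sp_eq (jj A B) V (fun v hv => (hV v).2 hv)]
    refine Finset.sum_congr rfl fun v hv => ?_
    have hS := (hV v).1 hv
    rw [if_pos hS, hS.2.2]
  have hfr : (Module.finrank ℚ L : ℝ) = Module.finrank ℚ K * Module.finrank K L := by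
    exact_mod_cast (Module.finrank_mul_finrank ℚ K L).symm
  have hm0 : (0 : ℝ) < Module.finrank K L := by
    haveI : FiniteDimensional K L := Module.Finite.of_restrictScalars_finite ℚ K L
    exact_mod_cast Module.finrank_pos
  rw [hhtL, hspV, hfr] at hfinal
  have h7 : (Module.finrank K L : ℝ) * sp (jj A B) ≤
      Module.finrank K L * (1 / 2 * ht (jj A B) + Module.finrank ℚ K * C5) := by linarith
  have h8 := le_of_mul_le_mul_left h7 hm0
  nlinarith

end main

end Pool.Agent.Q19.SU
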