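import Pool.Agent.Q19.JL.LS
import Pool.Agent.Y673.Cnt.Basic
import Pool.Agent.Y673.Loc.Glue
import Pool.Agent.Y673.Loc.Bound

/-!
# Simple poles of the invariant and elements of order `p`, all heights
-/

set_option autoImplicit false

namespace Pool.Agent.Q19.SU

open NumberField IsDedekindDomain Finset Pool.Agent.H691R3
open Pool.Agent.TH876.Loc (Pr)
open Pool.Agent.Y673.Loc
open Pool.Agent.Y733.LS (Sp sp)
open Pool.Agent.W223.AK (ht)
open Pool.Agent.Q19.JL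

variable {K : Type} [Field K] [NumberField K]

/-- the valuations at a simple pole -/
theorem adv_sp {j : K} {v : Pr K} (h0 : j ≠ 0) (h : Sp j v) :
    (adv K v).v 2 = 0 ∧ (adv K v).v 3 = 0 ∧ (adv K v).v j = -1 := by
  obtain ⟨h2, h3, hj⟩ := h
  refine ⟨(Pool.Agent.Y673.Cnt.fv_eq_one_iff v two_ne_zero).1 h2,
    (Pool.Agent.Y673.Cnt.fv_eq_one_iff v three_ne_zero).1 h3, ?_⟩
  rw [Pool.Agent.Y673.Cnt.fv_adv v h0] at hj
  have hN := Pool.Agent.W223.AK.Nv_one_lt v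
  have h1 : (Nv v) ^ (-(adv K v).v j) = (Nv v) ^ (1 : ℤ) := by rw [hj, zpow_one]
  have h2 := zpow_right_injective₀ (by linarith) hN.ne' h1
  omega

open Classical in
theorem exists_sp {j : K} (h : 0 < sp j) : ∃ v, Sp j v := by
  by_contra hc
  push Not at hc
  unfold Pool.Agent.Y733.LS.sp at h
  rw [finsum_eq_zero_of_forall_eq_zero fun v => if_neg (hc v)] at h
  exact lt_irrefl _ h

/-- some element of the Galois group acts with order `p` on the points killed by `p`, for all primes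
`p` and all curves of invariant `j` -/
theorem ord_of {j : K} (h0 : j ≠ 0) (h : 0 < sp j) (A B : K) (hD : 4 * A ^ 3 + 27 * B ^ 2 ≠ 0)
    (hj : jv A B = j) {p : ℕ} (hp : p.Prime) (h5 : 5 ≤ p)
    (hd : 8 * Module.finrank ℚ K + 1 < p ^ 2) : OrdP A B p := by
  by_contra hno
  obtain ⟨v, hv⟩ := exists_sp h
  obtain ⟨-, -, h1⟩ := adv_sp h0 hv
  have h2 := v_prime_le v hp
  have h3 : (8 * Module.finrank ℚ K + 1 : ℤ) < (p : ℤ) ^ 2 := by exact_mod_cast hd
  have h4 := core A B hD hp h5 hno v (by linarith) (by rw [hj, h1]; norm_num)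
  rw [hj, h1] at h4
  have h6 := Int.le_of_dvd (by norm_num) ((dvd_neg).1 h4)
  have := hp.two_le
  omega

/-- **all primes at once, for almost all invariants of all heights** -/
theorem ord_prop (K : Type) [Field K] [NumberField K] :
    ∃ ν X₀ : ℝ, 0 < ν ∧ 1 ≤ X₀ ∧ ∀ X : ℝ, X₀ ≤ X → ∀ S : Set K, S ⊆ Iv K X →
      (∀ j ∈ S, ∃ A B : K, 4 * A ^ 3 + 27 * B ^ 2 ≠ 0 ∧ jv A B = j ∧ ∃ p : ℕ, p.Prime ∧ 5 ≤ p ∧
        8 * Module.finrank ℚ K + 1 < p ^ 2 ∧ ¬ OrdP A B p) →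
      ((S.ncard : ℕ) : ℝ) ≤ X ^ (-ν) * (Iv K X).ncard := by
  obtain ⟨ν, X₀, hν, hX₀, h⟩ := ls_prop K (1 / 4) 1 (by norm_num) (by norm_num)
  refine ⟨ν, X₀, hν, hX₀, fun X hX S hS hb => h X hX S hS fun j hj hgood => ?_⟩
  obtain ⟨A, B, hD, hjv, p, hp, h5, hd, hno⟩ := hb j hj
  obtain ⟨-, -, hsp, hht⟩ := hgood
  exact hno (ord_of (hS hj).1 (by linarith) A B hD hjv hp h5 hd)

end Pool.Agent.Q19.SU
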