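import Pool.Agent.Q19.SU.NoL3
import Pool.Agent.Q19.SU.Ser

/-!
# Elements of order `p` at a simple pole of residue characteristic different from `p`, all primes
-/

set_option autoImplicit false

namespace Pool.Agent.Q19.SU

open WeierstrassCurve NumberField IsDedekindDomain Pool.Agent.H901R3.MS Pool.Agent.Y673.Loc
open Pool.Agent.Y673.Loc.ZV Pool.Agent.W275.FM Pool.Agent.W275.FMK Pool.Agent.Y673.FM
open Pool.Agent.H691R3 Pool.Agent.W223.AK Pool.Agent.Y733.LS Pool.Agent.TH942

variable {K : Type} [Field K] [NumberField K]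

open scoped Classical in
theorem act_coord (A B : K) (ρ : AlgebraicClosure K ≃ₐ[K] AlgebraicClosure K)
    {x y : AlgebraicClosure K}
    (h : (CV (ca (AlgebraicClosure K) A) (ca (AlgebraicClosure K) B)).toAffine.Nonsingular x y) :
    act A B ρ ((eqv A B (AlgebraicClosure K)).symm (Affine.Point.some x y h)) =
      (eqv A B (AlgebraicClosure K)).symm (Affine.Point.some (ρ x) (ρ y)
        (ns_map A B (ρ : AlgebraicClosure K →ₐ[K] AlgebraicClosure K) h)) := by
  apply (eqv A B (AlgebraicClosure K)).injective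
  have h1 := gal_eqv A B ρ ((eqv A B (AlgebraicClosure K)).symm (Affine.Point.some x y h))
  rw [AddEquiv.apply_symm_apply, mp_some] at h1
  rw [AddEquiv.apply_symm_apply]
  exact h1

theorem pt_ext {F : Type} [Field F] {a b : F} {x y x' y' : F}
    (h : (CV a b).toAffine.Nonsingular x y) (h' : (CV a b).toAffine.Nonsingular x' y')
    (e1 : x = x') (e2 : y = y') :
    (Affine.Point.some x y h : Pt a b) = Affine.Point.some x' y' h' := by
  subst e1 e2
  rfl

theorem pt_inj {F : Type} [Field F] {a b : F} {x y x' y' : F}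
    {h : (CV a b).toAffine.Nonsingular x y} {h' : (CV a b).toAffine.Nonsingular x' y'}
    (e : (Affine.Point.some x y h : Pt a b) = Affine.Point.some x' y' h') : x = x' ∧ y = y' := by
  injection e with e1 e2
  exact ⟨e1, e2⟩

open scoped Classical in
/-- no element of order `p`: the elements of `p`-power order act trivially -/
theorem triv_of {A B : K} {p : ℕ} (hno : ¬ OrdP A B p)
    (τ : AlgebraicClosure K ≃ₐ[K] AlgebraicClosure K) : ∀ s : ℕ,
    (∀ P : EP A B, p • P = 0 → act A B (τ ^ (p ^ s)) P = P) →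
    ∀ P : EP A B, p • P = 0 → act A B τ P = P := by
  intro s
  induction s with
  | zero =>
    intro h
    rw [pow_zero, pow_one] at h
    exact h
  | succ s ih =>
    intro h
    apply ih
    by_contra hcon
    push Not at hcon
    obtain ⟨P, hP, hP'⟩ := hcon
    apply hno
    refine ⟨τ ^ (p ^ s), ?_, P, hP, hP'⟩
    rw [← pow_mul, ← pow_succ]
    exact h

open scoped Classical in
/-- the data at a place above a simple pole -/
theorem setup {A B : K} (hD : 4 * A ^ 3 + 27 * B ^ 2 ≠ 0) {p : ℕ} (hp0 : 1 ≤ p) (v : Pr K)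
    (h2 : (adv K v).v 2 = 0) (hj : (adv K v).v (jv A B) = -1) :
    ∃ (L : Type) (_ : Field L) (_ : NumberField L) (_ : Algebra K L) (_ : IsGalois K L)
      (ι : L →ₐ[K] AlgebraicClosure K) (w : HeightOneSpectrum (𝓞 L)) (H : ℤ) (e η : L),
      Dt (adv L w) 0 H e η ∧ algebraMap K L A = cA e η ∧ algebraMap K L B = cB e η ∧
      2 * H = Nat.card (w.asIdeal.inertia (L ≃ₐ[K] L)) ∧
      (∃ s : L, s ^ 2 = 3 * e) ∧
      (∀ z ∈ (crd A B p : Set (AlgebraicClosure K)), ∃ u, ι u = z) ∧
      (∀ τ : L ≃ₐ[K] L, ∃ σ : AlgebraicClosure K ≃ₐ[K] AlgebraicClosure K,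
        ∀ u : L, ι (τ u) = σ (ι u)) ∧
      ∀ x : K, (adv L w).v (algebraMap K L x) =
        (Nat.card (w.asIdeal.inertia (L ≃ₐ[K] L)) : ℤ) * (adv K v).v x := by
  set Kb := AlgebraicClosure K with hKb
  have : CharZero Kb := charZero_of_injective_algebraMap (algebraMap K Kb).injective
  have disc_of : Disc (ca Kb A) (ca Kb B) := by
    unfold Disc ca
    refine mul_ne_zero two_ne_zero ?_
    have e : (4 : Kb) * (algebraMap K Kb A) ^ 3 + 27 * (algebraMap K Kb B) ^ 2 =
        algebraMap K Kb (4 * A ^ 3 + 27 * B ^ 2) := by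
      simp only [map_mul, map_add, map_pow, map_ofNat]
    rw [e]
    exact (map_ne_zero _).2 hD
  obtain ⟨fin1, -⟩ := Mul.tor Kb (ca Kb A) (ca Kb B) disc_of p (by omega)
  set g₃ : Polynomial K := Polynomial.X ^ 3 + Polynomial.C A * Polynomial.X +
    Polynomial.C B with hg₃
  have d₃ : g₃.natDegree = 3 := by rw [hg₃]; compute_degree!
  have n₃ : g₃ ≠ 0 := by intro h; rw [h, Polynomial.natDegree_zero] at d₃; omega
  have finz : {z : Kb | Polynomial.aeval z g₃ = 0}.Finite := by
    have hg' : g₃.map (algebraMap K Kb) ≠ 0 :=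
      (Polynomial.map_ne_zero_iff (algebraMap K Kb).injective).2 n₃
    refine Set.Finite.subset (g₃.map (algebraMap K Kb)).roots.toFinset.finite_toSet ?_
    intro z hz
    rw [Finset.mem_coe, Multiset.mem_toFinset, Polynomial.mem_roots hg', Polynomial.IsRoot.def,
      Polynomial.eval_map_algebraMap]
    exact hz
  have stab : ∀ (σ : Kb ≃ₐ[K] Kb) (z : Kb), Polynomial.aeval z g₃ = 0 →
      Polynomial.aeval (σ z) g₃ = 0 := by
    intro σ z hz
    have e : Polynomial.aeval (σ z) g₃ = σ (Polynomial.aeval z g₃) :=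
      Polynomial.aeval_algHom_apply (σ : Kb →ₐ[K] Kb) z g₃
    rw [e, hz, map_zero]
  have finq : {z : Kb | Polynomial.aeval (-(2 / 3) * z ^ 2) g₃ = 0}.Finite := by
    refine Set.Finite.subset (finz.biUnion (t := fun r => {z : Kb | z ^ 2 = -(3 / 2) * r})
      fun r _ => ?_) ?_
    · have hpol : (Polynomial.X ^ 2 - Polynomial.C (-(3 / 2) * r) : Polynomial Kb) ≠ 0 :=
        Polynomial.X_pow_sub_C_ne_zero (by norm_num) _
      refine Set.Finite.subset (Polynomial.X ^ 2 -
        Polynomial.C (-(3 / 2) * r) : Polynomial Kb).roots.toFinset.finite_toSet ?_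
      intro z hz
      rw [Finset.mem_coe, Multiset.mem_toFinset, Polynomial.mem_roots hpol, Polynomial.IsRoot.def]
      simp only [Polynomial.eval_sub, Polynomial.eval_pow, Polynomial.eval_X, Polynomial.eval_C]
      have hz' : z ^ 2 = -(3 / 2) * r := hz
      rw [hz', sub_self]
    · intro z hz
      rw [Set.mem_iUnion₂]
      refine ⟨-(2 / 3) * z ^ 2, hz, ?_⟩
      show z ^ 2 = -(3 / 2) * (-(2 / 3) * z ^ 2)
      ring
  obtain ⟨L, iF, iN, iA, iG, ι, hι, hτσ⟩ := Pool.Agent.W150.FMK.Fld.main K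
    (((crd A B p : Set Kb) ∪ {z : Kb | Polynomial.aeval z g₃ = 0}) ∪
      {z : Kb | Polynomial.aeval (-(2 / 3) * z ^ 2) g₃ = 0})
    (((crd_finite A B p fin1).union finz).union finq) (by
      rintro σ z ((hz | hz) | hz)
      · exact Or.inl (Or.inl (crd_map A B p (σ : Kb →ₐ[K] Kb) hz))
      · exact Or.inl (Or.inr (stab σ z hz))
      · refine Or.inr ?_
        have h1 := stab σ _ hz
        have h2 : σ (-(2 / 3) * z ^ 2) = -(2 / 3) * (σ z) ^ 2 := by
          simp only [map_mul, map_neg, map_div₀, map_ofNat, map_pow]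
        rw [h2] at h1
        exact h1)
  have ev₃ : ∀ z : Kb, Polynomial.aeval z g₃ = z ^ 3 + ca Kb A * z + ca Kb B := by
    intro z; rw [hg₃]; simp [ca]
  obtain ⟨e₁, e₂, e₃, hsumL, l12, l23, l13, hAL, hBL⟩ := cubic_data A B hD ι (by
    intro z hz
    exact hι z (Or.inl (Or.inr (by
      show Polynomial.aeval z g₃ = 0
      rw [ev₃]; exact hz))))
  have hj0 : jv A B ≠ 0 := by
    intro h
    rw [h] at hj
    have : (adv K v).v 0 = 0 := by
      show -WithZero.log (v.valuation K 0) = 0
      rw [map_zero, WithZero.log_zero, neg_zero]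
    omega
  have hjL : jr e₁ e₂ e₃ = algebraMap K L (jv A B) := by
    unfold jr jv
    have hDL : algebraMap K L (4 * A ^ 3 + 27 * B ^ 2) =
        -((e₁ - e₂) * (e₂ - e₃) * (e₃ - e₁)) ^ 2 := by
      simp only [map_mul, map_add, map_pow, map_ofNat]
      rw [hAL, hBL]
      have : e₃ = -e₁ - e₂ := by linear_combination hsumL
      rw [this]; ring
    have hdL : ((e₁ - e₂) * (e₂ - e₃) * (e₃ - e₁)) ≠ 0 :=
      mul_ne_zero (mul_ne_zero (sub_ne_zero.2 l12) (sub_ne_zero.2 l23)) (sub_ne_zero.2 l13.symm)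
    rw [map_div₀, hDL]
    simp only [map_mul, map_pow, map_ofNat]
    rw [hAL]
    have : e₃ = -e₁ - e₂ := by linear_combination hsumL
    subst this
    rw [div_eq_div_iff (pow_ne_zero 2 hdL) (neg_ne_zero.2 (pow_ne_zero 2 hdL))]
    ring
  -- the place
  obtain ⟨w, hw⟩ : ∃ w : HeightOneSpectrum (𝓞 L), w.asIdeal.LiesOver v.asIdeal := by
    obtain ⟨⟨P, hP, hPv⟩⟩ := (inferInstance : Nonempty (v.asIdeal.primesOver (𝓞 L)))
    have hP0 : P ≠ ⊥ := Ideal.ne_bot_of_liesOver_of_ne_bot v.ne_bot P
    exact ⟨⟨P, hP, hP0⟩, hPv⟩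
  obtain ⟨v', hv', hadv⟩ := adv_w K L w
  have hvv : v' = v := by
    apply HeightOneSpectrum.ext
    rw [hv']
    exact hw.over.symm
  subst hvv
  set c : ℤ := (Nat.card (w.asIdeal.inertia (L ≃ₐ[K] L)) : ℤ) with hc
  have hc1 : 1 ≤ c := by
    rw [hc]
    have : Finite (L ≃ₐ[K] L) := inferInstance
    exact_mod_cast Nat.card_pos (α := w.asIdeal.inertia (L ≃ₐ[K] L))
  have h2L : (adv L w).E 0 (2 : L) := by
    refine ⟨two_ne_zero, ?_⟩
    have := hadv 2
    rwa [map_ofNat, h2, mul_zero] at this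
  have hEj : (adv L w).E (-c) (jr e₁ e₂ e₃) := by
    rw [hjL]
    refine ⟨(map_ne_zero _).2 hj0, ?_⟩
    rw [hadv, hj]
    ring
  obtain ⟨e, t, H, D, hH, hcA, hcB⟩ := root_data le_rfl h2L (by norm_num) hsumL l12 l23 l13
    (by omega) hEj
  have hs : ∃ s : L, s ^ 2 = 3 * e := by
    obtain ⟨z, hz⟩ := IsAlgClosed.exists_pow_nat_eq (ι (3 * e)) (n := 2) (by norm_num)
    have hιA : ι (cA e t) = ca Kb A := by rw [← hcA, ← hAL]; exact ι.commutes A
    have hιB : ι (cB e t) = ca Kb B := by rw [← hcB, ← hBL]; exact ι.commutes B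
    obtain ⟨s, hs⟩ := hι z (Or.inr (by
      show Polynomial.aeval (-(2 / 3) * z ^ 2) g₃ = 0
      have h1 : -(2 / 3) * z ^ 2 = ι (-2 * e) := by
        rw [hz]
        simp only [map_mul, map_neg, map_ofNat]
        ring
      rw [ev₃, h1, ← hιA, ← hιB]
      unfold cA cB
      simp only [map_add, map_sub, map_mul, map_neg, map_pow, map_ofNat]
      ring))
    have h2 : ι (s ^ 2) = ι (3 * e) := by rw [map_pow, hs, hz]
    exact ⟨s, ι.injective h2⟩
  exact ⟨L, iF, iN, iA, iG, ι, w, H, e, t, D, hAL.trans hcA, hBL.trans hcB,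
    by rw [hH, neg_neg], hs, fun z hz => hι z (Or.inl (Or.inl hz)),
    fun τ => (hτσ τ).imp fun σ hσ => hσ.1, hadv⟩

open scoped Classical in
/-- **odd primes** -/
theorem ord_odd {A B : K} (hD : 4 * A ^ 3 + 27 * B ^ 2 ≠ 0) {p : ℕ} (hp : p.Prime) (hodd : Odd p)
    (v : Pr K) (h2 : (adv K v).v 2 = 0) (hpv : (adv K v).v (p : K) = 0)
    (hj : (adv K v).v (jv A B) = -1) : OrdP A B p := by
  by_contra hno
  have hp3 : 3 ≤ p := by
    have h2 := hp.two_le
    obtain ⟨t, ht⟩ := hodd
    omega
  obtain ⟨L, iF, iN, iA, iG, ι, w, H, e, η, D, hA, hB, hH, -, hι, hτσ, hadv⟩ :=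
    setup hD hp.pos v h2 hj
  have hιA : ∀ a : K, ι (algebraMap K L a) = ca (AlgebraicClosure K) a := fun a => ι.commutes a
  have hιcA : ι (cA e η) = ca (AlgebraicClosure K) A := by rw [← hA, hιA]
  have hιcB : ι (cB e η) = ca (AlgebraicClosure K) B := by rw [← hB, hιA]
  have hH1 := D.dat.hH
  obtain ⟨P, hP, a, ha, hlev⟩ := pos_level D (ι : L →+* AlgebraicClosure K) (n := p) hodd (by
      intro x' y' h h0
      have e1 : (ι : L →+* AlgebraicClosure K) (cA e η) = ca (AlgebraicClosure K) A := hιcA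
      have e2 : (ι : L →+* AlgebraicClosure K) (cB e η) = ca (AlgebraicClosure K) B := hιcB
      revert h h0
      rw [e1, e2]
      intro h h0
      obtain ⟨x'', hx''⟩ := hι x' ⟨x', y', h, h0, Or.inl rfl⟩
      obtain ⟨y'', hy''⟩ := hι y' ⟨x', y', h, h0, Or.inr rfl⟩
      exact ⟨⟨x'', hx''⟩, ⟨y'', hy''⟩⟩) (by
      have h1 : (adv L w).v (p : L) = 0 := by
        have := hadv (p : K)
        rwa [map_natCast, hpv, mul_zero] at this
      rw [h1, mul_zero]
      apply mul_pos
      · have : (3 : ℤ) ≤ p := by exact_mod_cast hp3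
        nlinarith
      · omega)
  have hP0 : P ≠ 0 := by
    rintro rfl
    have h1 : a = 0 := hlev
    omega
  have hl0 : LV (adv L w) 0 H e η P 0 := by
    refine level_fix w D hA hB hH hp hodd hP hP0 ?_
    intro σ ha' hb' _ s hs _
    obtain ⟨τ, hτ⟩ := hτσ σ
    have hpow : ∀ (n : ℕ) (x : L), ι ((σ ^ n) x) = (τ ^ n) (ι x) := by
      intro n
      induction n with
      | zero => intro x; rfl
      | succ n ih =>
        intro x
        rw [pow_succ, pow_succ, AlgEquiv.mul_apply, AlgEquiv.mul_apply, ih, hτ]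
    have htr : ∀ Q : EP A B, p • Q = 0 → act A B (τ ^ (p ^ s)) Q = Q := by
      intro Q hQ
      obtain ⟨Q', rfl⟩ : ∃ Q', (eqv A B (AlgebraicClosure K)).symm Q' = Q :=
        ⟨_, AddEquiv.symm_apply_apply _ _⟩
      have hQ' : p • Q' = 0 := by
        apply (eqv A B (AlgebraicClosure K)).symm.injective
        rw [map_nsmul, hQ, map_zero]
      rcases Q' with _ | ⟨x, y, h⟩
      · exact (congrArg _ (map_zero _)).trans ((map_zero _).trans (map_zero _).symm)
      · rw [act_coord]
        obtain ⟨x', hx'⟩ := hι x ⟨x, y, h, hQ', Or.inl rfl⟩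
        obtain ⟨y', hy'⟩ := hι y ⟨x, y, h, hQ', Or.inr rfl⟩
        refine congrArg _ (pt_ext _ _ ?_ ?_)
        · rw [← hx', ← hpow, hs]
          rfl
        · rw [← hy', ← hpow, hs]
          rfl
    have htriv := triv_of hno τ s htr
    -- the coordinates are fixed
    have key : ∀ (a b : L), a = ca L A → b = ca L B → ∀ (x y : L)
        (hn : (CV a b).toAffine.Nonsingular x y),
        p • (Affine.Point.some x y hn : Pt a b) = 0 → σ x = x ∧ σ y = y := by
      rintro _ _ rfl rfl x y hn hxy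
      have hn' := ns_map A B ι hn
      have h1 := (tors_map A B ι p hn hn').2 hxy
      have h3 := htriv ((eqv A B (AlgebraicClosure K)).symm (Affine.Point.some (ι x) (ι y) hn')) (by
        rw [← map_nsmul, h1, map_zero])
      rw [act_coord] at h3
      have h4 := (eqv A B (AlgebraicClosure K)).symm.injective h3
      have h5 := pt_inj h4
      rw [← hτ, ← hτ] at h5
      exact ⟨ι.injective h5.1, ι.injective h5.2⟩
    rcases P with _ | ⟨x, y, hn⟩
    · exact absurd rfl hP0
    · obtain ⟨k1, k2⟩ := key _ _ hA.symm hB.symm x y hn hP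
      rw [ac_some]
      exact pt_ext _ _ k1 k2
  have := LV.unique D hl0 hlev
  omega

open scoped Classical in
/-- **the prime two** -/
theorem ord_two {A B : K} (hD : 4 * A ^ 3 + 27 * B ^ 2 ≠ 0)
    (v : Pr K) (h2 : (adv K v).v 2 = 0)
    (hj : (adv K v).v (jv A B) = -1) : OrdP A B 2 := by
  obtain ⟨L, iF, iN, iA, iG, ι, w, H, e, η, D, hA, hB, hH, -, hι, hτσ, hadv⟩ :=
    setup hD (p := 2) (by norm_num) v h2 hj
  have hιA : ∀ a : K, ι (algebraMap K L a) = ca (AlgebraicClosure K) a := fun a => ι.commutes a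
  have hιcA : ι (cA e η) = ca (AlgebraicClosure K) A := by rw [← hA, hιA]
  have hιcB : ι (cB e η) = ca (AlgebraicClosure K) B := by rw [← hB, hιA]
  have hH1 := D.dat.hH
  have hz := z_val D
  have hη0 : η ≠ 0 := by
    rintro rfl
    apply hz.1
    rw [zero_div]
  -- an element of the inertia group
  obtain ⟨σ, hσI, hσz⟩ : ∃ σ ∈ w.asIdeal.inertia (L ≃ₐ[K] L), σ (η / (3 * e)) ≠ η / (3 * e) := by
    by_contra hcon
    push Not at hcon
    have h1 := fix_dvd K L w _ le_rfl _ hcon
    rw [← hH, hz.2] at h1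
    have := Int.le_of_dvd (by omega) h1
    omega
  have ha : rh σ (cA e η) = cA e η := by rw [← hA]; exact σ.commutes A
  have hb : rh σ (cB e η) = cB e η := by rw [← hB]; exact σ.commutes B
  have hin : In (adv L w) (rh σ) := inertia_In K L w hσI
  obtain ⟨he, hη⟩ := he_of D hin ha hb
  have he' : σ e = e := he
  have hη' : σ η = -η := by
    rcases hη with h | h
    · exfalso
      apply hσz
      have h' : σ η = η := h
      rw [map_div₀, map_mul, map_ofNat, he', h']
    · exact h
  obtain ⟨τ, hτ⟩ := hτσ σ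
  have roots : ∀ x : AlgebraicClosure K,
      x ^ 3 + ca (AlgebraicClosure K) A * x + ca (AlgebraicClosure K) B = 0 →
      (x = ι (-2 * e) ∨ x = ι (e + η) ∨ x = ι (e - η)) := by
    intro x hx
    rw [← hιcA, ← hιcB] at hx
    have h1 : (x - ι (-2 * e)) * ((x - ι (e + η)) * (x - ι (e - η))) = 0 := by
      unfold cA cB at hx
      simp only [map_add, map_sub, map_mul, map_neg, map_pow, map_ofNat] at hx ⊢
      linear_combination hx
    rcases mul_eq_zero.1 h1 with h | h
    · exact Or.inl (sub_eq_zero.1 h)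
    · rcases mul_eq_zero.1 h with h | h
      · exact Or.inr (Or.inl (sub_eq_zero.1 h))
      · exact Or.inr (Or.inr (sub_eq_zero.1 h))
  have discK : Disc (ca (AlgebraicClosure K) A) (ca (AlgebraicClosure K) B) := by
    have : CharZero (AlgebraicClosure K) :=
      charZero_of_injective_algebraMap (algebraMap K (AlgebraicClosure K)).injective
    unfold Disc ca
    refine mul_ne_zero two_ne_zero ?_
    have e : (4 : AlgebraicClosure K) * (algebraMap K (AlgebraicClosure K) A) ^ 3 +
        27 * (algebraMap K (AlgebraicClosure K) B) ^ 2 =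
        algebraMap K (AlgebraicClosure K) (4 * A ^ 3 + 27 * B ^ 2) := by
      simp only [map_mul, map_add, map_pow, map_ofNat]
    rw [e]
    exact (map_ne_zero _).2 hD
  have h2K : (2 : AlgebraicClosure K) ≠ 0 := by
    have : CharZero (AlgebraicClosure K) :=
      charZero_of_injective_algebraMap (algebraMap K (AlgebraicClosure K)).injective
    exact two_ne_zero
  have two : ∀ (x y : AlgebraicClosure K)
      (h : (CV (ca (AlgebraicClosure K) A) (ca (AlgebraicClosure K) B)).toAffine.Nonsingular x y),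
      2 • (Affine.Point.some x y h : Pt _ _) = 0 → y = 0 ∧
        x ^ 3 + ca (AlgebraicClosure K) A * x + ca (AlgebraicClosure K) B = 0 := by
    intro x y h h0
    have hy0 : y = 0 := by
      by_contra hy
      have hyy : y ≠ -y := by
        intro h1
        apply hy
        have h2 : 2 * y = 0 := by linear_combination h1
        exact (mul_eq_zero.1 h2).resolve_left h2K
      rw [two_nsmul] at h0
      obtain ⟨h3, h4⟩ := add_dbl h h rfl hyy _ _ _ rfl rfl rfl
      rw [h4] at h0
      exact absurd h0 (Affine.Point.some_ne_zero h3)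
    refine ⟨hy0, ?_⟩
    have := (nonsingular_iff discK).1 h
    unfold Eqn at this
    rw [hy0] at this
    linear_combination -this
  refine ⟨τ, ?_, ?_⟩
  · intro Q hQ
    obtain ⟨Q', rfl⟩ : ∃ Q', (eqv A B (AlgebraicClosure K)).symm Q' = Q :=
      ⟨_, AddEquiv.symm_apply_apply _ _⟩
    have hQ' : 2 • Q' = 0 := by
      apply (eqv A B (AlgebraicClosure K)).symm.injective
      rw [map_nsmul, hQ, map_zero]
    rcases Q' with _ | ⟨x, y, h⟩
    · exact (congrArg _ (map_zero _)).trans ((map_zero _).trans (map_zero _).symm)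
    · rw [act_coord]
      obtain ⟨hy, hx⟩ := two x y h hQ'
      refine congrArg _ (pt_ext _ _ ?_ (by rw [hy, map_zero]))
      rw [pow_two, AlgEquiv.mul_apply]
      rcases roots x hx with rfl | rfl | rfl
      · rw [← hτ, ← hτ]
        simp only [map_mul, map_neg, map_ofNat, he']
      · rw [← hτ, ← hτ]
        simp only [map_add, map_neg, he', hη', neg_neg]
      · rw [← hτ, ← hτ]
        simp only [map_sub, map_neg, he', hη', neg_neg]
  · have hns : (CV (ca (AlgebraicClosure K) A) (ca (AlgebraicClosure K) B)).toAffine.Nonsingular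
        (ι (e + η)) 0 := by
      rw [nonsingular_iff discK]
      unfold Eqn
      rw [← hιcA, ← hιcB]
      unfold cA cB
      simp only [map_add, map_sub, map_mul, map_neg, map_pow, map_ofNat]
      ring
    refine ⟨(eqv A B (AlgebraicClosure K)).symm (Affine.Point.some (ι (e + η)) 0 hns), ?_, ?_⟩
    · rw [← map_nsmul]
      have : 2 • (Affine.Point.some (ι (e + η)) 0 hns : Pt _ _) = 0 := by
        rw [two_nsmul]
        exact add_opp hns hns rfl (by simp)
      rw [this, map_zero]
    · rw [act_coord]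
      intro h
      have h4 := (eqv A B (AlgebraicClosure K)).symm.injective h
      have h5' := (pt_inj h4).1
      rw [← hτ] at h5'
      have h5 : σ (e + η) = e + η := ι.injective h5'
      rw [map_add, he', hη'] at h5
      apply hη0
      have h6 : (2 : L) * η = 0 := by linear_combination -h5
      exact (mul_eq_zero.1 h6).resolve_left two_ne_zero

end Pool.Agent.Q19.SU
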