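import Mathlib

/-!
# More than half of the pairs of residues are primitive
-/

set_option autoImplicit false

namespace Pool.Agent.Q19.SU

open Finset

/-- the pairs of residues modulo `n` which generate the unit ideal -/
def prim (n : ℕ) : Finset (ℕ × ℕ) :=
  (range n ×ˢ range n).filter fun q => Nat.gcd (Nat.gcd q.1 q.2) n = 1

theorem card_mult {n q : ℕ} (hq : 0 < q) (h : q ∣ n) :
    ((range n).filter (q ∣ ·)).card ≤ n / q := by
  have : (range n).filter (q ∣ ·) ⊆ (range (n / q)).image (q * ·) := by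
    intro k hk
    rw [mem_filter, mem_range] at hk
    obtain ⟨h1, c, rfl⟩ := hk
    rw [mem_image]
    refine ⟨c, ?_, rfl⟩
    rw [mem_range]
    obtain ⟨m, rfl⟩ := h
    rw [Nat.mul_div_cancel_left _ hq]
    exact lt_of_mul_lt_mul_left h1 (Nat.zero_le _)
  calc _ ≤ ((range (n / q)).image (q * ·)).card := card_le_card this
    _ ≤ (range (n / q)).card := card_image_le
    _ = n / q := card_range _

theorem sum_odd (k : ℕ) : ∑ i ∈ Icc (1 : ℕ) k, (1 : ℝ) / (2 * (i : ℝ) + 1) ^ 2 ≤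
    1 / 4 - 1 / (4 * ((k : ℝ) + 1)) := by
  induction k with
  | zero => simp
  | succ k ih =>
    rw [Finset.sum_Icc_succ_top (by omega)]
    have hk : (0 : ℝ) ≤ k := Nat.cast_nonneg _
    have h1 : (1 : ℝ) / (2 * ((k + 1 : ℕ) : ℝ) + 1) ^ 2 ≤
        1 / (4 * ((k : ℝ) + 1)) - 1 / (4 * (((k + 1 : ℕ) : ℝ) + 1)) := by
      push_cast
      rw [div_sub_div _ _ (by positivity) (by positivity), div_le_div_iff₀ (by positivity) (by positivity)]
      nlinarith
    linarith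

theorem sum_primes (n : ℕ) : ∑ q ∈ n.primeFactors, (1 : ℝ) / (q : ℝ) ^ 2 ≤ 1 / 2 := by
  obtain ⟨I, hI⟩ : ∃ I : Finset ℕ, I = (Icc (1 : ℕ) n).image (fun i : ℕ => 2 * i + 1) := ⟨_, rfl⟩
  have hsub : n.primeFactors ⊆ ({2} : Finset ℕ) ∪ I := by
    intro q hq
    have hp := Nat.prime_of_mem_primeFactors hq
    have hle := Nat.le_of_mem_primeFactors hq
    rcases hp.eq_two_or_odd' with rfl | ⟨t, ht⟩
    · simp
    · rw [mem_union, hI, mem_image]
      right
      have := hp.two_le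
      exact ⟨t, by rw [mem_Icc]; omega, ht.symm⟩
  have hdis : Disjoint ({2} : Finset ℕ) I := by
    rw [disjoint_singleton_left, hI, mem_image]
    rintro ⟨t, -, ht⟩
    omega
  have h0 : ∑ q ∈ n.primeFactors, (1 : ℝ) / (q : ℝ) ^ 2 ≤
      ∑ q ∈ ({2} : Finset ℕ) ∪ I, (1 : ℝ) / (q : ℝ) ^ 2 :=
    sum_le_sum_of_subset_of_nonneg hsub fun _ _ _ => by positivity
  rw [sum_union hdis, sum_singleton] at h0
  have h1 : ∑ q ∈ I, (1 : ℝ) / (q : ℝ) ^ 2 = ∑ i ∈ Icc (1 : ℕ) n, (1 : ℝ) / (2 * (i : ℝ) + 1) ^ 2 := by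
    rw [hI, sum_image (fun a _ b _ h => by
      have : 2 * a + 1 = 2 * b + 1 := h
      omega)]
    refine sum_congr rfl fun x _ => by push_cast; ring
  have h2 := sum_odd n
  have h3 : (0 : ℝ) ≤ 1 / (4 * ((n : ℝ) + 1)) := by positivity
  rw [h1] at h0
  have h4 : (1 : ℝ) / ((2 : ℕ) : ℝ) ^ 2 = 1 / 4 := by norm_num
  rw [h4] at h0
  linarith

theorem prim_card {n : ℕ} (hn : 1 ≤ n) : n ^ 2 ≤ 2 * (prim n).card := by
  have hcompl : ((range n ×ˢ range n).filter fun q => ¬ Nat.gcd (Nat.gcd q.1 q.2) n = 1) ⊆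
      n.primeFactors.biUnion fun q => (range n).filter (q ∣ ·) ×ˢ (range n).filter (q ∣ ·) := by
    rintro ⟨a, c⟩ h
    rw [mem_filter, mem_product] at h
    obtain ⟨⟨h1, h2⟩, h3⟩ := h
    obtain ⟨q, hq, hqd⟩ := Nat.exists_prime_and_dvd h3
    rw [mem_biUnion]
    refine ⟨q, ?_, ?_⟩
    · rw [Nat.mem_primeFactors]
      exact ⟨hq, hqd.trans (Nat.gcd_dvd_right _ _), by omega⟩
    · rw [mem_product, mem_filter, mem_filter]
      have h4 := hqd.trans (Nat.gcd_dvd_left _ _)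
      exact ⟨⟨h1, h4.trans (Nat.gcd_dvd_left _ _)⟩, ⟨h2, h4.trans (Nat.gcd_dvd_right _ _)⟩⟩
  have hc := card_le_card hcompl
  have h1 := hc.trans card_biUnion_le
  have h2 : ((∑ q ∈ n.primeFactors, ((range n).filter (q ∣ ·) ×ˢ (range n).filter (q ∣ ·)).card : ℕ)
      : ℝ) ≤ (n : ℝ) ^ 2 * (1 / 2) := by
    push_cast
    calc ∑ q ∈ n.primeFactors, ((((range n).filter (q ∣ ·) ×ˢ (range n).filter (q ∣ ·)).card : ℕ) : ℝ)
        ≤ ∑ q ∈ n.primeFactors, (n : ℝ) ^ 2 * (1 / (q : ℝ) ^ 2) := by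
          refine sum_le_sum fun q hq => ?_
          have hp := Nat.prime_of_mem_primeFactors hq
          have hd := Nat.dvd_of_mem_primeFactors hq
          have h3 := card_mult hp.pos hd
          rw [card_product]
          have h4 : (((range n).filter (q ∣ ·)).card : ℝ) ≤ n / q := by
            have : (((range n).filter (q ∣ ·)).card : ℝ) ≤ ((n / q : ℕ) : ℝ) := by exact_mod_cast h3
            exact this.trans Nat.cast_div_le
          push_cast
          calc _ ≤ ((n : ℝ) / q) * (n / q) := mul_le_mul h4 h4 (by positivity) (by positivity)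
            _ = (n : ℝ) ^ 2 * (1 / (q : ℝ) ^ 2) := by ring
      _ = (n : ℝ) ^ 2 * ∑ q ∈ n.primeFactors, (1 / (q : ℝ) ^ 2) := by rw [mul_sum]
      _ ≤ (n : ℝ) ^ 2 * (1 / 2) := mul_le_mul_of_nonneg_left (sum_primes n) (by positivity)
  have h3 : (prim n).card + ((range n ×ˢ range n).filter fun q =>
      ¬ Nat.gcd (Nat.gcd q.1 q.2) n = 1).card = n ^ 2 := by
    unfold prim
    rw [card_filter_add_card_filter_not, card_product, card_range, pow_two]
  have h4 : ((((range n ×ˢ range n).filter fun q =>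
      ¬ Nat.gcd (Nat.gcd q.1 q.2) n = 1).card : ℕ) : ℝ) ≤ (n : ℝ) ^ 2 * (1 / 2) :=
    le_trans (by exact_mod_cast h1) h2
  have h5 : ((prim n).card : ℝ) + ((((range n ×ˢ range n).filter fun q =>
      ¬ Nat.gcd (Nat.gcd q.1 q.2) n = 1).card : ℕ) : ℝ) = (n : ℝ) ^ 2 := by exact_mod_cast h3
  have h6 : (n : ℝ) ^ 2 ≤ 2 * ((prim n).card : ℝ) := by linarith
  exact_mod_cast h6

end Pool.Agent.Q19.SU
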