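import Pool.Agent.Q19.SU.Tor

/-!
# Torsion points of quotients of products of elliptic curves over extensions
-/

set_option autoImplicit false

namespace Pool.Agent.Q19.SU

open WeierstrassCurve NumberField IsDedekindDomain
open Pool.Agent.Y673.Loc
open Pool.Agent.W223.AK (ht)

variable {K : Type} [Field K] [NumberField K]

open scoped Classical

/-- **torsion points of quotients of products of elliptic curves over extensions** -/
theorem tors_prod {ι : Type} {t : ℝ} {A B : ι → K}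
    (hD : ∀ i, 4 * A i ^ 3 + 27 * B i ^ 2 ≠ 0) (h : ∀ i, AllSLn t (jv (A i) (B i)))
    (Γ : AddSubgroup (∀ i, EP (A i) (B i))) (hfin : (Γ : Set (∀ i, EP (A i) (B i))).Finite)
    (hst : ∀ σ : AlgebraicClosure K ≃ₐ[K] AlgebraicClosure K, ∀ x ∈ Γ,
      (fun i => act (A i) (B i) σ (x i)) ∈ Γ)
    (M : IntermediateField K (AlgebraicClosure K)) [FiniteDimensional K M]
    (hM : ∀ i, ((2 * Module.finrank K M : ℕ) : ℝ) ^ Module.finrank ℚ K ≤
      Height.mulHeight₁ (jv (A i) (B i)) ^ (1 - t))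
    {x : ∀ i, EP (A i) (B i)}
    (hx : ∀ σ ∈ M.fixingSubgroup, (fun i => act (A i) (B i) σ (x i) - x i) ∈ Γ)
    (hx0 : ∃ m : ℕ, 0 < m ∧ m • x = 0) (S : Finset ι) :
    ∃ n : ℕ, 0 < n ∧ n ^ 2 ≤ (2 * Module.finrank K M) ^ S.card ∧
      (∀ p : ℕ, p.Prime → p ∣ n → p ^ 2 ≤ 2 * Module.finrank K M) ∧
      ∃ γ ∈ Γ, ∀ s ∈ S, n • x s = γ s := by
  induction S using Finset.induction_on with
  | empty =>
    refine ⟨1, one_pos, by simp, fun p hp hp1 => ?_, 0, Γ.zero_mem, by simp⟩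
    exact absurd (Nat.dvd_one.1 hp1) hp.one_lt.ne'
  | insert i S hi ih =>
    obtain ⟨n, hn, hn2, hnp, γ, hγ, hγS⟩ := ih
    -- the subgroup of the `i`-th factor
    let Δ : AddSubgroup (Fin 1 → EP (A i) (B i)) :=
      { carrier := {u | ∃ δ ∈ Γ, (∀ s ∈ S, δ s = 0) ∧ δ i = u 0}
        zero_mem' := ⟨0, Γ.zero_mem, fun _ _ => rfl, rfl⟩
        add_mem' := by
          rintro u v ⟨δ, h1, h2, h3⟩ ⟨δ', h1', h2', h3'⟩
          refine ⟨δ + δ', Γ.add_mem h1 h1', fun s hs => ?_, ?_⟩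
          · rw [Pi.add_apply, h2 s hs, h2' s hs, add_zero]
          · rw [Pi.add_apply, Pi.add_apply, h3, h3']
        neg_mem' := by
          rintro u ⟨δ, h1, h2, h3⟩
          refine ⟨-δ, Γ.neg_mem h1, fun s hs => ?_, ?_⟩
          · rw [Pi.neg_apply, h2 s hs, neg_zero]
          · rw [Pi.neg_apply, Pi.neg_apply, h3] }
    have hΔ : ∀ u : Fin 1 → EP (A i) (B i), u ∈ Δ ↔
      ∃ δ ∈ Γ, (∀ s ∈ S, δ s = 0) ∧ δ i = u 0 := fun u => Iff.rfl
    have hΔfin : (Δ : Set (Fin 1 → EP (A i) (B i))).Finite := by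
      refine (hfin.image (fun δ : (∀ i, EP (A i) (B i)) => (fun _ : Fin 1 => δ i))).subset ?_
      rintro u ⟨δ, h1, h2, h3⟩
      refine ⟨δ, h1, ?_⟩
      funext k
      rw [Subsingleton.elim k 0]
      exact h3
    have hΔst : ∀ σ : AlgebraicClosure K ≃ₐ[K] AlgebraicClosure K, ∀ u ∈ Δ,
        (fun k => act (A i) (B i) σ (u k)) ∈ Δ := by
      rintro σ u ⟨δ, h1, h2, h3⟩
      refine ⟨_, hst σ δ h1, fun s hs => ?_, ?_⟩
      · show act (A s) (B s) σ (δ s) = 0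
        rw [h2 s hs, map_zero]
      · show act (A i) (B i) σ (δ i) = act (A i) (B i) σ (u 0)
        rw [h3]
    -- the point of the factor
    obtain ⟨z, hz⟩ : ∃ z : Fin 1 → EP (A i) (B i), z = fun _ => n • x i - γ i := ⟨_, rfl⟩
    have hzM : ∀ σ ∈ M.fixingSubgroup, (fun k => act (A i) (B i) σ (z k) - z k) ∈ Δ := by
      intro σ hσ
      refine ⟨n • (fun i => act (A i) (B i) σ (x i) - x i) -
        ((fun i => act (A i) (B i) σ (γ i)) - γ), Γ.sub_mem (Γ.nsmul_mem (hx σ hσ) n)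
          (Γ.sub_mem (hst σ γ hγ) hγ), fun s hs => ?_, ?_⟩
      · show n • (act (A s) (B s) σ (x s) - x s) - (act (A s) (B s) σ (γ s) - γ s) = 0
        rw [← hγS s hs, map_nsmul, nsmul_sub, sub_self]
      · show n • (act (A i) (B i) σ (x i) - x i) - (act (A i) (B i) σ (γ i) - γ i) =
          act (A i) (B i) σ (z 0) - z 0
        rw [hz]
        show _ = act (A i) (B i) σ (n • x i - γ i) - (n • x i - γ i)
        rw [map_sub, map_nsmul, nsmul_sub]
        exact sub_sub_sub_comm _ _ _ _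
    have h1 := tors_quot (h i) (hD i) rfl Δ hΔfin hΔst M (hM i) hzM
    obtain ⟨m, hm⟩ : ∃ m, m = addOrderOf (z : (Fin 1 → EP (A i) (B i)) ⧸ Δ) := ⟨_, rfl⟩
    rw [← hm] at h1
    have hm0 : 0 < m := by
      rw [hm]
      obtain ⟨k, hk, hkx⟩ := hx0
      obtain ⟨c, hc, hcγ⟩ : ∃ c : ℕ, 0 < c ∧ c • γ = 0 := by
        have : Finite Γ := hfin.to_subtype
        refine ⟨Nat.card Γ, Nat.card_pos, ?_⟩
        have := card_nsmul_eq_zero' (G := Γ) (x := ⟨γ, hγ⟩)
        exact congrArg Subtype.val this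
      have hk' : k • x i = 0 := congrFun hkx i
      have hc' : c • γ i = 0 := congrFun hcγ i
      have hkc : (k * c) • z = 0 := by
        rw [hz]
        funext j
        show (k * c) • (n • x i - γ i) = 0
        have e1 : (k * c) • (n • x i) = 0 := by
          rw [← mul_nsmul', show k * c * n = (c * n) * k by ring, mul_nsmul']
          exact (congrArg (fun y => (c * n) • y) hk').trans (nsmul_zero _)
        have e2 : (k * c) • γ i = 0 := by
          rw [mul_nsmul']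
          exact (congrArg (fun y => k • y) hc').trans (nsmul_zero _)
        rw [nsmul_sub, e1, e2, sub_zero]
      exact Nat.pos_of_dvd_of_pos (addOrderOf_dvd_of_nsmul_eq_zero (by
        rw [← QuotientAddGroup.mk_nsmul, hkc]; rfl)) (Nat.mul_pos hk hc)
    have hmz : m • z ∈ Δ := by
      rw [← QuotientAddGroup.eq_zero_iff, QuotientAddGroup.mk_nsmul, hm]
      exact addOrderOf_nsmul_eq_zero _
    obtain ⟨δ, hδ, hδS, hδi⟩ := (hΔ _).1 hmz
    refine ⟨m * n, Nat.mul_pos hm0 hn, ?_, ?_, m • γ + δ, Γ.add_mem (Γ.nsmul_mem hγ m) hδ, ?_⟩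
    · rw [Finset.card_insert_of_notMem hi, pow_succ (2 * Module.finrank K M) S.card, mul_pow,
        mul_comm (m ^ 2)]
      exact Nat.mul_le_mul hn2 h1
    · intro p hp hpd
      rcases (Nat.Prime.dvd_mul hp).1 hpd with h2 | h2
      · exact (Nat.pow_le_pow_left (Nat.le_of_dvd hm0 h2) 2).trans h1
      · exact hnp p hp h2
    · intro s hs
      rw [Finset.mem_insert] at hs
      rcases hs with rfl | hs
      · have h2 : δ s = m • (n • x s - γ s) := by rw [hδi, hz]; rfl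
        show (m * n) • x s = m • γ s + δ s
        rw [h2, mul_nsmul', nsmul_sub]
        abel
      · show (m * n) • x s = m • γ s + δ s
        rw [hδS s hs, ← hγS s hs, mul_nsmul', add_zero]

/-! ### abelian extensions -/

omit [NumberField K] in
/-- no point of order `p` is fixed by all commutators -/
theorem ab_prime {A B : K} {p : ℕ} (h : HasSLn A B p) {y : EP A B} (hy : (p : ℤ) • y = 0)
    (hfix : ∀ σ τ : AlgebraicClosure K ≃ₐ[K] AlgebraicClosure K,
      act A B (σ * τ * σ⁻¹ * τ⁻¹) y = y) : y = 0 := by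
  obtain ⟨P, Q, hB, hsl⟩ := h
  obtain ⟨σ, hσP, hσQ⟩ := hsl 1 1 0 1 (by norm_num)
  obtain ⟨τ, hτP, hτQ⟩ := hsl 1 0 1 1 (by norm_num)
  obtain ⟨u, hu⟩ : ∃ u, u = act A B (τ * σ)⁻¹ y := ⟨_, rfl⟩
  have hu' : act A B (τ * σ) u = y := by
    rw [hu, ← act_mul, mul_inv_cancel, act_one]
  have hpu : (p : ℤ) • u = 0 := by
    rw [hu, ← map_zsmul, hy, map_zero]
  have h1 : act A B (σ * τ) u = y := by
    have h2 := hfix σ τ
    have h3 : σ * τ * σ⁻¹ * τ⁻¹ = (σ * τ) * (τ * σ)⁻¹ := by group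
    rw [h3, act_mul, ← hu] at h2
    exact h2
  obtain ⟨a, c, hac⟩ := hB.span u hpu
  have e1 : act A B (σ * τ) u = (2 * a + c) • P + (a + c) • Q := by
    rw [act_mul, hac, map_add, map_zsmul, map_zsmul, hτP, hτQ, map_add, map_zsmul, map_zsmul,
      map_add, map_zsmul, map_zsmul, map_add, map_zsmul, map_zsmul, hσP, hσQ]
    module
  have e2 : act A B (τ * σ) u = (a + c) • P + (a + 2 * c) • Q := by
    rw [act_mul, hac, map_add, map_zsmul, map_zsmul, hσP, hσQ, map_add, map_zsmul, map_zsmul,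
      map_add, map_zsmul, map_zsmul, map_add, map_zsmul, map_zsmul, hτP, hτQ]
    module
  have h4 := hB.ind a (-c) (by
    have h5 : (2 * a + c) • P + (a + c) • Q - ((a + c) • P + (a + 2 * c) • Q) = 0 := by
      rw [← e1, ← e2, h1, hu', sub_self]
    rw [← h5]
    module)
  have h6 : u = 0 := by
    rw [hac]
    obtain ⟨k, hk⟩ := h4.1
    obtain ⟨l, hl⟩ := (dvd_neg.1 h4.2)
    rw [hk, hl, mul_comm (p : ℤ) k, mul_comm (p : ℤ) l, mul_smul, mul_smul, hB.hP, hB.hQ,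
      smul_zero, smul_zero, add_zero]
  rw [← hu', h6, map_zero]

/-- no torsion point is fixed by all commutators -/
theorem ab_tors {t : ℝ} {j : K} (h : AllSLn t j) {A B : K} (hD : 4 * A ^ 3 + 27 * B ^ 2 ≠ 0)
    (hj : jv A B = j) {y : EP A B} (hy : ∃ m : ℕ, 0 < m ∧ m • y = 0)
    (hfix : ∀ σ τ : AlgebraicClosure K ≃ₐ[K] AlgebraicClosure K,
      act A B (σ * τ * σ⁻¹ * τ⁻¹) y = y) : y = 0 := by
  obtain ⟨m, hm, hmy⟩ := hy
  have h1 : addOrderOf y ∣ m := addOrderOf_dvd_of_nsmul_eq_zero hmy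
  have h2 : 0 < addOrderOf y := Nat.pos_of_dvd_of_pos h1 hm
  by_contra hne
  have h3 : addOrderOf y ≠ 1 := fun h4 => hne (AddMonoid.addOrderOf_eq_one_iff.1 h4)
  obtain ⟨p, hp, k, hk⟩ := Nat.exists_prime_and_dvd h3
  have h5 : k • y = 0 := by
    refine ab_prime (h A B hD hj p hp.one_le (Or.inl hp)) ?_ fun σ τ => ?_
    · rw [natCast_zsmul, ← mul_nsmul', ← hk]
      exact addOrderOf_nsmul_eq_zero y
    · rw [map_nsmul, hfix σ τ]
  have h6 := addOrderOf_dvd_of_nsmul_eq_zero h5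
  have hk0 : 0 < k := by
    rcases Nat.eq_zero_or_pos k with h0 | h0
    · rw [h0, mul_zero] at hk; omega
    · exact h0
  have h7 := Nat.le_of_dvd hk0 h6
  have h8 := hp.two_le
  rw [hk] at h7
  nlinarith

/-- no torsion point of a quotient of `E` is fixed by all commutators -/
theorem ab_quot {t : ℝ} {j : K} (h : AllSLn t j) {A B : K} (hD : 4 * A ^ 3 + 27 * B ^ 2 ≠ 0)
    (hj : jv A B = j) {g : ℕ} (Γ : AddSubgroup (Fin g → EP A B))
    (hfin : (Γ : Set (Fin g → EP A B)).Finite)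
    (hst : ∀ σ : AlgebraicClosure K ≃ₐ[K] AlgebraicClosure K, ∀ x ∈ Γ,
      (fun i => act A B σ (x i)) ∈ Γ)
    {x : Fin g → EP A B} (hx0 : ∃ m : ℕ, 0 < m ∧ m • x = 0)
    (hx : ∀ σ τ : AlgebraicClosure K ≃ₐ[K] AlgebraicClosure K,
      (fun i => act A B (σ * τ * σ⁻¹ * τ⁻¹) (x i) - x i) ∈ Γ) : x ∈ Γ := by
  obtain ⟨N, -, hN⟩ := ker_matrix h hD hj Γ hfin hst
  rw [hN]
  funext i
  refine ab_tors h hD hj ?_ fun σ τ => ?_
  · obtain ⟨m, hm, hmx⟩ := hx0
    refine ⟨m, hm, ?_⟩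
    have h1 : m • Iso.mulV N x = 0 := by rw [← map_nsmul, hmx, map_zero]
    exact congrFun h1 i
  · have h2 := (hN _).1 (hx σ τ)
    have h3 : ∑ k, N i k • (act A B (σ * τ * σ⁻¹ * τ⁻¹) (x k) - x k) = 0 := congrFun h2 i
    have h4 : ∑ k, N i k • act A B (σ * τ * σ⁻¹ * τ⁻¹) (x k) - ∑ k, N i k • x k = 0 := by
      rw [← Finset.sum_sub_distrib, ← h3]
      exact Finset.sum_congr rfl fun k _ => (zsmul_sub _ _ _).symm
    show act A B (σ * τ * σ⁻¹ * τ⁻¹) (∑ k, N i k • x k) = ∑ k, N i k • x k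
    rw [map_sum, Finset.sum_congr rfl fun k _ => map_zsmul (act A B (σ * τ * σ⁻¹ * τ⁻¹)) (N i k) (x k)]
    exact sub_eq_zero.1 h4

/-- **quotients of products of elliptic curves have no torsion over abelian extensions** -/
theorem ab_prod {ι : Type} {t : ℝ} {A B : ι → K}
    (hD : ∀ i, 4 * A i ^ 3 + 27 * B i ^ 2 ≠ 0) (h : ∀ i, AllSLn t (jv (A i) (B i)))
    (Γ : AddSubgroup (∀ i, EP (A i) (B i))) (hfin : (Γ : Set (∀ i, EP (A i) (B i))).Finite)
    (hst : ∀ σ : AlgebraicClosure K ≃ₐ[K] AlgebraicClosure K, ∀ x ∈ Γ,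
      (fun i => act (A i) (B i) σ (x i)) ∈ Γ)
    {x : ∀ i, EP (A i) (B i)}
    (hx : ∀ σ τ : AlgebraicClosure K ≃ₐ[K] AlgebraicClosure K,
      (fun i => act (A i) (B i) (σ * τ * σ⁻¹ * τ⁻¹) (x i) - x i) ∈ Γ)
    (hx0 : ∃ m : ℕ, 0 < m ∧ m • x = 0) (S : Finset ι) :
    ∃ γ ∈ Γ, ∀ s ∈ S, x s = γ s := by
  induction S using Finset.induction_on with
  | empty => exact ⟨0, Γ.zero_mem, by simp⟩
  | insert i S hi ih =>
    obtain ⟨γ, hγ, hγS⟩ := ih
    let Δ : AddSubgroup (Fin 1 → EP (A i) (B i)) :=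
      { carrier := {u | ∃ δ ∈ Γ, (∀ s ∈ S, δ s = 0) ∧ δ i = u 0}
        zero_mem' := ⟨0, Γ.zero_mem, fun _ _ => rfl, rfl⟩
        add_mem' := by
          rintro u v ⟨δ, h1, h2, h3⟩ ⟨δ', h1', h2', h3'⟩
          refine ⟨δ + δ', Γ.add_mem h1 h1', fun s hs => ?_, ?_⟩
          · rw [Pi.add_apply, h2 s hs, h2' s hs, add_zero]
          · rw [Pi.add_apply, Pi.add_apply, h3, h3']
        neg_mem' := by
          rintro u ⟨δ, h1, h2, h3⟩
          refine ⟨-δ, Γ.neg_mem h1, fun s hs => ?_, ?_⟩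
          · rw [Pi.neg_apply, h2 s hs, neg_zero]
          · rw [Pi.neg_apply, Pi.neg_apply, h3] }
    have hΔ : ∀ u : Fin 1 → EP (A i) (B i), u ∈ Δ ↔
      ∃ δ ∈ Γ, (∀ s ∈ S, δ s = 0) ∧ δ i = u 0 := fun u => Iff.rfl
    have hΔfin : (Δ : Set (Fin 1 → EP (A i) (B i))).Finite := by
      refine (hfin.image (fun δ : (∀ i, EP (A i) (B i)) => (fun _ : Fin 1 => δ i))).subset ?_
      rintro u ⟨δ, h1, h2, h3⟩
      refine ⟨δ, h1, ?_⟩
      funext k
      rw [Subsingleton.elim k 0]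
      exact h3
    have hΔst : ∀ σ : AlgebraicClosure K ≃ₐ[K] AlgebraicClosure K, ∀ u ∈ Δ,
        (fun k => act (A i) (B i) σ (u k)) ∈ Δ := by
      rintro σ u ⟨δ, h1, h2, h3⟩
      refine ⟨_, hst σ δ h1, fun s hs => ?_, ?_⟩
      · show act (A s) (B s) σ (δ s) = 0
        rw [h2 s hs, map_zero]
      · show act (A i) (B i) σ (δ i) = act (A i) (B i) σ (u 0)
        rw [h3]
    obtain ⟨z, hz⟩ : ∃ z : Fin 1 → EP (A i) (B i), z = fun _ => x i - γ i := ⟨_, rfl⟩
    have hzM : ∀ σ τ : AlgebraicClosure K ≃ₐ[K] AlgebraicClosure K,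
        (fun k => act (A i) (B i) (σ * τ * σ⁻¹ * τ⁻¹) (z k) - z k) ∈ Δ := by
      intro σ τ
      obtain ⟨c, hc⟩ : ∃ c, c = σ * τ * σ⁻¹ * τ⁻¹ := ⟨_, rfl⟩
      have hxc := hx σ τ
      rw [← hc] at hxc ⊢
      refine ⟨(fun i => act (A i) (B i) c (x i) - x i) -
        ((fun i => act (A i) (B i) c (γ i)) - γ), Γ.sub_mem hxc
          (Γ.sub_mem (hst c γ hγ) hγ), fun s hs => ?_, ?_⟩
      · show (act (A s) (B s) c (x s) - x s) - (act (A s) (B s) c (γ s) - γ s) = 0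
        rw [← hγS s hs, sub_self]
      · show (act (A i) (B i) c (x i) - x i) - (act (A i) (B i) c (γ i) - γ i) =
          act (A i) (B i) c (z 0) - z 0
        rw [hz]
        show _ = act (A i) (B i) c (x i - γ i) - (x i - γ i)
        rw [map_sub]
        exact sub_sub_sub_comm _ _ _ _
    have hz0 : ∃ m : ℕ, 0 < m ∧ m • z = 0 := by
      obtain ⟨k, hk, hkx⟩ := hx0
      obtain ⟨c, hc, hcγ⟩ : ∃ c : ℕ, 0 < c ∧ c • γ = 0 := by
        have : Finite Γ := hfin.to_subtype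
        refine ⟨Nat.card Γ, Nat.card_pos, ?_⟩
        have := card_nsmul_eq_zero' (G := Γ) (x := ⟨γ, hγ⟩)
        exact congrArg Subtype.val this
      have hk' : k • x i = 0 := congrFun hkx i
      have hc' : c • γ i = 0 := congrFun hcγ i
      refine ⟨k * c, Nat.mul_pos hk hc, ?_⟩
      rw [hz]
      funext j
      show (k * c) • (x i - γ i) = 0
      have e1 : (k * c) • (x i) = 0 := by
        rw [mul_comm, mul_nsmul']
        exact (congrArg (fun y => c • y) hk').trans (nsmul_zero _)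
      have e2 : (k * c) • γ i = 0 := by
        rw [mul_nsmul']
        exact (congrArg (fun y => k • y) hc').trans (nsmul_zero _)
      rw [nsmul_sub, e1, e2, sub_zero]
    obtain ⟨δ, hδ, hδS, hδi⟩ := (hΔ _).1
      (ab_quot (h i) (hD i) rfl Δ hΔfin hΔst hz0 hzM)
    refine ⟨γ + δ, Γ.add_mem hγ hδ, fun s hs => ?_⟩
    rw [Finset.mem_insert] at hs
    rcases hs with rfl | hs
    · have h2 : δ s = x s - γ s := by rw [hδi, hz]
      show x s = γ s + δ s
      rw [h2]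
      abel
    · show x s = γ s + δ s
      rw [hδS s hs, ← hγS s hs, add_zero]

/-- commutators fix abelian extensions -/
theorem comm_fix (M : IntermediateField K (AlgebraicClosure K)) [Normal K M]
    (hM : ∀ σ τ : M ≃ₐ[K] M, σ * τ = τ * σ)
    (σ τ : AlgebraicClosure K ≃ₐ[K] AlgebraicClosure K) {z : AlgebraicClosure K} (hz : z ∈ M) :
    (σ * τ * σ⁻¹ * τ⁻¹) z = z := by
  obtain ⟨c, hc⟩ : ∃ c, c = σ * τ * σ⁻¹ * τ⁻¹ := ⟨_, rfl⟩
  have h1 : AlgEquiv.restrictNormalHom M c = 1 := by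
    rw [hc, map_mul, map_mul, map_mul, map_inv, map_inv,
      hM (AlgEquiv.restrictNormalHom M σ) (AlgEquiv.restrictNormalHom M τ),
      mul_inv_cancel_right, mul_inv_cancel]
  have h2 := AlgEquiv.restrictNormal_commutes c M ⟨z, hz⟩
  have h3 : c.restrictNormal M = 1 := h1
  rw [h3] at h2
  rw [← hc]
  exact h2.symm

end Pool.Agent.Q19.SU
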