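import Pool.Agent.Q19.SU.Ser
import Pool.Agent.Q19.SU.NoL
import Pool.Agent.Y673.SL.Cr

/-!
# The image contains `SL₂(𝔽_p)` for all primes `p`, for almost all invariants
-/

set_option autoImplicit false

namespace Pool.Agent.Q19.SU

open WeierstrassCurve NumberField IsDedekindDomain Finset Pool.Agent.H691R3
open Pool.Agent.Y673.Loc Pool.Agent.Y673.SL
open Pool.Agent.Y733.LS (Sp sp jj dl)
open Pool.Agent.W223.AK (ht)
open Pool.Agent.Q19.JL

variable {K : Type} [Field K] [NumberField K]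

/-- for all curves of invariant `j` and all primes `p ≥ 5`, `p ^ 2 > 8 [K : ℚ] + 1`, the image contains
all automorphisms of determinant one -/
def AllSL (j : K) : Prop := ∀ A B : K, 4 * A ^ 3 + 27 * B ^ 2 ≠ 0 → jv A B = j →
  ∀ p : ℕ, p.Prime → 5 ≤ p → 8 * Module.finrank ℚ K + 1 < p ^ 2 → HasSL A B p

open scoped Classical in
theorem sl_of {j : K} (h0 : j ≠ 0) (h1 : j ≠ 1728) {η : ℝ} (hη : η < 1 / 2)
    (hsp : (1 - η) * ht j ≤ sp j) (hht : Module.finrank ℚ K * C5 < (1 / 2 - η) * ht j) :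
    AllSL j := by
  intro A B hD hj p hp h5 hd
  have hA0 : A ≠ 0 := by
    rintro rfl
    apply h0
    rw [← hj]
    unfold jv
    simp
  have hB0 : B ≠ 0 := by
    rintro rfl
    apply h1
    rw [← hj]
    unfold jv
    have hA3 : A ^ 3 ≠ 0 := pow_ne_zero 3 hA0
    rw [zero_pow two_ne_zero, mul_zero, add_zero, div_eq_iff (mul_ne_zero (by norm_num : (4 : K) ≠ 0) hA3)]
    ring
  have e : jj A B = j := hj
  have hC5 : 0 ≤ C5 := by
    unfold C5
    have a1 : 0 ≤ Real.log 6912 := Real.log_nonneg (by norm_num)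
    have a2 : 0 ≤ Real.log 250 := Real.log_nonneg (by norm_num)
    have a3 : 0 ≤ Real.log ((4 * 6912 * 46656 : ℕ) : ℝ) := Real.log_nonneg (by norm_num)
    positivity
  have hn : (0 : ℝ) ≤ Module.finrank ℚ K := Nat.cast_nonneg _
  have hpos : 0 < ht j := by
    by_contra hc
    rw [not_lt] at hc
    have h2 : (1 / 2 - η) * ht j ≤ 0 := mul_nonpos_of_nonneg_of_nonpos (by linarith) hc
    have h3 : 0 ≤ Module.finrank ℚ K * C5 := mul_nonneg hn hC5
    linarith
  have hsp0 : 0 < sp j := lt_of_lt_of_le (by nlinarith) hsp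
  have hO := ord_of h0 hsp0 A B hD hj hp h5 hd
  by_contra hno
  obtain ⟨v, hv, hv0, hst⟩ := has_or hD hp hno hO
  exact no_line hD hp h5 hA0 hB0 hη (by rw [e]; exact hsp) (by rw [e]; exact hht) hv hv0 hst

/-- **all primes at once, for almost all invariants of all heights** -/
theorem sl_prop (K : Type) [Field K] [NumberField K] :
    ∃ ν X₀ : ℝ, 0 < ν ∧ 1 ≤ X₀ ∧ ∀ X : ℝ, X₀ ≤ X → ∀ S : Set K, S ⊆ Iv K X →
      (∀ j ∈ S, ¬ AllSL j) → ((S.ncard : ℕ) : ℝ) ≤ X ^ (-ν) * (Iv K X).ncard := by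
  obtain ⟨ν, X₀, hν, hX₀, h⟩ := ls_prop K (1 / 4) (4 * (Module.finrank ℚ K * C5) + 1)
    (by norm_num) (by norm_num)
  refine ⟨ν, X₀, hν, hX₀, fun X hX S hS hb => h X hX S hS fun j hj hgood => hb j hj ?_⟩
  obtain ⟨-, -, hsp, hht⟩ := hgood
  exact sl_of (hS hj).1 (hS hj).2.1 (η := 1 / 4) (by norm_num) hsp (by linarith)

end Pool.Agent.Q19.SU
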