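import Pool.Agent.Q19.SU.Two

/-!
# The image contains `SL₂(𝔽_p)` for all primes `p` without exception, for almost all invariants
-/

set_option autoImplicit false

namespace Pool.Agent.Q19.SU

open WeierstrassCurve NumberField IsDedekindDomain Finset Pool.Agent.H691R3
open Pool.Agent.H901R3.MS Pool.Agent.W275.FM
open Pool.Agent.Y673.Loc Pool.Agent.Y673.SL
open Pool.Agent.TH876.Loc (Pr)
open Pool.Agent.Y733.LS (Sp sp jj dl Fs_sp Fs_log fv_Na fin_nat)
open Pool.Agent.W223.AK (ht)
open Pool.Agent.Q19.JL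

variable {K : Type} [Field K] [NumberField K]

open scoped Classical in
/-- **a stable subgroup of order two** comes from a root over the field -/
theorem root_of {A B : K} (hD : 4 * A ^ 3 + 27 * B ^ 2 ≠ 0)
    {v₀ : Pt (ca (AlgebraicClosure K) A) (ca (AlgebraicClosure K) B)} (hv : 2 • v₀ = 0)
    (hv0 : v₀ ≠ 0)
    (hst : ∀ τ : AlgebraicClosure K ≃ₐ[K] AlgebraicClosure K,
      mp A B (τ : AlgebraicClosure K →ₐ[K] AlgebraicClosure K) v₀ ∈ AddSubgroup.zmultiples v₀) :
    ∃ x : K, x ^ 3 + A * x + B = 0 := by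
  haveI : CharZero (AlgebraicClosure K) :=
    charZero_of_injective_algebraMap (algebraMap K (AlgebraicClosure K)).injective
  have discK : Disc (ca (AlgebraicClosure K) A) (ca (AlgebraicClosure K) B) := by
    unfold Disc ca
    refine mul_ne_zero two_ne_zero ?_
    have e : (4 : AlgebraicClosure K) * (algebraMap K (AlgebraicClosure K) A) ^ 3 +
        27 * (algebraMap K (AlgebraicClosure K) B) ^ 2 =
        algebraMap K (AlgebraicClosure K) (4 * A ^ 3 + 27 * B ^ 2) := by
      simp only [map_mul, map_add, map_pow, map_ofNat]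
    rw [e]
    exact (map_ne_zero _).2 hD
  have h2K : (2 : AlgebraicClosure K) ≠ 0 := two_ne_zero
  have fix : ∀ τ : AlgebraicClosure K ≃ₐ[K] AlgebraicClosure K,
      mp A B (τ : AlgebraicClosure K →ₐ[K] AlgebraicClosure K) v₀ = v₀ := by
    intro τ
    obtain ⟨m, hm⟩ := AddSubgroup.mem_zmultiples_iff.1 (hst τ)
    have h2 : (2 : ℤ) • v₀ = 0 := by
      rw [← hv]
      exact natCast_zsmul v₀ 2
    rcases Int.even_or_odd m with ⟨k, hk⟩ | ⟨k, hk⟩
    · exfalso
      apply hv0
      apply mp_injective A B (τ : AlgebraicClosure K →ₐ[K] AlgebraicClosure K)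
      rw [← hm, map_zero, hk, ← two_mul, mul_comm, mul_zsmul, h2, zsmul_zero]
    · rw [← hm, hk, add_zsmul, mul_comm, mul_zsmul, h2, zsmul_zero, zero_add, one_zsmul]
  rcases v₀ with _ | ⟨x, y, h⟩
  · exact absurd rfl hv0
  have hxy : ∀ τ : AlgebraicClosure K ≃ₐ[K] AlgebraicClosure K, τ x = x := by
    intro τ
    have h1 := fix τ
    rw [mp_some] at h1
    exact (pt_inj h1).1
  have hy0 : y = 0 := by
    by_contra hy
    have hyy : y ≠ -y := by
      intro h1
      apply hy
      have h2 : 2 * y = 0 := by linear_combination h1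
      exact (mul_eq_zero.1 h2).resolve_left h2K
    rw [two_nsmul] at hv
    obtain ⟨h3, h4⟩ := add_dbl h h rfl hyy _ _ _ rfl rfl rfl
    rw [h4] at hv
    exact absurd hv (Affine.Point.some_ne_zero h3)
  have hE := (nonsingular_iff discK).1 h
  unfold Eqn at hE
  rw [hy0] at hE
  obtain ⟨x₀, rfl⟩ := (InfiniteGalois.mem_range_algebraMap_iff_fixed (k := K) x).2 hxy
  refine ⟨x₀, (algebraMap K (AlgebraicClosure K)).injective ?_⟩
  rw [map_zero, map_add, map_add, map_pow, map_mul]
  unfold ca at hE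
  linear_combination -hE

open Classical in
/-- a simple pole which does not divide `p` -/
theorem exists_sp' {j : K} {p : ℕ} (hp : p.Prime)
    (h : Module.finrank ℚ K * Real.log p < sp j) : ∃ v, Sp j v ∧ (adv K v).v (p : K) = 0 := by
  by_contra hc
  push Not at hc
  have hpK : (p : K) ≠ 0 := Nat.cast_ne_zero.2 hp.ne_zero
  have hle : sp j ≤ ∑ᶠ v : Pr K, -Real.log (fv v (p : K)) := by
    unfold Pool.Agent.Y733.LS.sp
    have s2 : (Function.support fun v : Pr K => -Real.log (fv v (p : K))).Finite := by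
      have := Fs_log (K := K) hpK
      refine this.subset fun v hv => ?_
      rw [Function.mem_support] at hv ⊢
      intro h0
      have h0' : Real.log (fv v (p : K)) = 0 := h0
      exact hv (by rw [h0', neg_zero])
    refine finsum_le_finsum' (Fs_sp j) s2 fun v => ?_
    show (if Sp j v then Real.log (Nv v) else 0) ≤ -Real.log (fv v (p : K))
    have h0 : Real.log (fv v (p : K)) ≤ 0 :=
      Real.log_nonpos (AbsoluteValue.nonneg _ _) ((fv_Na v).nat p)
    split_ifs with hS
    · have hne := hc v hS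
      have hN := Pool.Agent.W223.AK.Nv_one_lt v
      have hlN : 0 < Real.log (Nv v) := Real.log_pos hN
      have e := Pool.Agent.Y673.Cnt.fv_adv v hpK
      have h1 : Real.log (fv v (p : K)) = -((adv K v).v (p : K) : ℝ) * Real.log (Nv v) := by
        rw [e, Real.log_zpow]
        push_cast
        ring
      rw [h1] at h0 ⊢
      have h2 : 0 ≤ (adv K v).v (p : K) := by
        by_contra hneg
        push Not at hneg
        have : ((adv K v).v (p : K) : ℝ) < 0 := by exact_mod_cast hneg
        nlinarith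
      have h3 : 1 ≤ (adv K v).v (p : K) := by omega
      have h4 : (1 : ℝ) ≤ ((adv K v).v (p : K) : ℝ) := by exact_mod_cast h3
      nlinarith
    · linarith
  rw [finsum_neg_distrib, fin_nat hp.ne_zero, neg_neg] at hle
  linarith

/-- for all curves of invariant `j` and all primes `p` the image contains all automorphisms of
determinant one -/
def AllSL' (j : K) : Prop := ∀ A B : K, 4 * A ^ 3 + 27 * B ^ 2 ≠ 0 → jv A B = j →
  ∀ p : ℕ, p.Prime → HasSL A B p

/-- the bound -/
noncomputable def CA (n : ℕ) : ℝ := n * C5 + n * (10 * Real.log 2) + n * Real.log (8 * n + 1)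

open scoped Classical in
theorem sl_all {j : K} (h0 : j ≠ 0) (h1 : j ≠ 1728) {η : ℝ} (hη : η ≤ 1 / 4)
    (hsp : (1 - η) * ht j ≤ sp j) (hht : CA (Module.finrank ℚ K) < 1 / 4 * ht j) :
    AllSL' j := by
  intro A B hD hj p hp
  have hA0 : A ≠ 0 := by
    rintro rfl
    apply h0
    rw [← hj]
    unfold jv
    simp
  have hB0 : B ≠ 0 := by
    rintro rfl
    apply h1
    rw [← hj]
    unfold jv
    have hA3 : A ^ 3 ≠ 0 := pow_ne_zero 3 hA0
    rw [zero_pow two_ne_zero, mul_zero, add_zero, div_eq_iff (mul_ne_zero (by norm_num : (4 : K) ≠ 0) hA3)]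
    ring
  have e : jj A B = j := hj
  have hC5 : 0 ≤ C5 := by
    unfold C5
    have a1 : 0 ≤ Real.log 6912 := Real.log_nonneg (by norm_num)
    have a2 : 0 ≤ Real.log 250 := Real.log_nonneg (by norm_num)
    have a3 : 0 ≤ Real.log ((4 * 6912 * 46656 : ℕ) : ℝ) := Real.log_nonneg (by norm_num)
    positivity
  have hn : (0 : ℝ) ≤ Module.finrank ℚ K := Nat.cast_nonneg _
  have l2 : 0 ≤ Real.log 2 := Real.log_nonneg (by norm_num)
  have l8 : 0 ≤ Real.log (8 * Module.finrank ℚ K + 1) := Real.log_nonneg (by linarith)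
  have t1 : 0 ≤ Module.finrank ℚ K * C5 := mul_nonneg hn hC5
  have t2 : 0 ≤ Module.finrank ℚ K * (10 * Real.log 2) := mul_nonneg hn (by linarith)
  have t3 : 0 ≤ Module.finrank ℚ K * Real.log (8 * Module.finrank ℚ K + 1) := mul_nonneg hn l8
  unfold CA at hht
  have hpos : 0 < ht j := by linarith
  have hspq : 3 / 4 * ht j ≤ sp j := le_trans (by nlinarith) hsp
  have hsp0 : 0 < sp j := by linarith
  have hspη : (1 - 1 / 4 : ℝ) * ht j ≤ sp j := by linarith
  have hO : OrdP A B p := by
    rcases hp.eq_two_or_odd' with rfl | hodd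
    · obtain ⟨v, hv⟩ := exists_sp hsp0
      obtain ⟨k1, k2, k3⟩ := adv_sp h0 hv
      exact ord_two hD v k1 (by rw [hj]; exact k3)
    · by_cases h3 : p = 3
      · subst h3
        obtain ⟨v, hv⟩ := exists_sp hsp0
        obtain ⟨k1, k2, k3⟩ := adv_sp h0 hv
        exact ord_odd hD hp hodd v k1 (by exact_mod_cast k2) (by rw [hj]; exact k3)
      · have h5 : 5 ≤ p := by
          have h2 := hp.two_le
          obtain ⟨t, ht⟩ := hodd
          omega
        by_cases hd : 8 * Module.finrank ℚ K + 1 < p ^ 2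
        · exact ord_of h0 hsp0 A B hD hj hp h5 hd
        · obtain ⟨v, hv, hpv⟩ := exists_sp' (j := j) hp (by
            have h6 : (p : ℝ) ≤ 8 * Module.finrank ℚ K + 1 := by
              have : p ≤ 8 * Module.finrank ℚ K + 1 := by
                push Not at hd
                nlinarith
              exact_mod_cast this
            have h7 : Real.log p ≤ Real.log (8 * Module.finrank ℚ K + 1) :=
              Real.log_le_log (by exact_mod_cast hp.pos) h6
            have h8 := mul_le_mul_of_nonneg_left h7 hn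
            linarith)
          obtain ⟨k1, k2, k3⟩ := adv_sp h0 hv
          exact ord_odd hD hp hodd v k1 hpv (by rw [hj]; exact k3)
  by_contra hno
  obtain ⟨v, hv, hv0, hst⟩ := has_or hD hp hno hO
  rcases hp.eq_two_or_odd' with rfl | hodd
  · obtain ⟨x, hx⟩ := root_of hD hv hv0 hst
    obtain ⟨t, ht0, htj⟩ := two_param hD hx
    rw [hj] at htj
    have := two_bound ht0 htj
    linarith
  · exact no_line_odd hD hp hodd hA0 hB0 (η := 1 / 4) (by norm_num) (by rw [e]; exact hspη)
      (by rw [e]; linarith) hv hv0 hst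

/-- **all primes at once, for almost all invariants of all heights** -/
theorem all_prop (K : Type) [Field K] [NumberField K] :
    ∃ ν X₀ : ℝ, 0 < ν ∧ 1 ≤ X₀ ∧ ∀ X : ℝ, X₀ ≤ X → ∀ S : Set K, S ⊆ Iv K X →
      (∀ j ∈ S, ¬ AllSL' j) → ((S.ncard : ℕ) : ℝ) ≤ X ^ (-ν) * (Iv K X).ncard := by
  obtain ⟨ν, X₀, hν, hX₀, h⟩ := ls_prop K (1 / 4) (4 * CA (Module.finrank ℚ K) + 1)
    (by norm_num) (by norm_num)
  refine ⟨ν, X₀, hν, hX₀, fun X hX S hS hb => h X hX S hS fun j hj hgood => hb j hj ?_⟩
  obtain ⟨-, -, hsp, hht⟩ := hgood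
  exact sl_all (hS hj).1 (hS hj).2.1 (η := 1 / 4) le_rfl hsp (by linarith)

end Pool.Agent.Q19.SU
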