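import Pool.Agent.Q19.SU.Uni3
import Pool.Agent.Q19.SU.Gen3
import Pool.Agent.Q19.SU.SerAll

/-!
# Elements of the inertia group at a simple pole acting on the torsion of all levels
-/

set_option autoImplicit false

namespace Pool.Agent.Q19.SU

open WeierstrassCurve NumberField IsDedekindDomain Pool.Agent.H901R3.MS Pool.Agent.Y673.Loc
open Pool.Agent.Y673.Loc.ZV Pool.Agent.W275.FM Pool.Agent.W275.FMK Pool.Agent.Y673.FM
open Pool.Agent.TH876.Loc (Pr)

section el
variable {K : Type} [Field K] [NumberField K] {L : Type} [Field L] [NumberField L] [Algebra K L]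
  [DecidableEq L]

/-- an element of `p`-power order of the inertia group which does not act trivially on the points of
order `p` -/
theorem exists_el [IsGalois K L] (w : HeightOneSpectrum (𝓞 L)) {H : ℤ} {e η : L}
    (D : Dt (adv L w) 0 H e η) {A B : K} (hA : algebraMap K L A = cA e η)
    (hB : algebraMap K L B = cB e η)
    (hH : 2 * H = Nat.card (w.asIdeal.inertia (L ≃ₐ[K] L))) {p : ℕ} (hp : p.Prime)
    (hlev : Odd p → ∃ P : Pt (cA e η) (cB e η), p • P = 0 ∧
      ∃ a, 0 < a ∧ LV (adv L w) 0 H e η P a) :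
    ∃ σ : L ≃ₐ[K] L, In (adv L w) (rh σ) ∧ (∃ s : ℕ, σ ^ (p ^ s) = 1) ∧
      ∃ (ha : rh σ (cA e η) = cA e η) (hb : rh σ (cB e η) = cB e η) (P : Pt (cA e η) (cB e η)),
        p • P = 0 ∧ ac two_ne_zero (rh σ) ha hb P ≠ P := by
  rcases hp.eq_two_or_odd' with rfl | hodd
  · -- the prime two
    have hz := z_val D
    have hH1 := D.dat.hH
    have hη0 : η ≠ 0 := by
      rintro rfl
      apply hz.1
      rw [zero_div]
    obtain ⟨I, hI⟩ : ∃ I, I = w.asIdeal.inertia (L ≃ₐ[K] L) := ⟨_, rfl⟩
    rw [← hI] at hH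
    have : Finite (L ≃ₐ[K] L) := inferInstance
    obtain ⟨s, m, hm, hIm⟩ := Nat.exists_eq_pow_mul_and_not_dvd (Nat.card_pos (α := I)).ne' 2
      (by norm_num)
    have : Fact (Nat.Prime 2) := ⟨hp⟩
    obtain ⟨S, hS⟩ := Sylow.exists_subgroup_card_pow_prime (G := I) 2 (n := s)
      (by rw [hIm]; exact Dvd.intro _ rfl)
    obtain ⟨J, hJ⟩ : ∃ J : Subgroup (L ≃ₐ[K] L), J = S.map I.subtype := ⟨_, rfl⟩
    have hJI : J ≤ I := by
      rw [hJ]
      exact Subgroup.map_subtype_le S
    have hJc : Nat.card J = 2 ^ s := by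
      rw [hJ, ← hS]
      exact (Nat.card_congr (S.equivMapOfInjective I.subtype I.subtype_injective).toEquiv).symm
    obtain ⟨σ, hσJ, hσz⟩ : ∃ σ ∈ J, σ (η / (3 * e)) ≠ η / (3 * e) := by
      by_contra hcon
      push Not at hcon
      have h1 := fix_dvd K L w J (by rw [← hI]; exact hJI) _ hcon
      rw [hJc, hz.2] at h1
      obtain ⟨c, hc⟩ := h1
      have h2 : ((2 : ℤ) ^ s) * m = (2 : ℤ) ^ s * (2 * c) := by
        have h3 : (Nat.card I : ℤ) = (2 : ℤ) ^ s * m := by rw [hIm]; push_cast; ring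
        rw [← h3, ← hH, hc]; push_cast; ring
      have h4 := mul_left_cancel₀ (pow_ne_zero s (two_ne_zero (α := ℤ))) h2
      apply hm
      have : (2 : ℤ) ∣ (m : ℤ) := ⟨c, h4⟩
      exact_mod_cast this
    have hJk : σ ^ (2 ^ s) = 1 := by
      have h1 : (⟨σ, hσJ⟩ : J) ^ (2 ^ s) = 1 := by rw [← hJc]; exact pow_card_eq_one'
      have := congrArg (fun x : J => (x : L ≃ₐ[K] L)) h1
      simpa using this
    have ha : rh σ (cA e η) = cA e η := by rw [← hA]; exact σ.commutes A
    have hb : rh σ (cB e η) = cB e η := by rw [← hB]; exact σ.commutes B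
    have hin : In (adv L w) (rh σ) := inertia_In K L w (by rw [← hI]; exact hJI hσJ)
    obtain ⟨he, hη⟩ := he_of D hin ha hb
    have he' : σ e = e := he
    have hη' : σ η = -η := by
      rcases hη with h | h
      · exfalso
        apply hσz
        have h' : σ η = η := h
        rw [map_div₀, map_mul, map_ofNat, he', h']
      · exact h
    have hns : (CV (cA e η) (cB e η)).toAffine.Nonsingular (e + η) 0 := by
      rw [nonsingular_iff D.disc]
      unfold Eqn cA cB
      ring
    refine ⟨σ, hin, ⟨s, hJk⟩, ha, hb, Affine.Point.some (e + η) 0 hns, ?_, ?_⟩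
    · rw [two_nsmul]
      exact add_opp hns hns rfl (by simp)
    · rw [ac_some]
      intro h
      have h5 : σ (e + η) = e + η := (pt_inj h).1
      rw [map_add, he', hη'] at h5
      apply hη0
      have h6 : (2 : L) * η = 0 := by linear_combination -h5
      exact (mul_eq_zero.1 h6).resolve_left two_ne_zero
  · obtain ⟨P, hP, a, ha0, hl⟩ := hlev hodd
    by_contra hcon
    push Not at hcon
    have hP0 : P ≠ 0 := by
      rintro rfl
      have h1 : a = 0 := hl
      omega
    have h0 := level_fix w D hA hB hH hp hodd hP hP0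
      (fun σ ha hb hin s hs _ => hcon σ hin ⟨s, hs⟩ ha hb P hP)
    have := LV.unique D h0 hl
    omega

end el

section tau
variable {K : Type} [Field K] [NumberField K]

open scoped Classical in
/-- **the elements of the inertia group at a simple pole** -/
theorem tau_of {A B : K} (hD : 4 * A ^ 3 + 27 * B ^ 2 ≠ 0) {N p : ℕ} (hN : 1 ≤ N) (hp : p.Prime)
    (hpN : p ∣ N) (v : Pr K) (h2 : (adv K v).v 2 = 0) (h3 : (adv K v).v 3 = 0)
    (hNv : (adv K v).v (N : K) = 0) (hj : (adv K v).v (jv A B) = -1) :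
    Gen.Tau (fun σ : AlgebraicClosure K ≃ₐ[K] AlgebraicClosure K => act A B σ) N p := by
  obtain ⟨L, iF, iN, iA, iG, ι, w, H, e, η, D, hA, hB, hH, ⟨s, hs⟩, hι, hτσ, hadv⟩ :=
    setup hD hN v h2 hj
  have hιA : ∀ a : K, ι (algebraMap K L a) = ca (AlgebraicClosure K) a := fun a => ι.commutes a
  have hιcA : ι (cA e η) = ca (AlgebraicClosure K) A := by rw [← hA, hιA]
  have hιcB : ι (cB e η) = ca (AlgebraicClosure K) B := by rw [← hB, hιA]
  have hchar : CharZero (AlgebraicClosure K) :=
    charZero_of_injective_algebraMap (algebraMap K (AlgebraicClosure K)).injective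
  have discK : Disc (ca (AlgebraicClosure K) A) (ca (AlgebraicClosure K) B) := by
    unfold Disc ca
    refine mul_ne_zero two_ne_zero ?_
    have e : (4 : AlgebraicClosure K) * (algebraMap K (AlgebraicClosure K) A) ^ 3 +
        27 * (algebraMap K (AlgebraicClosure K) B) ^ 2 =
        algebraMap K (AlgebraicClosure K) (4 * A ^ 3 + 27 * B ^ 2) := by
      simp only [map_mul, map_add, map_pow, map_ofNat]
    rw [e]
    exact (map_ne_zero _).2 hD
  have hH1 := D.dat.hH
  -- the place is prime to `N` and to `p`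
  have hNL : (adv L w).E 0 (N : L) := by
    refine ⟨Nat.cast_ne_zero.2 (by omega), ?_⟩
    have := hadv (N : K)
    rwa [map_natCast, hNv, mul_zero] at this
  have h3L : (adv L w).E 0 (3 : L) := by
    refine ⟨three_ne_zero, ?_⟩
    have := hadv 3
    rwa [map_ofNat, h3, mul_zero] at this
  -- the homomorphism
  obtain ⟨T, hT⟩ : ∃ T : Pt (cA e η) (cB e η) →+ Pt (ca (AlgebraicClosure K) A)
      (ca (AlgebraicClosure K) B), T = tw (ι : L →+* AlgebraicClosure K) 1 two_ne_zero one_ne_zero
        (by rw [one_pow, one_mul]; exact hιcA) (by rw [one_pow, one_mul]; exact hιcB) := ⟨_, rfl⟩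
  have hns : ∀ {x y : L}, (CV (cA e η) (cB e η)).toAffine.Nonsingular x y →
      (CV (ca (AlgebraicClosure K) A) (ca (AlgebraicClosure K) B)).toAffine.Nonsingular (ι x)
        (ι y) := by
    intro x y h
    rw [nonsingular_iff discK]
    have := (nonsingular_iff D.disc).1 h
    unfold Eqn at this ⊢
    rw [← hιcA, ← hιcB, ← map_pow, this]
    simp only [map_add, map_mul, map_pow]
  have hTsome : ∀ {x y : L} (h : (CV (cA e η) (cB e η)).toAffine.Nonsingular x y),
      T (Affine.Point.some x y h) = Affine.Point.some (ι x) (ι y) (hns h) := by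
    intro x y h
    rw [hT, tw_some]
    refine pt_ext _ _ ?_ ?_
    · rw [one_pow, div_one]; rfl
    · rw [one_pow, div_one]; rfl
  have hTinj : Function.Injective T := by rw [hT]; exact tw_inj _ _ _ _ _ _
  have hTsurj : ∀ R : Pt (ca (AlgebraicClosure K) A) (ca (AlgebraicClosure K) B), N • R = 0 →
      ∃ R', T R' = R := by
    rintro (_ | ⟨x, y, h⟩) hR
    · exact ⟨0, map_zero _⟩
    · obtain ⟨x', hx'⟩ := hι x ⟨x, y, h, hR, Or.inl rfl⟩
      obtain ⟨y', hy'⟩ := hι y ⟨x, y, h, hR, Or.inr rfl⟩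
      have hn : (CV (cA e η) (cB e η)).toAffine.Nonsingular x' y' := by
        rw [nonsingular_iff D.disc]
        have := (nonsingular_iff discK).1 h
        unfold Eqn at this ⊢
        have h1 : ι (y' ^ 2) = ι (x' ^ 3 + cA e η * x' + cB e η) := by
          simp only [map_add, map_mul, map_pow]
          rw [hx', hy', hιcA, hιcB]
          exact this
        exact ι.injective h1
      exact ⟨Affine.Point.some x' y' hn, by rw [hTsome]; exact pt_ext _ _ hx' hy'⟩
  obtain ⟨σ, hin, ⟨t, ht⟩, ha, hb, P, hP, hPne⟩ := exists_el w D hA hB hH hp (by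
    intro hodd
    refine pos_level D (ι : L →+* AlgebraicClosure K) (n := p) hodd ?_ ?_
    · intro x' y' h h0
      have e1 : (ι : L →+* AlgebraicClosure K) (cA e η) = ca (AlgebraicClosure K) A := hιcA
      have e2 : (ι : L →+* AlgebraicClosure K) (cB e η) = ca (AlgebraicClosure K) B := hιcB
      revert h h0
      rw [e1, e2]
      intro h h0
      have h0' : N • (Affine.Point.some x' y' h :
          Pt (ca (AlgebraicClosure K) A) (ca (AlgebraicClosure K) B)) = 0 := by
        obtain ⟨c, hc⟩ := hpN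
        rw [hc, mul_comm, mul_nsmul', h0, nsmul_zero]
      obtain ⟨x'', hx''⟩ := hι x' ⟨x', y', h, h0', Or.inl rfl⟩
      obtain ⟨y'', hy''⟩ := hι y' ⟨x', y', h, h0', Or.inr rfl⟩
      exact ⟨⟨x'', hx''⟩, ⟨y'', hy''⟩⟩
    · have h1 : (adv L w).v (p : L) = 0 := by
        obtain ⟨c, hc⟩ := hpN
        have hc0 : c ≠ 0 := by
          rintro rfl
          omega
        have h4 := hNL
        rw [hc] at h4
        push_cast at h4
        have h5 := (E_of_ne (w := adv L w) (Nat.cast_ne_zero.2 hp.ne_zero : (p : L) ≠ 0)).mul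
          (E_of_ne (w := adv L w) (Nat.cast_ne_zero.2 hc0 : (c : L) ≠ 0))
        have h6 := h4.eq h5
        have h7 : 0 ≤ (adv L w).v (p : L) :=
          (E_of_ne (w := adv L w) (Nat.cast_ne_zero.2 hp.ne_zero : (p : L) ≠ 0)).le_of_G (gn p)
        have h8 : 0 ≤ (adv L w).v (c : L) :=
          (E_of_ne (w := adv L w) (Nat.cast_ne_zero.2 hc0 : (c : L) ≠ 0)).le_of_G (gn c)
        omega
      rw [h1, mul_zero]
      apply mul_pos
      · have : (2 : ℤ) ≤ p := by exact_mod_cast hp.two_le
        nlinarith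
      · omega)
  obtain ⟨he, -⟩ := he_of D hin ha hb
  obtain ⟨χ, hχ, hχs, hu⟩ := unip3 D h3L hs hin ha hb he
  obtain ⟨τ, hτ⟩ := hτσ σ
  have hpow : ∀ (n : ℕ) (x : L), ι ((σ ^ n) x) = (τ ^ n) (ι x) := by
    intro n
    induction n with
    | zero => intro x; rfl
    | succ n ih =>
      intro x
      rw [pow_succ, pow_succ, AlgEquiv.mul_apply, AlgEquiv.mul_apply, ih, hτ]
  have hequiv : ∀ R : Pt (cA e η) (cB e η), act A B τ ((eqv A B (AlgebraicClosure K)).symm (T R)) =
      (eqv A B (AlgebraicClosure K)).symm (T (ac two_ne_zero (rh σ) ha hb R)) := by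
    rintro (_ | ⟨x, y, h⟩)
    · have h0 : (Affine.Point.zero : Pt (cA e η) (cB e η)) = 0 := rfl
      rw [h0, map_zero, map_zero, map_zero, map_zero, map_zero, map_zero]
    · rw [hTsome, ac_some, hTsome, act_coord]
      refine congrArg _ (pt_ext _ _ ?_ ?_)
      · rw [← hτ]; rfl
      · rw [← hτ]; rfl
  have hχp : χ = 1 ∨ (χ = -1 ∧ p = 2) := by
    rcases hχ with h | h
    · exact Or.inl h
    · refine Or.inr ⟨h, ?_⟩
      rcases hp.eq_two_or_odd' with h2 | hodd
      · exact h2
      · exfalso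
        have hσs : σ s = -s := by
          have : σ s = (χ : L) * s := hχs
          rw [this, h]; push_cast; ring
        have hiter : ∀ n : ℕ, (σ ^ n) s = (-1) ^ n * s := by
          intro n
          induction n with
          | zero => simp
          | succ n ih =>
            rw [pow_succ', AlgEquiv.mul_apply, ih, map_mul, map_pow, map_neg, map_one, hσs]
            ring
        have h1 := hiter (p ^ t)
        rw [ht, (hodd.pow).neg_one_pow] at h1
        have h4 : (2 : L) * s = 0 := by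
          have : s = -1 * s := h1
          linear_combination this
        have hs0 : s = 0 := (mul_eq_zero.1 h4).resolve_left two_ne_zero
        apply D.h3e
        rw [← hs, hs0]; ring
  refine ⟨τ, χ, hχp, ?_, ⟨t, ?_⟩, (eqv A B (AlgebraicClosure K)).symm (T P), ?_, ?_⟩
  · intro R hR
    obtain ⟨R', rfl⟩ : ∃ R', (eqv A B (AlgebraicClosure K)).symm R' = R :=
      ⟨_, AddEquiv.symm_apply_apply _ _⟩
    have hR' : N • R' = 0 := by
      apply (eqv A B (AlgebraicClosure K)).symm.injective
      rw [map_nsmul, map_zero, ← natCast_zsmul]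
      exact hR
    obtain ⟨R'', rfl⟩ := hTsurj R' hR'
    have hR'' : N • R'' = 0 := by
      apply hTinj
      rw [map_nsmul, hR', map_zero]
    have h1 := hu N hNL R'' hR''
    obtain ⟨Φ, hΦ⟩ : ∃ Φ : Pt (cA e η) (cB e η) →+ EP A B,
        Φ = (eqv A B (AlgebraicClosure K)).symm.toAddMonoidHom.comp T := ⟨_, rfl⟩
    have hΦa : ∀ R, act A B τ (Φ R) = Φ (ac two_ne_zero (rh σ) ha hb R) := by
      intro R
      rw [hΦ]
      exact hequiv R
    have hΦR : (eqv A B (AlgebraicClosure K)).symm (T R'') = Φ R'' := by rw [hΦ]; rfl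
    have e1 : ∀ R, χ • act A B τ (Φ R) - Φ R = Φ (χ • ac two_ne_zero (rh σ) ha hb R - R) := by
      intro R
      rw [hΦa, ← map_zsmul, ← map_sub]
    show χ • act A B τ (χ • act A B τ _ - _) = χ • act A B τ _ - _
    rw [hΦR, e1, hΦa, ← map_zsmul, h1]
  · intro R hR
    obtain ⟨R', rfl⟩ : ∃ R', (eqv A B (AlgebraicClosure K)).symm R' = R :=
      ⟨_, AddEquiv.symm_apply_apply _ _⟩
    have hR' : N • R' = 0 := by
      apply (eqv A B (AlgebraicClosure K)).symm.injective
      rw [map_nsmul, map_zero, ← natCast_zsmul]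
      exact hR
    obtain ⟨R'', rfl⟩ := hTsurj R' hR'
    rcases R'' with _ | ⟨x, y, h⟩
    · have h0 : (Affine.Point.zero : Pt (cA e η) (cB e η)) = 0 := rfl
      rw [h0, map_zero, map_zero, map_zero]
    · rw [hTsome]
      show act A B (τ ^ (p ^ t)) _ = _
      rw [act_coord]
      refine congrArg _ (pt_ext _ _ ?_ ?_)
      · rw [← hpow, ht]; rfl
      · rw [← hpow, ht]; rfl
  · rw [← map_zsmul, ← map_zsmul, natCast_zsmul, hP, map_zero, map_zero]
  · show act A B τ _ ≠ _
    rw [hequiv]
    intro h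
    exact hPne (hTinj ((eqv A B (AlgebraicClosure K)).symm.injective h))

end tau

end Pool.Agent.Q19.SU
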