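import Pool.Agent.Q19.SU.FinN
import Pool.Agent.Q19.SU.Pairs
import Pool.Agent.Q19.SU.Iso

/-!
# Torsion points over extensions
-/

set_option autoImplicit false

namespace Pool.Agent.Q19.SU

open WeierstrassCurve NumberField IsDedekindDomain
open Pool.Agent.Y673.Loc
open Pool.Agent.W223.AK (ht)

variable {K : Type} [Field K] [NumberField K]

section orb
open scoped Classical

/-- **the degree of the field of definition of a torsion point** -/
theorem orb {A B : K} {n : ℕ} (hn : 1 ≤ n) (h : HasSLn A B n)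
    (M : IntermediateField K (AlgebraicClosure K)) [FiniteDimensional K M] {z : EP A B}
    (hz : ∀ σ ∈ M.fixingSubgroup, act A B σ z = z) (hord : addOrderOf z = n) :
    n ^ 2 ≤ 2 * Module.finrank K M := by
  obtain ⟨P, Q, hB, hsl⟩ := h
  have hnz : (n : ℤ) • z = 0 := by
    rw [natCast_zsmul, ← hord]; exact addOrderOf_nsmul_eq_zero z
  obtain ⟨α, γ, hαγ⟩ := hB.span z hnz
  -- the coordinates are primitive
  have hprim : ∀ a c : ℕ, Nat.gcd (Nat.gcd a c) n = 1 → ∃ σ : AlgebraicClosure K ≃ₐ[K]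
      AlgebraicClosure K, act A B σ P = (a : ℤ) • P + (c : ℤ) • Q := by
    intro a c hac
    have e1 := Nat.gcd_eq_gcd_ab (Nat.gcd a c) n
    have e2 := Nat.gcd_eq_gcd_ab a c
    rw [hac] at e1
    obtain ⟨σ, h1, -⟩ := hsl a (-(Nat.gcdB a c * Nat.gcdA (Nat.gcd a c) n)) c
      (Nat.gcdA a c * Nat.gcdA (Nat.gcd a c) n)
      ⟨-(Nat.gcdB (Nat.gcd a c) n), by
        have e3 : ((Nat.gcd a c : ℕ) : ℤ) = a * Nat.gcdA a c + c * Nat.gcdB a c := e2
        have e4 : ((1 : ℕ) : ℤ) = (Nat.gcd a c : ℕ) * Nat.gcdA (Nat.gcd a c) n +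
          n * Nat.gcdB (Nat.gcd a c) n := e1
        rw [e3] at e4
        push_cast at e4
        linear_combination -e4⟩
    exact ⟨σ, h1⟩
  have hzP : ∃ σ : AlgebraicClosure K ≃ₐ[K] AlgebraicClosure K, act A B σ P = z := by
    have hpos : (0 : ℤ) < n := by exact_mod_cast hn
    obtain ⟨a, ha⟩ : ∃ a : ℕ, (a : ℤ) = α % n := ⟨(α % n).toNat, Int.toNat_of_nonneg
      (Int.emod_nonneg _ hpos.ne')⟩
    obtain ⟨c, hc⟩ : ∃ c : ℕ, (c : ℤ) = γ % n := ⟨(γ % n).toNat, Int.toNat_of_nonneg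
      (Int.emod_nonneg _ hpos.ne')⟩
    have hza : z = (a : ℤ) • P + (c : ℤ) • Q := by
      rw [hαγ]
      congr 1
      · refine Gen.smul_congr hB.hP ?_
        rw [ha]
        exact Int.dvd_self_sub_emod
      · refine Gen.smul_congr hB.hQ ?_
        rw [hc]
        exact Int.dvd_self_sub_emod
    obtain ⟨σ, hσ⟩ := hprim a c (by
      obtain ⟨g, hg⟩ : ∃ g, g = Nat.gcd (Nat.gcd a c) n := ⟨_, rfl⟩
      rw [← hg]
      have hgn : g ∣ n := by rw [hg]; exact Nat.gcd_dvd_right _ _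
      have hgac : g ∣ Nat.gcd a c := by rw [hg]; exact Nat.gcd_dvd_left _ _
      obtain ⟨m, hm⟩ := hgn
      obtain ⟨a', ha'⟩ := hgac.trans (Nat.gcd_dvd_left _ _)
      obtain ⟨c', hc'⟩ := hgac.trans (Nat.gcd_dvd_right _ _)
      have h1 : m • z = 0 := by
        rw [← natCast_zsmul, hza, ha', hc']
        push_cast
        have e1 : (m : ℤ) • (((g : ℤ) * a') • P + ((g : ℤ) * c') • Q) =
            (a' : ℤ) • (((g * m : ℕ) : ℤ) • P) + (c' : ℤ) • (((g * m : ℕ) : ℤ) • Q) := by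
          push_cast
          module
        rw [e1, ← hm, hB.hP, hB.hQ, smul_zero, smul_zero, add_zero]
      have h2 := addOrderOf_dvd_of_nsmul_eq_zero h1
      rw [hord] at h2
      have hm0 : 0 < m := by
        rcases Nat.eq_zero_or_pos m with h0 | h0
        · rw [h0, mul_zero] at hm; omega
        · exact h0
      have h3 := Nat.le_of_dvd hm0 h2
      rw [hm] at h3
      have hg0 : 0 < g := by
        rcases Nat.eq_zero_or_pos g with h0 | h0
        · rw [h0, zero_mul] at hm; omega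
        · exact h0
      nlinarith)
    exact ⟨σ, by rw [hσ, ← hza]⟩
  obtain ⟨σ₀, hσ₀⟩ := hzP
  have hP0 : P = act A B σ₀⁻¹ z := by
    rw [← hσ₀, ← act_mul, inv_mul_cancel, act_one]
  -- the embeddings
  have key : ∀ q ∈ prim n, ∃ σ : AlgebraicClosure K ≃ₐ[K] AlgebraicClosure K,
      act A B σ z = (q.1 : ℤ) • P + (q.2 : ℤ) • Q := by
    intro q hq
    unfold prim at hq
    rw [Finset.mem_filter] at hq
    obtain ⟨σ, hσ⟩ := hprim q.1 q.2 hq.2
    refine ⟨σ * σ₀⁻¹, ?_⟩
    rw [act_mul, ← hP0, hσ]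
  choose! s hs using key
  have hcard : (prim n).card ≤ Module.finrank K M := by
    rw [← AlgHom.card K M (AlgebraicClosure K)]
    refine (Finset.card_le_card_of_injOn (fun q => ((s q : AlgebraicClosure K ≃ₐ[K]
      AlgebraicClosure K) : AlgebraicClosure K →ₐ[K] AlgebraicClosure K).comp M.val)
      (fun q _ => Finset.mem_coe.2 (Finset.mem_univ _)) ?_)
    intro q hq q' hq' heq
    have h1 : (s q')⁻¹ * s q ∈ M.fixingSubgroup := by
      rw [IntermediateField.mem_fixingSubgroup_iff]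
      intro x hx
      have h2 := congrArg (fun f : M →ₐ[K] AlgebraicClosure K => f ⟨x, hx⟩) heq
      have h3 : s q x = s q' x := h2
      rw [AlgEquiv.mul_apply, h3]
      exact (s q').symm_apply_apply x
    have h2 := hz _ h1
    have h3 : act A B (s q) z = act A B (s q') z := by
      have : act A B (s q' * ((s q')⁻¹ * s q)) z = act A B (s q') z := by rw [act_mul, h2]
      rwa [mul_inv_cancel_left] at this
    rw [hs q hq, hs q' hq'] at h3
    have h4 := hB.ind ((q.1 : ℤ) - q'.1) ((q.2 : ℤ) - q'.2) (by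
      have : ((q.1 : ℤ) - q'.1) • P + ((q.2 : ℤ) - q'.2) • Q =
          ((q.1 : ℤ) • P + (q.2 : ℤ) • Q) - ((q'.1 : ℤ) • P + (q'.2 : ℤ) • Q) := by module
      rw [this, h3, sub_self])
    have hq2 : q.1 < n ∧ q.2 < n := by
      have hq0 : q ∈ prim n := hq
      unfold prim at hq0
      rw [Finset.mem_filter, Finset.mem_product, Finset.mem_range, Finset.mem_range] at hq0
      exact hq0.1
    have hq2' : q'.1 < n ∧ q'.2 < n := by
      have hq0 : q' ∈ prim n := hq'
      unfold prim at hq0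
      rw [Finset.mem_filter, Finset.mem_product, Finset.mem_range, Finset.mem_range] at hq0
      exact hq0.1
    have sm : ∀ a b : ℕ, a < n → b < n → (n : ℤ) ∣ (a : ℤ) - b → a = b := by
      intro a b ha hb hab
      have h5 := Int.eq_zero_of_abs_lt_dvd hab (by rw [abs_lt]; omega)
      omega
    exact Prod.ext (sm _ _ hq2.1 hq2'.1 h4.1) (sm _ _ hq2.2 hq2'.2 h4.2)
  have := prim_card hn
  omega

end orb

section bound
open scoped Classical

/-- **torsion points of `E` over an extension** -/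
theorem tors_bound {t : ℝ} {j : K} (h : AllSLn t j) {A B : K} (hD : 4 * A ^ 3 + 27 * B ^ 2 ≠ 0)
    (hj : jv A B = j) (M : IntermediateField K (AlgebraicClosure K)) [FiniteDimensional K M]
    (hM : ((2 * Module.finrank K M : ℕ) : ℝ) ^ Module.finrank ℚ K ≤ Height.mulHeight₁ j ^ (1 - t))
    {z : EP A B} (hz : ∀ σ ∈ M.fixingSubgroup, act A B σ z = z) :
    addOrderOf z ^ 2 ≤ 2 * Module.finrank K M := by
  have hMpos : 0 < Module.finrank K M := Module.finrank_pos
  obtain ⟨N, hN⟩ : ∃ N, N = addOrderOf z := ⟨_, rfl⟩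
  rw [← hN]
  rcases Nat.eq_zero_or_pos N with h0 | hNpos
  · rw [h0]; simp
  by_contra hcon
  push Not at hcon
  -- divisors
  have hdiv : ∀ n : ℕ, n ∣ N → Lev t j n → n ^ 2 ≤ 2 * Module.finrank K M := by
    intro n hn hlev
    obtain ⟨m, hm⟩ := hn
    have hn1 : 1 ≤ n := by
      rcases Nat.eq_zero_or_pos n with h0 | h0
      · rw [h0, zero_mul] at hm; omega
      · exact h0
    have hm1 : 1 ≤ m := by
      rcases Nat.eq_zero_or_pos m with h0 | h0
      · rw [h0, mul_zero] at hm; omega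
      · exact h0
    refine orb hn1 (h A B hD hj n hn1 hlev) M (z := m • z) (fun σ hσ => by
      rw [map_nsmul, hz σ hσ]) ?_
    rw [addOrderOf_nsmul' z (by omega), ← hN, hm, Nat.gcd_mul_left_left,
      Nat.mul_div_cancel _ (by omega)]
  -- the smallest bad divisor
  have hex : ∃ n, n ∣ N ∧ 2 * Module.finrank K M < n ^ 2 := ⟨N, dvd_rfl, hcon⟩
  obtain ⟨hn1, hn2⟩ := Nat.find_spec hex
  have hmin : ∀ m, m < Nat.find hex → m ∣ N → m ^ 2 ≤ 2 * Module.finrank K M := by
    intro m hm hmN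
    by_contra hc
    push Not at hc
    exact Nat.find_min hex hm ⟨hmN, hc⟩
  obtain ⟨n, hn⟩ : ∃ n, n = Nat.find hex := ⟨_, rfl⟩
  rw [← hn] at hn1 hn2 hmin
  have hn1' : n ≠ 1 := by
    rintro h1
    rw [h1] at hn2
    omega
  by_cases hp : n.Prime
  · have := hdiv n hn1 (Or.inl hp)
    omega
  · have hq := Nat.minFac_prime hn1'
    have hnpos : 0 < n := Nat.pos_of_dvd_of_pos hn1 hNpos
    have hsq : n.minFac ^ 2 ≤ n := Nat.minFac_sq_le_self hnpos hp
    obtain ⟨c, hc⟩ := Nat.minFac_dvd n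
    have hc0 : 0 < c := by
      rcases Nat.eq_zero_or_pos c with h0 | h0
      · rw [h0, mul_zero] at hc; omega
      · exact h0
    have hcn : c < n := by
      have := hq.two_le
      nlinarith
    have hc2 := hmin c hcn ((Dvd.intro_left _ hc.symm).trans hn1)
    have hqc : n.minFac ≤ c := by
      have h1 : n.minFac ^ 2 ≤ n.minFac * c := by rw [← hc]; exact hsq
      rw [pow_two] at h1
      exact Nat.le_of_mul_le_mul_left h1 hq.pos
    have hnle : n ≤ 2 * Module.finrank K M := by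
      calc n = n.minFac * c := hc
        _ ≤ c * c := Nat.mul_le_mul_right _ hqc
        _ = c ^ 2 := (pow_two c).symm
        _ ≤ _ := hc2
    have hlev : Lev t j n := by
      refine Or.inr (Or.inl (lev_of hnpos ?_))
      refine le_trans ?_ hM
      exact pow_le_pow_left₀ (Nat.cast_nonneg _) (by exact_mod_cast hnle) _
    have := hdiv n hn1 hlev
    omega

/-- torsion points of powers of `E` over an extension -/
theorem tors_power {t : ℝ} {j : K} (h : AllSLn t j) {A B : K} (hD : 4 * A ^ 3 + 27 * B ^ 2 ≠ 0)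
    (hj : jv A B = j) (M : IntermediateField K (AlgebraicClosure K)) [FiniteDimensional K M]
    (hM : ((2 * Module.finrank K M : ℕ) : ℝ) ^ Module.finrank ℚ K ≤ Height.mulHeight₁ j ^ (1 - t))
    {g : ℕ} {y : Fin g → EP A B} (hy : ∀ σ ∈ M.fixingSubgroup, ∀ i, act A B σ (y i) = y i) :
    addOrderOf y ^ 2 ≤ 2 * Module.finrank K M := by
  have hMpos : 0 < Module.finrank K M := Module.finrank_pos
  obtain ⟨N, hN⟩ : ∃ N, N = addOrderOf y := ⟨_, rfl⟩
  rw [← hN]
  rcases Nat.eq_zero_or_pos N with h0 | hNpos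
  · rw [h0]; simp
  have hNy : ∀ i, N • y i = 0 := by
    intro i
    have := addOrderOf_nsmul_eq_zero y
    rw [← hN] at this
    exact congrFun this i
  -- the finite group
  obtain ⟨T, hT⟩ : ∃ T : AddSubgroup (EP A B), ∀ z, z ∈ T ↔
      (N • z = 0 ∧ ∀ σ ∈ M.fixingSubgroup, act A B σ z = z) :=
    ⟨{ carrier := {z | N • z = 0 ∧ ∀ σ ∈ M.fixingSubgroup, act A B σ z = z}
       zero_mem' := ⟨smul_zero _, fun σ _ => map_zero _⟩
       add_mem' := by
        rintro a b ⟨h1, h2⟩ ⟨h3, h4⟩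
        exact ⟨by rw [nsmul_add, h1, h3, add_zero], fun σ hσ => by
          rw [map_add, h2 σ hσ, h4 σ hσ]⟩
       neg_mem' := by
        rintro a ⟨h1, h2⟩
        exact ⟨by rw [neg_nsmul, h1, neg_zero], fun σ hσ => by rw [map_neg, h2 σ hσ]⟩ },
      fun z => Iff.rfl⟩
  have hTe : AddMonoid.ExponentExists T := ⟨N, hNpos, fun z => by
    apply Subtype.ext
    exact ((hT z).1 z.2).1⟩
  obtain ⟨z, hz⟩ := AddMonoid.exists_addOrderOf_eq_exponent hTe
  have h1 : AddMonoid.exponent T = N := by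
    apply Nat.dvd_antisymm
    · refine AddMonoid.exponent_dvd_of_forall_nsmul_eq_zero fun z => ?_
      apply Subtype.ext
      exact ((hT z).1 z.2).1
    · rw [hN]
      apply addOrderOf_dvd_of_nsmul_eq_zero
      funext i
      have h2 := AddMonoid.exponent_nsmul_eq_zero (⟨y i, (hT _).2 ⟨hNy i, fun σ hσ => hy σ hσ i⟩⟩ : T)
      exact congrArg Subtype.val h2
  have h2 := tors_bound h hD hj M hM (z := (z : EP A B)) ((hT z).1 z.2).2
  rw [AddSubgroup.addOrderOf_coe, hz, h1] at h2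
  exact h2

end bound

section iso
open scoped Classical

/-- all primes -/
theorem full_of {t : ℝ} {j : K} (h : AllSLn t j) {A B : K} (hD : 4 * A ^ 3 + 27 * B ^ 2 ≠ 0)
    (hj : jv A B = j) {p : ℕ} (hp : p.Prime) :
    Iso.Full (fun σ : AlgebraicClosure K ≃ₐ[K] AlgebraicClosure K => act A B σ) p := by
  obtain ⟨P, Q, ⟨h1, h2, h3, -⟩, h5⟩ := hasSLn_nat (h A B hD hj p hp.one_le (Or.inl hp))
  exact ⟨P, Q, h1, h2, h3, h5⟩

/-- **finite stable subgroups of powers are kernels of integral matrices** -/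
theorem ker_matrix {t : ℝ} {j : K} (h : AllSLn t j) {A B : K} (hD : 4 * A ^ 3 + 27 * B ^ 2 ≠ 0)
    (hj : jv A B = j) {g : ℕ} (Γ : AddSubgroup (Fin g → EP A B)) (hfin : (Γ : Set (Fin g → EP A B)).Finite)
    (hst : ∀ σ : AlgebraicClosure K ≃ₐ[K] AlgebraicClosure K, ∀ x ∈ Γ,
      (fun i => act A B σ (x i)) ∈ Γ) :
    ∃ N : Matrix (Fin g) (Fin g) ℤ, N.det ≠ 0 ∧ ∀ x, x ∈ Γ ↔ Iso.mulV N x = 0 :=
  Iso.exists_matrix (act := fun σ : AlgebraicClosure K ≃ₐ[K] AlgebraicClosure K => act A B σ)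
    _ Γ hfin.to_subtype rfl hst fun _ hp _ => full_of h hD hj hp

/-- torsion points of quotients of powers of `E` over an extension -/
theorem tors_quot {t : ℝ} {j : K} (h : AllSLn t j) {A B : K} (hD : 4 * A ^ 3 + 27 * B ^ 2 ≠ 0)
    (hj : jv A B = j) {g : ℕ} (Γ : AddSubgroup (Fin g → EP A B)) (hfin : (Γ : Set (Fin g → EP A B)).Finite)
    (hst : ∀ σ : AlgebraicClosure K ≃ₐ[K] AlgebraicClosure K, ∀ x ∈ Γ,
      (fun i => act A B σ (x i)) ∈ Γ)
    (M : IntermediateField K (AlgebraicClosure K)) [FiniteDimensional K M]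
    (hM : ((2 * Module.finrank K M : ℕ) : ℝ) ^ Module.finrank ℚ K ≤ Height.mulHeight₁ j ^ (1 - t))
    {x : Fin g → EP A B}
    (hx : ∀ σ ∈ M.fixingSubgroup, (fun i => act A B σ (x i) - x i) ∈ Γ) :
    addOrderOf (x : (Fin g → EP A B) ⧸ Γ) ^ 2 ≤ 2 * Module.finrank K M := by
  obtain ⟨N, -, hN⟩ := ker_matrix h hD hj Γ hfin hst
  have h1 : addOrderOf (x : (Fin g → EP A B) ⧸ Γ) = addOrderOf (Iso.mulV N x) := by
    apply Nat.dvd_antisymm
    · apply addOrderOf_dvd_of_nsmul_eq_zero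
      rw [← QuotientAddGroup.mk_nsmul, QuotientAddGroup.eq_zero_iff, hN, map_nsmul]
      exact addOrderOf_nsmul_eq_zero _
    · apply addOrderOf_dvd_of_nsmul_eq_zero
      rw [← map_nsmul, ← hN, ← QuotientAddGroup.eq_zero_iff, QuotientAddGroup.mk_nsmul]
      exact addOrderOf_nsmul_eq_zero _
  rw [h1]
  refine tors_power h hD hj M hM ?_
  intro σ hσ i
  have h2 := (hN _).1 (hx σ hσ)
  have h3 : ∑ k, N i k • (act A B σ (x k) - x k) = 0 := congrFun h2 i
  have h4 : ∑ k, N i k • act A B σ (x k) - ∑ k, N i k • x k = 0 := by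
    rw [← Finset.sum_sub_distrib, ← h3]
    exact Finset.sum_congr rfl fun k _ => (zsmul_sub _ _ _).symm
  show act A B σ (∑ k, N i k • x k) = ∑ k, N i k • x k
  rw [map_sum, Finset.sum_congr rfl fun k _ => map_zsmul (act A B σ) (N i k) (x k)]
  exact sub_eq_zero.1 h4

end iso

end Pool.Agent.Q19.SU
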