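import Pool.Agent.Q19.SU.Ser2
import Pool.Agent.Q19.SU.Ord3

/-!
# No point of order two over the field
-/

set_option autoImplicit false

namespace Pool.Agent.Q19.SU

open WeierstrassCurve NumberField IsDedekindDomain Finset Pool.Agent.H691R3
open Pool.Agent.H901R3.MS Pool.Agent.W275.FM
open Pool.Agent.Y673.Loc Pool.Agent.Y673.SL Pool.Agent.Y733.LS Pool.Agent.W223.AK

variable {K : Type} [Field K] [NumberField K]

theorem two_na {w : AbsoluteValue K ℝ} (hna : Na w) {j t : K} (ht : t ≠ 0)
    (h : j * t = 256 * (t - 1) ^ 3) :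
    3 * Real.log (max (w t) 1) - Real.log (w t) + Real.log (w 256) ≤ Real.log (max (w j) 1) := by
  have h256 : 0 < w 256 := w.pos (by norm_num)
  have ht0 : 0 < w t := w.pos ht
  rcases eq_or_ne (w t) 1 with h1 | h1
  · rw [h1, max_self, Real.log_one, mul_zero, sub_zero, zero_add]
    have h2 : w 256 ≤ 1 := by
      have := hna.nat 256
      exact_mod_cast this
    exact (Real.log_nonpos h256.le h2).trans (Real.log_nonneg (le_max_right _ _))
  · have hm : max (w t) 1 ≤ w (t - 1) := by
      rcases lt_or_gt_of_ne h1 with h2 | h2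
      · rw [max_eq_right h2.le]
        have h3 := hna.sub t (t - 1)
        rw [sub_sub_cancel, map_one] at h3
        rcases le_max_iff.1 h3 with h4 | h4
        · linarith
        · exact h4
      · rw [max_eq_left h2.le]
        have h3 := hna (t - 1) 1
        rw [sub_add_cancel, map_one] at h3
        rcases le_max_iff.1 h3 with h4 | h4
        · exact h4
        · linarith
    have hm1 : 1 ≤ max (w t) 1 := le_max_right _ _
    have e : w j * w t = w 256 * w (t - 1) ^ 3 := by
      rw [← map_mul, h, map_mul, map_pow]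
    have hj : w 256 * max (w t) 1 ^ 3 ≤ w j * w t := by
      rw [e]
      exact mul_le_mul_of_nonneg_left (pow_le_pow_left₀ (by linarith) hm 3) h256.le
    have hj0 : 0 < w j := by
      have : 0 < w j * w t := lt_of_lt_of_le (by positivity) hj
      exact pos_of_mul_pos_left this ht0.le
    have h5 := Real.log_le_log (by positivity) hj
    rw [Real.log_mul (by positivity) (by positivity), Real.log_mul hj0.ne' ht0.ne', Real.log_pow]
      at h5
    have h6 := Real.log_le_log hj0 (le_max_left (w j) 1)
    push_cast at h5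
    linarith

theorem two_sp {v : Pr K} {j t : K} (ht : t ≠ 0) (h : j * t = 256 * (t - 1) ^ 3) (hS : Sp j v) :
    Real.log (Nv v) ≤ Real.log (max (fv v t) 1) - Real.log (fv v t) := by
  obtain ⟨h2, -, hj⟩ := hS
  have hna := fv_Na v
  have hN := Pool.Agent.W223.AK.Nv_one_lt v
  have ht0 : 0 < fv v t := (fv v).pos ht
  have h256 : fv v 256 = 1 := by
    have : (256 : K) = 2 ^ 8 := by norm_num
    rw [this, map_pow, h2, one_pow]
  have e : Nv v * fv v t = fv v (t - 1) ^ 3 := by
    rw [← hj, ← map_mul, h, map_mul, map_pow, h256, one_mul]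
  rcases lt_trichotomy (fv v t) 1 with h3 | h3 | h3
  · have h4 : fv v (t - 1) ≤ 1 := by
      have := hna.sub t 1
      rw [map_one, max_eq_right h3.le] at this
      exact this
    have h5 : 1 ≤ fv v (t - 1) := by
      have h3' := hna.sub t (t - 1)
      rw [sub_sub_cancel, map_one] at h3'
      rcases le_max_iff.1 h3' with h4 | h4
      · linarith
      · exact h4
    have h6 : fv v (t - 1) = 1 := le_antisymm h4 h5
    rw [h6, one_pow] at e
    rw [max_eq_right h3.le, Real.log_one, zero_sub, ← Real.log_inv]
    apply le_of_eq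
    congr 1
    field_simp
    exact e
  · exfalso
    have h4 : fv v (t - 1) ≤ 1 := by
      have := hna.sub t 1
      rw [map_one, h3, max_self] at this
      exact this
    rw [h3, mul_one] at e
    have : fv v (t - 1) ^ 3 ≤ 1 := pow_le_one₀ (AbsoluteValue.nonneg _ _) h4
    linarith
  · exfalso
    have h4 : fv v (t - 1) ≤ fv v t := by
      have := hna.sub t 1
      rw [map_one, max_eq_left h3.le] at this
      exact this
    have h5 : fv v t ≤ fv v (t - 1) := by
      have h3' := hna (t - 1) 1
      rw [sub_add_cancel, map_one] at h3'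
      rcases le_max_iff.1 h3' with h4 | h4
      · exact h4
      · linarith
    have h6 : fv v (t - 1) = fv v t := le_antisymm h4 h5
    rw [h6] at e
    have e2 : Nv v = fv v t ^ 2 := by
      have : (Nv v) * fv v t = fv v t ^ 2 * fv v t := by rw [e]; ring
      exact mul_right_cancel₀ ht0.ne' this
    rw [Pool.Agent.Y673.Cnt.fv_adv v ht, ← zpow_natCast, ← zpow_mul] at e2
    have e3 : (Nv v) ^ (1 : ℤ) = (Nv v) ^ (-(adv K v).v t * ((2 : ℕ) : ℤ)) := by
      rw [zpow_one]
      exact e2
    have e4 := zpow_right_injective₀ (by linarith) hN.ne' e3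
    push_cast at e4
    omega

theorem two_arch {w : AbsoluteValue K ℝ} (h256 : w 256 = 256) {j t : K} (ht : t ≠ 0)
    (h : j * t = 256 * (t - 1) ^ 3) :
    3 * Real.log (max (w t) 1) - Real.log (w t) - 2 * Real.log 2 ≤ Real.log (max (w j) 1) := by
  have ht0 : 0 < w t := w.pos ht
  have l2 : 0 < Real.log 2 := Real.log_pos (by norm_num)
  by_cases hc : 1 / 2 < w t ∧ w t < 2
  · obtain ⟨c1, c2⟩ := hc
    have h0 : 0 ≤ Real.log (max (w j) 1) := Real.log_nonneg (le_max_right _ _)
    refine le_trans ?_ h0
    rcases le_total (w t) 1 with h1 | h1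
    · rw [max_eq_right h1, Real.log_one]
      have : -Real.log 2 ≤ Real.log (w t) := by
        rw [← Real.log_inv]
        exact Real.log_le_log (by norm_num) (by linarith)
      linarith
    · rw [max_eq_left h1]
      have : Real.log (w t) ≤ Real.log 2 := Real.log_le_log ht0 c2.le
      linarith
  · have hm : max (w t) 1 / 2 ≤ w (t - 1) := by
      rw [not_and_or, not_lt, not_lt] at hc
      rcases hc with h2 | h2
      · rw [max_eq_right (by linarith)]
        have h3 := w.sub_le t (t - 1) 
        have h4 := w.add_le t (-(t - 1))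
        rw [map_neg_eq_map, ← sub_eq_add_neg, sub_sub_cancel, map_one] at h4
        linarith
      · rw [max_eq_left (by linarith)]
        have h4 := w.add_le (t - 1) 1
        rw [sub_add_cancel, map_one] at h4
        linarith
    have hm1 : 1 ≤ max (w t) 1 := le_max_right _ _
    have e : w j * w t = 256 * w (t - 1) ^ 3 := by
      rw [← map_mul, h, map_mul, map_pow, h256]
    have hj : 32 * max (w t) 1 ^ 3 ≤ w j * w t := by
      rw [e]
      have := pow_le_pow_left₀ (by positivity) hm 3
      have e2 : (max (w t) 1 / 2) ^ 3 = max (w t) 1 ^ 3 / 8 := by ring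
      rw [e2] at this
      linarith
    have hj0 : 0 < w j := by
      have : 0 < w j * w t := lt_of_lt_of_le (by positivity) hj
      exact pos_of_mul_pos_left this ht0.le
    have h5 := Real.log_le_log (by positivity) hj
    rw [Real.log_mul (by positivity) (by positivity), Real.log_mul hj0.ne' ht0.ne', Real.log_pow]
      at h5
    have h6 := Real.log_le_log hj0 (le_max_left (w j) 1)
    have h7 : 0 ≤ Real.log 32 := Real.log_nonneg (by norm_num)
    push_cast at h5
    linarith

open Classical in
/-- **a point of order two over the field**: the simple poles carry at most a third of the height -/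
theorem two_bound {j t : K} (ht : t ≠ 0) (h : j * t = 256 * (t - 1) ^ 3) :
    3 * sp j ≤ Pool.Agent.W223.AK.ht j + Module.finrank ℚ K * (10 * Real.log 2) := by
  have s1 : (Function.support fun v : Pr K => Real.log (max (fv v t) 1)).Finite := Fs_ht t
  have s2 : (Function.support fun v : Pr K => Real.log (fv v t)).Finite := Fs_log ht
  have s3 : (Function.support fun v : Pr K => Real.log (max (fv v j) 1)).Finite := Fs_ht j
  have s4 : (Function.support fun v : Pr K => Real.log (fv v 256)).Finite :=
    Fs_log (by norm_num)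
  -- the height of `t`
  have e1 : Pool.Agent.W223.AK.ht t = Sm (fun w : InfinitePlace K => Real.log (max (w.1 t) 1) - Real.log (w.1 t))
      (fun v => Real.log (max (fv v t) 1) - Real.log (fv v t)) := by
    rw [Sm_sub s1 s2]
    have a1 := ht_eq_Sa t
    have a2 := Sa_log ht
    unfold Sa at a1 a2
    rw [a2, sub_zero]
    exact a1
  have b1 : sp j ≤ Pool.Agent.W223.AK.ht t := by
    rw [e1]
    have e2 : sp j = Sm (fun _ : InfinitePlace K => 0)
        (fun v => if Sp j v then Real.log (Nv v) else 0) := by
      unfold Sm sp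
      simp
    rw [e2]
    refine Sm_mono (Fs_sp j) (supp_sub s1 s2) ?_ ?_
    · intro w
      rw [sub_nonneg]
      exact Real.log_le_log (w.1.pos ht) (le_max_left _ _)
    · intro v
      show (if Sp j v then Real.log (Nv v) else 0) ≤ _
      split_ifs with hS
      · exact two_sp ht h hS
      · rw [sub_nonneg]
        exact Real.log_le_log ((fv v).pos ht) (le_max_left _ _)
  have b2 : 3 * Pool.Agent.W223.AK.ht t - Module.finrank ℚ K * (10 * Real.log 2) ≤ Pool.Agent.W223.AK.ht j := by
    have a1 := ht_eq_Sa t
    have a2 := Sa_log ht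
    unfold Sa at a1 a2
    have c1 : Sm (fun _ : InfinitePlace K => -(2 * Real.log 2)) (fun v => Real.log (fv v (256 : K))) =
        -(Module.finrank ℚ K * (10 * Real.log 2)) := by
      unfold Sm
      rw [← Finset.sum_mul, sum_mult]
      have := fin_nat (K := K) (n := 256) (by norm_num)
      have e256 : (((256 : ℕ) : K)) = 256 := by norm_num
      rw [e256] at this
      rw [this]
      have l256 : Real.log ((256 : ℕ) : ℝ) = 8 * Real.log 2 := by
        have : (((256 : ℕ) : ℝ)) = 2 ^ 8 := by norm_num
        rw [this, Real.log_pow]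
        norm_num
      rw [l256]
      ring
    have c2 : Sm (fun w : InfinitePlace K => (3 * Real.log (max (w.1 t) 1) - Real.log (w.1 t)) +
          -(2 * Real.log 2))
        (fun v => (3 * Real.log (max (fv v t) 1) - Real.log (fv v t)) + Real.log (fv v (256 : K))) =
        3 * Pool.Agent.W223.AK.ht t - Module.finrank ℚ K * (10 * Real.log 2) := by
      rw [Sm_add (supp_sub (supp_mul 3 s1) s2) s4, c1, Sm_sub (supp_mul 3 s1) s2, Sm_mul, a2, a1]
      ring
    rw [← c2, ht_eq_Sa j]
    unfold Sa
    refine Sm_mono (supp_add (supp_sub (supp_mul 3 s1) s2) s4) s3 ?_ ?_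
    · intro w
      have h256 : w.1 (256 : K) = 256 := by
        have := inf_nat w 256
        exact_mod_cast this
      have := two_arch h256 ht h
      linarith
    · intro v
      exact two_na (fv_Na v) ht h
  linarith

/-- the parameter of a point of order two -/
theorem two_param {A B x : K} (hD : 4 * A ^ 3 + 27 * B ^ 2 ≠ 0) (hx : x ^ 3 + A * x + B = 0) :
    ∃ t : K, t ≠ 0 ∧ jv A B * t = 256 * (t - 1) ^ 3 := by
  have e1 : 4 * A ^ 3 + 27 * B ^ 2 = (3 * x ^ 2 + 4 * A) * (3 * x ^ 2 + A) ^ 2 := by
    have : B = -(x ^ 3 + A * x) := by linear_combination hx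
    rw [this]
    ring
  have hw : (3 * x ^ 2 + 4 * A) ≠ 0 := fun h => hD (by rw [e1, h, zero_mul])
  have hu : (3 * x ^ 2 + A) ≠ 0 := fun h => hD (by rw [e1, h]; ring)
  refine ⟨(3 * x ^ 2 + 4 * A) / (3 * x ^ 2 + A), div_ne_zero hw hu, ?_⟩
  unfold jv
  rw [e1]
  have key : ∀ w u a : K, w ≠ 0 → u ≠ 0 → w - u = 3 * a →
      6912 * a ^ 3 / (w * u ^ 2) * (w / u) = 256 * (w / u - 1) ^ 3 := by
    intro w u a hw hu h
    have e2 : w / u - 1 = 3 * a / u := by
      rw [← h, sub_div, div_self hu]
    rw [e2, div_pow, mul_pow, div_mul_div_comm, mul_div_assoc', div_eq_div_iff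
      (mul_ne_zero (mul_ne_zero hw (pow_ne_zero 2 hu)) hu) (pow_ne_zero 3 hu)]
    ring
  exact key _ _ _ hw hu (by ring)

end Pool.Agent.Q19.SU
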