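import Pool.Agent.Y673.FM.Node2
import Pool.Agent.Y673.FM.Tame
import Pool.Agent.Q19.SU.Line3

/-!
# The inertia group at a simple pole acts on the torsion by unipotent automorphisms up to sign
-/

set_option autoImplicit false

namespace Pool.Agent.Q19.SU

open WeierstrassCurve Pool.Agent.H901R3.MS Pool.Agent.Y673.Loc Pool.Agent.Y673.Loc.ZV
open Pool.Agent.W275.FM Pool.Agent.W275.FMK Pool.Agent.Y673.FM Pool.Agent.W370.KE

section
variable {L : Type} [Field L] [DecidableEq L] [CharZero L] {w : ZV L} {H : ℤ} {e η : L}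

/-- torsion of order prime to the residue characteristic in the kernel of the reduction -/
theorem kn_tor0 {a b : L} (ha : w.G 0 a) (hb : w.G 0 b) {n : ℕ} (hn : w.E 0 (n : L)) {P : Pt a b}
    (hK : Kn w P) (hP : n • P = 0) : P = 0 := by
  by_contra h0
  obtain ⟨h, hh, h1, -⟩ := tt_val ha hb hK h0
  have h2 := Kn.mul_val ha hb hK hh h1 hn
  rw [hP, tt_zero] at h2
  exact h2.1 rfl

/-- **torsion points of level zero are fixed by the inertia group** -/
theorem fix0 (N : ND w H e η) {σ : L →+* L} (hσ : In w σ) (ha : σ (cA e η) = cA e η)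
    (hb : σ (cB e η) = cB e η) {n : ℕ} (hn : w.E 0 (n : L)) {P : Pt (cA e η) (cB e η)}
    (hP : n • P = 0) (h0 : LV w 0 H e η P 0) : ac two_ne_zero σ ha hb P = P := by
  have hP' : n • ac two_ne_zero σ ha hb P = 0 := by rw [← map_nsmul, hP, map_zero]
  rcases P with _ | ⟨x, y, h⟩
  · exact map_zero _
  have hx : w.G 0 x := by
    by_contra hcon
    exact absurd (kn_tor0 N.ga N.gb hn (Kn_some.2 hcon) hP) (Affine.Point.some_ne_zero h)
  have hy := int_y N.ga N.gb (eqn_of h) hx
  have hH := N.hH
  have hxe : w.E 0 (x - e) := by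
    obtain ⟨k, hk, h1⟩ := NN.zero hH h0
    have h2 := h1.mul N.h3e
    rw [div_mul_cancel₀ _ N.D.h3e] at h2
    have h3 := h2.le_of_G (hx.sub N.he.G)
    exact h2.cast (by omega)
  have hη : w.G 1 η := N.eta.mono hH
  have hns : w.E 0 y ∨ w.E 0 (3 * x ^ 2 + cA e η) := by
    by_cases h1 : w.E 0 y
    · exact Or.inl h1
    · right
      have h2 := G1_of_not hy h1
      have h3 : w.E 0 ((x - e) ^ 2 - η ^ 2) :=
        (hxe.sq.cast (by ring)).subG (hη.sq) (by omega)
      have h4 : w.G 1 (x + 2 * e) := by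
        have h5 : (x + 2 * e) * ((x - e) ^ 2 - η ^ 2) = y * y := by
          have := eqn_of h
          unfold Eqn cA cB at this
          linear_combination -this
        have h6 : w.G 1 ((x + 2 * e) * ((x - e) ^ 2 - η ^ 2)) := by
          rw [h5]; exact g01 hy h2
        exact (G_of_mul h6 h3).mono (by omega)
      have h5 : w.E 0 (x + e) := by
        have : x + e = -e + (x + 2 * e) := by ring
        rw [this]
        exact N.he.neg.addG h4 (by omega)
      have h6 : 3 * x ^ 2 + cA e η = 3 * ((x - e) * (x + e)) - η ^ 2 := by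
        unfold cA; ring
      rw [h6]
      exact ((N.three.mul (hxe.mul h5)).cast (by ring)).subG hη.sq (by omega)
  rw [ac_some] at hP' ⊢
  have h1 := same_red N.two N.ga h (ac_ns σ ha hb h) hx hy (hσ.i x hx) (hσ.i y hy) hns
  have h2 := kn_tor0 N.ga N.gb hn h1 (by rw [smul_sub, hP, hP', sub_zero])
  exact sub_eq_zero.1 h2

/-- two points of the same level on the same branch -/
theorem same_sign (N : ND w H e η) {x y x' y' : L}
    {h : (CV (cA e η) (cB e η)).toAffine.Nonsingular x y}
    {h' : (CV (cA e η) (cB e η)).toAffine.Nonsingular x' y'} {α : ℤ} (hα : 0 < α) (hαH : α < H)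
    (hx : w.E α (x - e)) (hx' : w.E α (x' - e))
    (hr : w.G 1 (y / (x - e) - y' / (x' - e))) :
    LV w 0 H e η ((Affine.Point.some x y h : Pt (cA e η) (cB e η)) - Affine.Point.some x' y' h')
      0 := by
  have hH := N.hH
  obtain ⟨X, hX⟩ : ∃ X, X = x - e := ⟨_, rfl⟩
  obtain ⟨X', hX'⟩ : ∃ X', X' = x' - e := ⟨_, rfl⟩
  rw [← hX] at hx hr
  rw [← hX'] at hx' hr
  have hxX : x = X + e := by rw [hX]; ring
  have hxX' : x' = X' + e := by rw [hX']; ring
  have hX0 := hx.1
  have hX0' := hx'.1
  obtain ⟨r, hr1⟩ : ∃ r, r = y / X := ⟨_, rfl⟩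
  obtain ⟨r', hr1'⟩ : ∃ r', r' = y' / X' := ⟨_, rfl⟩
  rw [← hr1, ← hr1'] at hr
  have hy : y = r * X := by rw [hr1, div_mul_cancel₀ _ hX0]
  have hy' : y' = r' * X' := by rw [hr1', div_mul_cancel₀ _ hX0']
  have E1 := eqn_of h
  have E2 := eqn_of h'
  unfold Eqn cA cB at E1 E2
  have q1 : y ^ 2 = (X + 3 * e) * (X ^ 2 - η ^ 2) := by
    rw [hxX] at E1
    linear_combination E1
  have q2 : y' ^ 2 = (X' + 3 * e) * (X' ^ 2 - η ^ 2) := by
    rw [hxX'] at E2
    linear_combination E2
  have hη := N.eta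
  have s1 : w.G (2 * α + 1) (y ^ 2 - 3 * e * X ^ 2) := by
    have : y ^ 2 - 3 * e * X ^ 2 = X * X ^ 2 - (X + 3 * e) * η ^ 2 := by rw [q1]; ring
    rw [this]
    refine ((hx.mul hx.sq).mono (by omega)).sub ?_
    exact ((((hx.mono (m := 0) hα.le).add N.h3e.G).mul hη.sq.G)).mono (by omega)
  have s2 : w.G (2 * α + 1) (y' ^ 2 - 3 * e * X' ^ 2) := by
    have : y' ^ 2 - 3 * e * X' ^ 2 = X' * X' ^ 2 - (X' + 3 * e) * η ^ 2 := by rw [q2]; ring
    rw [this]
    refine ((hx'.mul hx'.sq).mono (by omega)).sub ?_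
    exact ((((hx'.mono (m := 0) hα.le).add N.h3e.G).mul hη.sq.G)).mono (by omega)
  have s3 : w.G 1 (r ^ 2 - 3 * e) := by
    have h1 : (r ^ 2 - 3 * e) * X ^ 2 = y ^ 2 - 3 * e * X ^ 2 := by rw [hy]; ring
    rw [← h1] at s1
    exact (G_of_mul s1 hx.sq).mono (by omega)
  have s4 : w.E 0 (r ^ 2) := by
    have : r ^ 2 = 3 * e + (r ^ 2 - 3 * e) := by ring
    rw [this]
    exact N.h3e.addG s3 (by omega)
  have s5 : w.E 0 r := by
    have hr0 : r ≠ 0 := by
      rintro rfl
      exact s4.1 (by ring)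
    have := (E_of_ne (w := w) hr0).sq.eq s4
    exact ⟨hr0, by omega⟩
  have s6 : w.E 0 (r * r' + 3 * e) := by
    have e1 : r * r' + 3 * e = 2 * (3 * e) + ((r ^ 2 - 3 * e) - r * (r - r')) := by ring
    rw [e1]
    exact ((N.two.mul N.h3e).cast (by ring)).addG (s3.sub (g01 s5.G hr)) (by omega)
  by_cases hxx : x = x'
  · have hXX : X = X' := by rw [hX, hX', hxx]
    have h3 : (y - y') * (y + y') = 0 := by
      have : y ^ 2 = y' ^ 2 := by rw [q1, q2, hXX]
      linear_combination this
    rcases mul_eq_zero.1 h3 with h4 | h4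
    · have hyy : y = y' := sub_eq_zero.1 h4
      subst hxx hyy
      rw [sub_self]
      rfl
    · exfalso
      have h5 : r' = -r := by
        rw [hr1, hr1', hXX, ← neg_div]
        congr 1
        linear_combination h4
      rw [h5] at hr
      have h6 : w.E 0 (r - -r) := by
        have : r - -r = 2 * r := by ring
        rw [this]
        exact (N.two.mul s5).cast (by ring)
      have := h6.le_of_G hr
      omega
  · have hn : (CV (cA e η) (cB e η)).toAffine.Nonsingular x' (-y') := by
      have := (Affine.nonsingular_neg x' y').2 h'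
      simpa [Affine.negY, CV] using this
    rw [sub_eq_add_neg, neg_some' h' hn]
    obtain ⟨h₃, e3⟩ := add_ne h hn hxx _ _ _ rfl rfl rfl
    rw [e3]
    have hsub : X - X' ≠ 0 := by
      rw [hX, hX']
      intro h0
      apply hxx
      linear_combination h0
    have hd := E_of_ne (w := w) hsub
    have hd1 : α ≤ w.v (X - X') := hd.le_of_G (hx.G.sub hx'.G)
    have t1 : w.E (2 * α) ((y + y') ^ 2 - 3 * e * (X - X') ^ 2) := by
      have e1 : (y + y') ^ 2 - 3 * e * (X - X') ^ 2 = 2 * (X * X' * (r * r' + 3 * e)) +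
          ((y ^ 2 - 3 * e * X ^ 2) + (y' ^ 2 - 3 * e * X' ^ 2)) := by
        rw [hy, hy']; ring
      rw [e1]
      exact ((N.two.mul ((hx.mul hx').mul s6)).cast (by ring)).addG (s1.add s2) (by omega)
    have e4 : (((y - -y') / (x - x')) ^ 2 - x - x') - e =
        ((y + y') ^ 2 - 3 * e * (X - X') ^ 2) / (X - X') ^ 2 - (X + X') := by
      have e5 : x - x' = X - X' := by rw [hX, hX']; ring
      rw [e5, hxX, hxX']
      field_simp
      ring
    refine NN.bot_of_E (n := 2 * α - 2 * w.v (X - X') - 0) ?_ (by omega)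
    rw [e4]
    exact (((t1.div hd.sq)).subG ((hx.mono (m := 1) (by omega)).add (hx'.mono (by omega)))
      (by omega)).div N.h3e

/-- **the displacement of every point by an element of the inertia group has level zero** -/
theorem unip (N : ND w H e η) {σ : L →+* L} (hσ : In w σ) (ha : σ (cA e η) = cA e η)
    (hb : σ (cB e η) = cB e η) (he : σ e = e) (P : Pt (cA e η) (cB e η)) :
    LV w 0 H e η (ac two_ne_zero σ ha hb P - P) 0 := by
  have hH := N.hH
  obtain ⟨α, hα⟩ := LV.total N.D P
  have hα0 := hα.nonneg N.D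
  have hαH := hα.le N.D
  have hσP := lv_ac N hσ ha hb he hα
  rcases eq_or_lt_of_le hα0 with h | h
  · rw [← h] at hα hσP
    rw [sub_eq_add_neg]
    exact N.lv_add hσP (hα.neg N.D)
  · rcases eq_or_lt_of_le hαH with h1 | h1
    · obtain ⟨c', d', g1, g2, g3⟩ := LV.pair N.D hα h hσP
      have hd : d' = 0 := by
        rw [h1] at g3
        have e1 : |H - H| = 0 := by simp
        have e2 : min (H + H) (2 * H - H - H) = 0 := by
          rw [min_eq_right (by omega)]; ring
        rw [e1, e2] at g3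
        omega
      rw [hd] at g2
      exact g2
    · rcases P with _ | ⟨x, y, hn⟩
      · exact absurd (show α = 0 from hα) h.ne'
      · have hx0 : w.E α (x - e) := by
          have h2 : w.E (α + 2 * 0) ((x - e) / (3 * e)) := NN.E (w := w) (c := 0) (H := H) hα h h1
          have h3 := h2.mul N.h3e
          rw [div_mul_cancel₀ _ N.D.h3e] at h3
          exact h3.cast (by ring)
        have hσx : w.E α (σ x - e) := by
          have : σ x - e = σ (x - e) := by rw [map_sub, he]
          rw [this]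
          exact ⟨(map_ne_zero σ).2 hx0.1, by rw [hσ.v]; exact hx0.2⟩
        rw [ac_some]
        refine same_sign N h h1 hσx hx0 ?_
        have e1 : σ y / (σ x - e) - y / (x - e) = σ (y / (x - e)) - y / (x - e) := by
          rw [map_div₀, map_sub, he]
        rw [e1]
        apply hσ.i
        -- the quotient is integral
        have E1 := eqn_of hn
        unfold Eqn cA cB at E1
        have q1 : (y / (x - e)) ^ 2 * (x - e) ^ 2 = (x - e + 3 * e) * ((x - e) ^ 2 - η ^ 2) := by
          rw [div_pow, div_mul_cancel₀ _ (pow_ne_zero 2 hx0.1)]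
          linear_combination E1
        have q2 : w.G (2 * α) ((y / (x - e)) ^ 2 * (x - e) ^ 2) := by
          rw [q1]
          have h4 : w.G (0 + 2 * α) ((x - e + 3 * e) * ((x - e) ^ 2 - η ^ 2)) := by
            refine ((hx0.mono (m := 0) h.le).add N.h3e.G).mul ?_
            exact hx0.sq.G.sub (N.eta.sq.mono (by omega))
          exact h4.mono (by omega)
        have q3 : w.G 0 ((y / (x - e)) ^ 2) := (G_of_mul q2 hx0.sq).mono (by omega)
        by_cases hr0 : y / (x - e) = 0
        · rw [hr0]; exact G_zero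
        · have h5 := (E_of_ne (w := w) hr0).sq.le_of_G q3
          exact (E_of_ne (w := w) hr0).mono (by omega)

/-- **unipotent action** of the inertia group -/
theorem unip2 (N : ND w H e η) {σ : L →+* L} (hσ : In w σ) (ha : σ (cA e η) = cA e η)
    (hb : σ (cB e η) = cB e η) (he : σ e = e) {n : ℕ} (hn : w.E 0 (n : L))
    {P : Pt (cA e η) (cB e η)} (hP : n • P = 0) :
    ac two_ne_zero σ ha hb (ac two_ne_zero σ ha hb P - P) = ac two_ne_zero σ ha hb P - P := by
  refine fix0 N hσ ha hb hn ?_ (unip N hσ ha hb he P)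
  rw [smul_sub, ← map_nsmul, hP, map_zero, sub_zero]

end

end Pool.Agent.Q19.SU
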