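import Pool.Agent.Q19.SU.Uni

/-!
# The unipotent action on the curve itself, up to a sign
-/

set_option autoImplicit false

namespace Pool.Agent.Q19.SU

open WeierstrassCurve Pool.Agent.H901R3.MS Pool.Agent.Y673.Loc Pool.Agent.Y673.Loc.ZV
open Pool.Agent.W275.FM Pool.Agent.W275.FMK Pool.Agent.Y673.FM Pool.Agent.W370.KE

section
variable {L : Type} [Field L] [DecidableEq L] [CharZero L] {w : ZV L} {H : ℤ} {e η : L}

theorem unip3 (D : Dt w 0 H e η) (h3 : w.E 0 (3 : L)) {s : L} (hs : s ^ 2 = 3 * e)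
    {σ : L →+* L} (hσ : In w σ) (ha : σ (cA e η) = cA e η) (hb : σ (cB e η) = cB e η)
    (he : σ e = e) : ∃ χ : ℤ, (χ = 1 ∨ χ = -1) ∧ σ s = χ * s ∧
      ∀ n : ℕ, w.E 0 (n : L) → ∀ P : Pt (cA e η) (cB e η), n • P = 0 →
        χ • ac two_ne_zero σ ha hb (χ • ac two_ne_zero σ ha hb P - P) =
          χ • ac two_ne_zero σ ha hb P - P := by
  have h3e := D.h3e
  have hs0 : s ≠ 0 := by
    rintro rfl
    apply h3e
    rw [← hs]; ring
  have hs2 : s ^ 2 ≠ 0 := pow_ne_zero 2 hs0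
  have he' : e = s ^ 2 / 3 := by rw [hs, mul_div_cancel_left₀ _ h3.1]
  have hσs2 : σ s ^ 2 = s ^ 2 := by rw [← map_pow, hs, map_mul, map_ofNat, he]
  have hsign : σ s = s ∨ σ s = -s := by
    have : (σ s - s) * (σ s + s) = 0 := by linear_combination hσs2
    rcases mul_eq_zero.1 this with h | h
    · exact Or.inl (sub_eq_zero.1 h)
    · exact Or.inr (eq_neg_of_add_eq_zero_left h)
  obtain ⟨e₁, he₁⟩ : ∃ e₁, e₁ = e / s ^ 2 := ⟨_, rfl⟩
  obtain ⟨η₁, hη₁⟩ : ∃ η₁, η₁ = η / s ^ 2 := ⟨_, rfl⟩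
  have e13 : 3 * e₁ = 1 := by
    rw [he₁, ← mul_div_assoc, ← hs, div_self hs2]
  have hA : cA e η = s ^ 4 * cA e₁ η₁ := by
    rw [he₁, hη₁]; unfold cA; field_simp
  have hB : cB e η = s ^ 6 * cB e₁ η₁ := by
    rw [he₁, hη₁]; unfold cB; field_simp
  have N : ND w H e₁ η₁ := by
    refine ⟨⟨?_, D.three, ?_⟩, h3, ?_⟩
    · have : η₁ / (3 * e₁) = η / (3 * e) := by rw [e13, div_one, hη₁, hs]
      rw [this]
      exact D.dat
    · rw [he₁]; exact div_ne_zero D.he hs2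
    · have : e₁ = 3⁻¹ := by
        rw [eq_comm, inv_eq_one_div, div_eq_iff h3.1]
        linear_combination -e13
      rw [this]
      exact h3.inv.cast (by norm_num)
  have hσe₁ : σ e₁ = e₁ := by rw [he₁, map_div₀, map_pow, hσs2, he]
  have ha₁ : σ (cA e₁ η₁) = cA e₁ η₁ := by
    have h1 : cA e₁ η₁ = cA e η / (s ^ 2) ^ 2 := by
      rw [hA, ← pow_mul, mul_div_cancel_left₀ _ (pow_ne_zero _ hs0)]
    rw [h1, map_div₀, map_pow, map_pow, hσs2, ha]
  have hb₁ : σ (cB e₁ η₁) = cB e₁ η₁ := by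
    have h1 : cB e₁ η₁ = cB e η / (s ^ 2) ^ 3 := by
      rw [hB, ← pow_mul, mul_div_cancel_left₀ _ (pow_ne_zero _ hs0)]
    rw [h1, map_div₀, map_pow, map_pow, hσs2, hb]
  obtain ⟨t, ht⟩ : ∃ t : Pt (cA e η) (cB e η) →+ Pt (cA e₁ η₁) (cB e₁ η₁),
      t = tw (RingHom.id L) s two_ne_zero hs0 (by rw [RingHom.id_apply]; exact hA)
        (by rw [RingHom.id_apply]; exact hB) := ⟨_, rfl⟩
  have htinj : Function.Injective t := by rw [ht]; exact tw_inj _ _ _ _ _ _
  obtain ⟨χ, hχ, hχs⟩ : ∃ χ : ℤ, (χ = 1 ∨ χ = -1) ∧ σ s = χ * s := by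
    rcases hsign with h | h
    · exact ⟨1, Or.inl rfl, by rw [h]; push_cast; ring⟩
    · exact ⟨-1, Or.inr rfl, by rw [h]; push_cast; ring⟩
  have hcomm : ∀ P : Pt (cA e η) (cB e η),
      ac two_ne_zero σ ha₁ hb₁ (t P) = t (χ • ac two_ne_zero σ ha hb P) := by
    intro P
    rw [map_zsmul]
    rcases P with _ | ⟨x, y, h⟩
    · have h0 : (Affine.Point.zero : Pt (cA e η) (cB e η)) = 0 := rfl
      rw [h0, map_zero, map_zero, map_zero, map_zero, smul_zero]
    · rw [ht, tw_some, ac_some, ac_some, tw_some]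
      simp only [RingHom.id_apply]
      rcases hχ with rfl | rfl
      · rw [one_smul, Affine.Point.some.injEq]
        rw [Int.cast_one, one_mul] at hχs
        rw [map_div₀, map_div₀, map_pow, map_pow, hχs]
        exact ⟨rfl, rfl⟩
      · have h1 : (CV (cA e₁ η₁) (cB e₁ η₁)).toAffine.Nonsingular (σ x / s ^ 2) (-(σ y / s ^ 3)) := by
          have := (Affine.nonsingular_neg (σ x / s ^ 2) (σ y / s ^ 3)).2
            (tw_ns (RingHom.id L) s hs0 (by rw [RingHom.id_apply]; exact hA)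
              (by rw [RingHom.id_apply]; exact hB) (ac_ns σ ha hb h))
          simpa [Affine.negY, CV] using this
        rw [neg_one_smul, neg_some' _ h1, Affine.Point.some.injEq]
        rw [map_div₀, map_div₀, map_pow, map_pow, hχs]
        push_cast
        constructor
        · congr 1; ring
        · have : (-1 * s) ^ 3 = -(s ^ 3) := by ring
          rw [this, div_neg]
  refine ⟨χ, hχ, hχs, ?_⟩
  intro n hn P hP
  apply htinj
  have h1 : n • t P = 0 := by rw [← map_nsmul, hP, map_zero]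
  have h2 := unip2 N hσ ha₁ hb₁ hσe₁ hn h1
  rw [← hcomm, map_sub, ← hcomm]
  exact h2

end

end Pool.Agent.Q19.SU
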